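import Pool.Agent.Lib.MP_c0f824_an.MainI

open MeasureTheory Set Metric Measure
open scoped ENNReal RealInnerProductSpace ContDiff

namespace Pool.Agent.Lib.MPc0f824

/-- `s₁(p,q) = (d-1)/2 - d/q + 1/p`. -/
noncomputable def s1 (d : ℕ) (p q : ℝ) : ℝ := ((d : ℝ) - 1) / 2 - d / q + 1 / p

/-- `s₂(p,q) = (d+1)/(2p) - (d+1-2α)/(2q)`. -/
noncomputable def s2 (d : ℕ) (α p q : ℝ) : ℝ :=
  ((d : ℝ) + 1) / (2 * p) - ((d : ℝ) + 1 - 2 * α) / (2 * q)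

/-- `s₃(p,q) = d/p - (d-1)/2 - (1-α)/q`. -/
noncomputable def s3 (d : ℕ) (α p q : ℝ) : ℝ := (d : ℝ) / p - ((d : ℝ) - 1) / 2 - (1 - α) / q

/-- The critical exponent `s_c(p,q) = max{s₁, s₂, s₃}`. -/
noncomputable def sc (d : ℕ) (α p q : ℝ) : ℝ := max (s1 d p q) (max (s2 d α p q) (s3 d α p q))

/-- The radial exponent `max{s₁, s₃, 1/p - (1-α)/q}`. -/
noncomputable def sRad (d : ℕ) (α p q : ℝ) : ℝ :=
  max (s1 d p q) (max (s3 d α p q) (1 / p - (1 - α) / q))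

/-- The critical exponent `q_c = 2(d-1+α)/(d-1)`. -/
noncomputable def qc (d : ℕ) (α : ℝ) : ℝ := 2 * ((d : ℝ) - 1 + α) / ((d : ℝ) - 1)

theorem geo_bound {α κ : ℝ} (h : κ ≠ α) : ∃ C : ℝ, 0 < C ∧ ∀ j : ℕ,
    ((2 : ℝ) ^ j) ^ κ * geo α κ j ≤ C * (((2 : ℝ) ^ j) ^ κ + ((2 : ℝ) ^ j) ^ α) := by
  set x : ℝ := (2 : ℝ) ^ (α - κ) with hx
  have hx0 : 0 < x := by positivity
  have hx1 : x ≠ 1 := by
    intro hcon
    have h1 : (2 : ℝ) ^ (α - κ) = 2 ^ (0 : ℝ) := by rw [← hx, hcon, Real.rpow_zero]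
    have h2 := (Real.rpow_right_inj (by norm_num) (by norm_num)).1 h1
    exact h (by linarith)
  have hd : 0 < |x - 1| := abs_pos.2 (sub_ne_zero.2 hx1)
  refine ⟨(x + 1) / |x - 1|, by positivity, fun j => ?_⟩
  have hg : geo α κ j = (x ^ (j + 1) - 1) / (x - 1) := by
    unfold geo
    rw [← hx, geom_sum_eq hx1]
  have hlk : (0 : ℝ) < ((2 : ℝ) ^ j) ^ κ := by positivity
  have hla : (0 : ℝ) < ((2 : ℝ) ^ j) ^ α := by positivity
  have hgle : geo α κ j ≤ (x ^ (j + 1) + 1) / |x - 1| := by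
    calc geo α κ j ≤ |geo α κ j| := le_abs_self _
      _ = |x ^ (j + 1) - 1| / |x - 1| := by rw [hg, abs_div]
      _ ≤ _ := by
        apply div_le_div_of_nonneg_right _ hd.le
        rw [abs_le]
        have : 0 < x ^ (j + 1) := by positivity
        constructor <;> linarith
  have hxj : ((2 : ℝ) ^ j) ^ κ * x ^ j = ((2 : ℝ) ^ j) ^ α := by
    have h1 : x ^ j = ((2 : ℝ) ^ j) ^ (α - κ) := by
      rw [hx, ← Real.rpow_natCast ((2 : ℝ) ^ (α - κ)) j, ← Real.rpow_natCast (2 : ℝ) j,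
        ← Real.rpow_mul (by norm_num), ← Real.rpow_mul (by norm_num), mul_comm]
    rw [h1, ← Real.rpow_add (by positivity)]
    congr 1
    ring
  calc ((2 : ℝ) ^ j) ^ κ * geo α κ j ≤ ((2 : ℝ) ^ j) ^ κ * ((x ^ (j + 1) + 1) / |x - 1|) :=
        mul_le_mul_of_nonneg_left hgle hlk.le
    _ = (x * (((2 : ℝ) ^ j) ^ κ * x ^ j) + ((2 : ℝ) ^ j) ^ κ) / |x - 1| := by
        rw [pow_succ]; ring
    _ = (x * ((2 : ℝ) ^ j) ^ α + ((2 : ℝ) ^ j) ^ κ) / |x - 1| := by rw [hxj]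
    _ ≤ ((x + 1) * (((2 : ℝ) ^ j) ^ κ + ((2 : ℝ) ^ j) ^ α)) / |x - 1| := by
        apply div_le_div_of_nonneg_right _ hd.le
        nlinarith
    _ = _ := by ring

theorem lin_bound {ε : ℝ} (hε : 0 < ε) : ∃ C : ℝ, 0 < C ∧ ∀ j : ℕ,
    ((j : ℝ) + 1) ≤ C * ((2 : ℝ) ^ j) ^ ε := by
  have hlog : 0 < Real.log 2 := Real.log_pos (by norm_num)
  refine ⟨1 + 1 / (ε * Real.log 2), by positivity, fun j => ?_⟩
  have h1 : ((2 : ℝ) ^ j) ^ ε = Real.exp (ε * Real.log 2 * j) := by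
    rw [← Real.rpow_natCast, ← Real.rpow_mul (by norm_num), Real.rpow_def_of_pos (by norm_num)]
    congr 1; ring
  have h2 := Real.add_one_le_exp (ε * Real.log 2 * j)
  rw [← h1] at h2
  have hj : (0 : ℝ) ≤ j := Nat.cast_nonneg j
  have h3 : (1 : ℝ) ≤ ((2 : ℝ) ^ j) ^ ε := by
    have : 0 ≤ ε * Real.log 2 * j := by positivity
    linarith
  have h4 : (j : ℝ) ≤ 1 / (ε * Real.log 2) * ((2 : ℝ) ^ j) ^ ε := by
    rw [one_div, ← div_eq_inv_mul, le_div_iff₀ (by positivity)]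
    nlinarith
  rw [add_mul]
  linarith

/-- Numerical estimate of the constant. -/
theorem num_bound (n : ℕ) {α p q s : ℝ} (hα : 0 < α) (hp : 1 ≤ p) (hpq : p ≤ q) {θ' η' : ℝ}
    (hθ : θ' = max (((n : ℝ) + 1) * (1 / 2 - 1 / q)) 0)
    (hη : η' = max (((n : ℝ) + 1) * (1 / p - 1 / 2)) 0)
    (hs : sRad (n + 2) α p q ≤ s) (hs' : q = qc (n + 2) α → 1 / p - (1 - α) / q < s) :
    ∃ C : ℝ, 0 < C ∧ ∀ j : ℕ, ((2 : ℝ) ^ j) ^ (q / p - 1) *
          (2 * (((2 : ℝ) ^ j) ^ (q * θ') * geo α (q * θ') j) + ((2 : ℝ) ^ j) ^ α * ((2 : ℝ) ^ j) ^ (q * η'))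
        ≤ C * ((2 : ℝ) ^ j) ^ (q * s) := by
  have hp0 : 0 < p := by linarith
  have hq0 : 0 < q := by linarith
  set m : ℝ := (n : ℝ) + 1 with hm
  have hm0 : 0 < m := by positivity
  have hsr : s1 (n + 2) p q ≤ sRad (n + 2) α p q := le_max_left _ _
  have hsr3 : s3 (n + 2) α p q ≤ sRad (n + 2) α p q := (le_max_left _ _).trans (le_max_right _ _)
  have hsr0 : 1 / p - (1 - α) / q ≤ sRad (n + 2) α p q := (le_max_right _ _).trans (le_max_right _ _)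
  have hdm : (((n + 2 : ℕ) : ℝ) - 1) = m := by rw [hm]; push_cast; ring
  have q0 : q * (1 / p - (1 - α) / q) = q / p - 1 + α := by field_simp; ring
  have q1 : q * s1 (n + 2) p q = q / p - 1 + q * (m * (1 / 2 - 1 / q)) := by
    unfold s1
    rw [hdm]
    have : ((n + 2 : ℕ) : ℝ) = m + 1 := by rw [hm]; push_cast; ring
    rw [this]
    field_simp
    ring
  have q3 : q * s3 (n + 2) α p q = q / p - 1 + α + q * (m * (1 / p - 1 / 2)) := by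
    unfold s3
    rw [hdm]
    have : ((n + 2 : ℕ) : ℝ) = m + 1 := by rw [hm]; push_cast; ring
    rw [this]
    field_simp
    ring
  set R := sRad (n + 2) α p q with hR
  have E0 : q / p - 1 + α ≤ q * R := by
    rw [← q0]; exact mul_le_mul_of_nonneg_left hsr0 hq0.le
  have E1 : q / p - 1 + q * θ' ≤ q * R := by
    rw [hθ]
    rcases le_total (m * (1 / 2 - 1 / q)) 0 with h | h
    · rw [max_eq_right h]; linarith
    · rw [max_eq_left h, ← q1]; exact mul_le_mul_of_nonneg_left hsr hq0.le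
  have E2 : q / p - 1 + α + q * η' ≤ q * R := by
    rw [hη]
    rcases le_total (m * (1 / p - 1 / 2)) 0 with h | h
    · rw [max_eq_right h]; linarith
    · rw [max_eq_left h, ← q3]; exact mul_le_mul_of_nonneg_left hsr3 hq0.le
  have hRs : q * R ≤ q * s := mul_le_mul_of_nonneg_left hs hq0.le
  have hlam1 : ∀ j : ℕ, (1 : ℝ) ≤ 2 ^ j := fun j => one_le_pow₀ (by norm_num)
  have hmono : ∀ (j : ℕ) (e : ℝ), e ≤ q * s → ((2 : ℝ) ^ j) ^ e ≤ ((2 : ℝ) ^ j) ^ (q * s) := fun j e he =>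
    Real.rpow_le_rpow_of_exponent_le (hlam1 j) he
  have h2 : ∀ j : ℕ, ((2 : ℝ) ^ j) ^ (q / p - 1) * (((2 : ℝ) ^ j) ^ α * ((2 : ℝ) ^ j) ^ (q * η')) ≤
      ((2 : ℝ) ^ j) ^ (q * s) := by
    intro j
    rw [← Real.rpow_add (by positivity), ← Real.rpow_add (by positivity)]
    exact hmono j _ (by linarith)
  by_cases hκ : q * θ' = α
  · -- the critical exponent
    have hqc : q = qc (n + 2) α := by
      have hpos : 0 < m * (1 / 2 - 1 / q) := by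
        by_contra hcon
        rw [hθ, max_eq_right (not_lt.1 hcon)] at hκ
        linarith
      rw [hθ, max_eq_left hpos.le] at hκ
      unfold qc
      rw [hdm]
      field_simp at hκ ⊢
      nlinarith
    have hlt := hs' hqc
    have hε : 0 < q * (s - (1 / p - (1 - α) / q)) := mul_pos hq0 (by linarith)
    have hexp : q / p - 1 + (α + q * (s - (1 / p - (1 - α) / q))) ≤ q * s := by
      rw [mul_sub, q0]; linarith
    obtain ⟨Cl, hCl, hlin⟩ := lin_bound hε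
    refine ⟨2 * Cl + 1, by positivity, fun j => ?_⟩
    have hgeo : geo α (q * θ') j = (j : ℝ) + 1 := by
      unfold geo
      rw [hκ]
      simp
    rw [hgeo, hκ, mul_add, mul_left_comm _ (2 : ℝ)]
    have h3 : ((2 : ℝ) ^ j) ^ (q / p - 1) * (((2 : ℝ) ^ j) ^ α * ((j : ℝ) + 1)) ≤ Cl * ((2 : ℝ) ^ j) ^ (q * s) := by
      calc _ ≤ ((2 : ℝ) ^ j) ^ (q / p - 1) * (((2 : ℝ) ^ j) ^ α * (Cl * ((2 : ℝ) ^ j) ^ (q * (s - (1 / p - (1 - α) / q))))) := by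
            apply mul_le_mul_of_nonneg_left _ (by positivity)
            exact mul_le_mul_of_nonneg_left (hlin j) (by positivity)
        _ = Cl * (((2 : ℝ) ^ j) ^ (q / p - 1) * (((2 : ℝ) ^ j) ^ α * ((2 : ℝ) ^ j) ^ (q * (s - (1 / p - (1 - α) / q))))) := by ring
        _ = Cl * ((2 : ℝ) ^ j) ^ (q / p - 1 + (α + q * (s - (1 / p - (1 - α) / q)))) := by
            rw [← Real.rpow_add (by positivity), ← Real.rpow_add (by positivity)]
        _ ≤ _ := mul_le_mul_of_nonneg_left (hmono j _ hexp) hCl.le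
    have h4 := h2 j
    linarith
  · obtain ⟨Cg, hCg, hgeo⟩ := geo_bound hκ
    refine ⟨2 * (Cg * 2) + 1, by positivity, fun j => ?_⟩
    rw [mul_add, mul_left_comm _ (2 : ℝ)]
    have h3 : ((2 : ℝ) ^ j) ^ (q / p - 1) * (((2 : ℝ) ^ j) ^ (q * θ') * geo α (q * θ') j) ≤
        (Cg * 2) * ((2 : ℝ) ^ j) ^ (q * s) := by
      calc _ ≤ ((2 : ℝ) ^ j) ^ (q / p - 1) * (Cg * (((2 : ℝ) ^ j) ^ (q * θ') + ((2 : ℝ) ^ j) ^ α)) :=
            mul_le_mul_of_nonneg_left (hgeo j) (by positivity)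
        _ = Cg * (((2 : ℝ) ^ j) ^ (q / p - 1) * ((2 : ℝ) ^ j) ^ (q * θ') +
              ((2 : ℝ) ^ j) ^ (q / p - 1) * ((2 : ℝ) ^ j) ^ α) := by ring
        _ = Cg * (((2 : ℝ) ^ j) ^ (q / p - 1 + q * θ') + ((2 : ℝ) ^ j) ^ (q / p - 1 + α)) := by
            rw [← Real.rpow_add (by positivity), ← Real.rpow_add (by positivity)]
        _ ≤ Cg * (((2 : ℝ) ^ j) ^ (q * s) + ((2 : ℝ) ^ j) ^ (q * s)) := by
            apply mul_le_mul_of_nonneg_left _ hCg.le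
            exact add_le_add (hmono j _ (by linarith)) (hmono j _ (by linarith))
        _ = _ := by ring
    have h4 := h2 j
    linarith

/-- The radial estimate for finite sets of times. -/
theorem radial_finite {n : ℕ} {β : ℝ → ℂ} (hβ : ContDiff ℝ ∞ β) (hs : tsupport β ⊆ Ioo (1 / 2) 2)
    {α : ℝ} (hα : 0 < α) {E : Set ℝ} (hE : E ⊆ Icc 1 2) (hA : BddAssouad α E)
    {p q s : ℝ} (hp : 1 ≤ p) (hpq : p ≤ q)
    (h1 : sRad (n + 2) α p q ≤ s) (h2 : q = qc (n + 2) α → 1 / p - (1 - α) / q < s) :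
    ∃ C : ℝ, 0 < C ∧ ∀ (j : ℕ) (T : Finset ℝ), 1 ≤ j → (∀ t ∈ T, t ∈ E) →
      (∀ t ∈ T, ∀ t' ∈ T, t ≠ t' → 1 / 2 ^ j ≤ |t - t'|) → ∀ f₀ : ℝ → ℂ, Measurable f₀ →
      ∑ t ∈ T, ∫⁻ x : V (n + 2), ‖wave β j t (fun y : V (n + 2) => f₀ ‖y‖) x‖ₑ ^ q ≤
        ENNReal.ofReal (C * ((2 : ℝ) ^ j) ^ (q * s)) * (∫⁻ x : V (n + 2), ‖f₀ ‖x‖‖ₑ ^ p) ^ (q / p) := by
  obtain ⟨C1, hC1, hmain⟩ := main_ineq (n := n) hβ hs hα hE hA hp hpq rfl rfl
  obtain ⟨C2, hC2, hnum⟩ := num_bound n hα hp hpq rfl rfl h1 h2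
  refine ⟨C1 * C2, by positivity, fun j T hj hT hsep f₀ hf => ?_⟩
  refine (hmain j T hj hT hsep f₀ hf).trans ?_
  apply mul_le_mul' _ le_rfl
  apply ENNReal.ofReal_le_ofReal
  rw [mul_assoc C1 C2]
  exact mul_le_mul_of_nonneg_left (hnum j) hC1.le

end Pool.Agent.Lib.MPc0f824
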