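import Pool.Agent.Lib.MP_c0f824_an.OscJ

open MeasureTheory Set Metric Measure
open scoped ENNReal RealInnerProductSpace ContDiff

namespace Pool.Agent.Lib.MPc0f824

/-- The convolution kernel of the frequency localised half wave propagator. -/
noncomputable def kern (d : ℕ) (β : ℝ → ℂ) (j : ℕ) (t : ℝ) (x : V d) : ℂ :=
  (((2 * Real.pi) ^ d : ℝ) : ℂ)⁻¹ *
    ∫ ξ : V d, Complex.exp (Complex.I * ((⟪x, ξ⟫ + t * ‖ξ‖ : ℝ) : ℂ)) * β (‖ξ‖ / 2 ^ j)

section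
variable {n : ℕ} {β : ℝ → ℂ} (hβ : ContDiff ℝ ∞ β) (hs : tsupport β ⊆ Ioo (1 / 2) 2)
include hβ hs

theorem beta_integrable (d j : ℕ) : Integrable (fun ξ : V d => β (‖ξ‖ / 2 ^ j)) := by
  have hc : Continuous (fun ξ : V d => β (‖ξ‖ / 2 ^ j)) :=
    hβ.continuous.comp (continuous_norm.div_const _)
  refine hc.integrable_of_hasCompactSupport ?_
  refine HasCompactSupport.of_support_subset_isCompact (isCompact_closedBall (0 : V d) (2 * 2 ^ j)) ?_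
  intro ξ hξ
  have h1 : ‖ξ‖ / 2 ^ j ∈ tsupport β := subset_tsupport _ hξ
  have h2 := (hs h1).2
  rw [div_lt_iff₀ (by positivity)] at h2
  rw [mem_closedBall_zero_iff]
  exact h2.le

theorem kern_sphere_eq (j : ℕ) (t s : ℝ) (hs0 : 0 < s) (x : V (n + 2)) :
    ∫ om : Sp (n + 2), kern (n + 2) β j t (x - s • (om : V (n + 2))) ∂(sg (n + 2))
      = (((2 * Real.pi) ^ (n + 2) : ℝ) : ℂ)⁻¹ * (((2 : ℝ) ^ j) ^ (n + 2) : ℝ) *
        ∫ ρ : ℝ, (((ρ ^ (n + 1) : ℝ) : ℂ) * β ρ) * (Complex.exp (Complex.I * (((2 ^ j * t : ℝ) : ℂ) * ρ)) *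
          (J n ((2 ^ j * ‖x‖) * ρ) * J n ((2 ^ j * s) * ρ))) := by
  have hc : Continuous (fun ξ : V (n + 2) => β (‖ξ‖ / 2 ^ j)) :=
    hβ.continuous.comp (continuous_norm.div_const _)
  have hJc : Continuous (J n) := continuous_iff_continuousAt.2 fun u => (J_deriv n u).continuousAt
  unfold kern
  rw [integral_const_mul, mul_assoc]
  congr 1
  -- swap
  have hint : Integrable (Function.uncurry (fun (om : Sp (n + 2)) (ξ : V (n + 2)) =>
      Complex.exp (Complex.I * ((⟪x - s • (om : V (n + 2)), ξ⟫ + t * ‖ξ‖ : ℝ) : ℂ)) * β (‖ξ‖ / 2 ^ j)))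
      ((sg (n + 2)).prod volume) := by
    have h1 : Integrable (fun z : Sp (n + 2) × V (n + 2) => (1 : ℂ) * β (‖z.2‖ / 2 ^ j))
        ((sg (n + 2)).prod volume) :=
      (integrable_const (1 : ℂ)).mul_prod (beta_integrable hβ hs (n + 2) j)
    refine h1.mono ?_ ?_
    · apply Continuous.aestronglyMeasurable
      have h2 : Continuous (fun z : Sp (n + 2) × V (n + 2) => β (‖z.2‖ / 2 ^ j)) :=
        hc.comp continuous_snd
      have h3 : Continuous (fun z : Sp (n + 2) × V (n + 2) =>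
          Complex.exp (Complex.I * ((⟪x - s • (z.1 : V (n + 2)), z.2⟫ + t * ‖z.2‖ : ℝ) : ℂ))) := by
        fun_prop
      exact h3.mul h2
    · refine Filter.Eventually.of_forall fun z => ?_
      simp only [Function.uncurry, norm_mul, norm_one]
      rw [expI_norm]
  rw [integral_integral_swap hint]
  have h2 : ∀ ξ : V (n + 2), ∫ om : Sp (n + 2),
      Complex.exp (Complex.I * ((⟪x - s • (om : V (n + 2)), ξ⟫ + t * ‖ξ‖ : ℝ) : ℂ)) * β (‖ξ‖ / 2 ^ j) ∂(sg (n + 2))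
      = β (‖ξ‖ / 2 ^ j) * Complex.exp (Complex.I * ((⟪x, ξ⟫ + t * ‖ξ‖ : ℝ) : ℂ)) * J n (s * ‖ξ‖) := by
    intro ξ
    have h3 : J n (s * ‖ξ‖) = Q (fun _ : Sp (n + 2) => 1) (-(s • ξ)) := by
      rw [Q_one, norm_neg, norm_smul, Real.norm_eq_abs, abs_of_pos hs0]
    rw [h3]
    unfold Q
    rw [← integral_const_mul]
    refine integral_congr_ae (Filter.Eventually.of_forall fun om => ?_)
    simp only
    rw [one_mul, mul_comm (Complex.exp _) (β _), mul_assoc (β _)]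
    congr 1
    rw [← Complex.exp_add]
    congr 1
    rw [← mul_add, ← Complex.ofReal_add]
    congr 2
    rw [inner_sub_left, inner_neg_left, real_inner_smul_left, real_inner_smul_left,
      real_inner_comm ξ (om : V (n + 2))]
    ring
  rw [integral_congr_ae (Filter.Eventually.of_forall h2)]
  -- polar coordinates
  have hGi : Integrable (fun ξ : V (n + 2) => β (‖ξ‖ / 2 ^ j) *
      Complex.exp (Complex.I * ((⟪x, ξ⟫ + t * ‖ξ‖ : ℝ) : ℂ)) * J n (s * ‖ξ‖)) := by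
    refine Integrable.mono' ((beta_integrable hβ hs (n + 2) j).norm.mul_const ((sg (n + 2)).real univ)) ?_ ?_
    · apply Continuous.aestronglyMeasurable
      have h3 : Continuous (fun ξ : V (n + 2) =>
          Complex.exp (Complex.I * ((⟪x, ξ⟫ + t * ‖ξ‖ : ℝ) : ℂ))) := by
        fun_prop
      exact (hc.mul h3).mul (hJc.comp (continuous_const.mul continuous_norm))
    · refine Filter.Eventually.of_forall fun ξ => ?_
      rw [norm_mul, norm_mul, expI_norm, mul_one]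
      exact mul_le_mul_of_nonneg_left (J_norm_le n _) (norm_nonneg _)
  rw [polar_integral (by omega) hGi]
  have h4 : ∀ ρ ∈ Ioi (0 : ℝ), (ρ ^ (n + 2 - 1) • ∫ om : Sp (n + 2), β (‖ρ • (om : V (n + 2))‖ / 2 ^ j) *
      Complex.exp (Complex.I * ((⟪x, ρ • (om : V (n + 2))⟫ + t * ‖ρ • (om : V (n + 2))‖ : ℝ) : ℂ)) *
        J n (s * ‖ρ • (om : V (n + 2))‖) ∂(sg (n + 2)))
      = ((ρ ^ (n + 1) : ℝ) : ℂ) * (β (ρ / 2 ^ j) * (Complex.exp (Complex.I * ((t : ℂ) * ρ)) *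
          (J n (‖x‖ * ρ) * J n (s * ρ)))) := by
    intro ρ hρ
    have hρ0 : (0 : ℝ) < ρ := hρ
    have hn : ∀ om : Sp (n + 2), ‖ρ • (om : V (n + 2))‖ = ρ := fun om => by
      rw [norm_smul, norm_eq_of_mem_sphere om, mul_one, Real.norm_eq_abs, abs_of_pos hρ0]
    have hnat : n + 2 - 1 = n + 1 := by omega
    rw [hnat, Complex.real_smul]
    congr 1
    have h5 : J n (‖x‖ * ρ) = Q (fun _ : Sp (n + 2) => 1) (ρ • x) := by
      rw [Q_one, norm_smul, Real.norm_eq_abs, abs_of_pos hρ0, mul_comm]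
    rw [h5]
    unfold Q
    have h6 : ∀ om : Sp (n + 2), β (‖ρ • (om : V (n + 2))‖ / 2 ^ j) *
      Complex.exp (Complex.I * ((⟪x, ρ • (om : V (n + 2))⟫ + t * ‖ρ • (om : V (n + 2))‖ : ℝ) : ℂ)) *
        J n (s * ‖ρ • (om : V (n + 2))‖) = (β (ρ / 2 ^ j) * Complex.exp (Complex.I * ((t : ℂ) * ρ)) * J n (s * ρ)) *
        (1 * Complex.exp (Complex.I * ((⟪ρ • x, (om : V (n + 2))⟫ : ℝ) : ℂ))) := by
      intro om
      rw [hn om, one_mul]
      have : Complex.exp (Complex.I * ((⟪x, ρ • (om : V (n + 2))⟫ + t * ρ : ℝ) : ℂ))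
          = Complex.exp (Complex.I * ((t : ℂ) * ρ)) *
            Complex.exp (Complex.I * ((⟪ρ • x, (om : V (n + 2))⟫ : ℝ) : ℂ)) := by
        rw [← Complex.exp_add]
        congr 1
        rw [real_inner_smul_left, real_inner_smul_right]
        push_cast
        ring
      rw [this]
      ring
    rw [integral_congr_ae (Filter.Eventually.of_forall h6), integral_const_mul]
    ring
  rw [setIntegral_congr_fun measurableSet_Ioi h4]
  -- scaling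
  have hlam : (0 : ℝ) < 2 ^ j := by positivity
  have h7 := integral_comp_mul_left_Ioi (fun ρ : ℝ => ((ρ ^ (n + 1) : ℝ) : ℂ) * (β (ρ / 2 ^ j) *
    (Complex.exp (Complex.I * ((t : ℂ) * ρ)) * (J n (‖x‖ * ρ) * J n (s * ρ))))) 0 hlam
  rw [mul_zero] at h7
  have h8 : ∫ ρ in Ioi (0 : ℝ), ((ρ ^ (n + 1) : ℝ) : ℂ) * (β (ρ / 2 ^ j) *
    (Complex.exp (Complex.I * ((t : ℂ) * ρ)) * (J n (‖x‖ * ρ) * J n (s * ρ))))
      = ((2 ^ j : ℝ)) • ∫ ρ in Ioi (0 : ℝ), (fun ρ : ℝ => ((ρ ^ (n + 1) : ℝ) : ℂ) * (β (ρ / 2 ^ j) *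
    (Complex.exp (Complex.I * ((t : ℂ) * ρ)) * (J n (‖x‖ * ρ) * J n (s * ρ))))) (2 ^ j * ρ) := by
    rw [h7, smul_smul, mul_inv_cancel₀ hlam.ne', one_smul]
  rw [h8]
  have h9 : ∫ ρ in Ioi (0 : ℝ), (fun ρ : ℝ => ((ρ ^ (n + 1) : ℝ) : ℂ) * (β (ρ / 2 ^ j) *
    (Complex.exp (Complex.I * ((t : ℂ) * ρ)) * (J n (‖x‖ * ρ) * J n (s * ρ))))) (2 ^ j * ρ)
      = ∫ ρ : ℝ, (((2 ^ j) ^ (n + 1) : ℝ) : ℂ) * ((((ρ ^ (n + 1) : ℝ) : ℂ) * β ρ) * (Complex.exp (Complex.I * (((2 ^ j * t : ℝ) : ℂ) * ρ)) *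
          (J n ((2 ^ j * ‖x‖) * ρ) * J n ((2 ^ j * s) * ρ)))) := by
    rw [← integral_indicator measurableSet_Ioi]
    refine integral_congr_ae (Filter.Eventually.of_forall fun ρ => ?_)
    simp only
    by_cases hρ : ρ ∈ Ioi (0 : ℝ)
    · rw [indicator_of_mem hρ]
      have e1 : 2 ^ j * ρ / 2 ^ j = ρ := by field_simp
      have e2 : ‖x‖ * (2 ^ j * ρ) = 2 ^ j * ‖x‖ * ρ := by ring
      have e3 : s * (2 ^ j * ρ) = 2 ^ j * s * ρ := by ring
      rw [e1, e2, e3, mul_pow]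
      push_cast
      ring_nf
    · rw [indicator_of_notMem hρ]
      have : β ρ = 0 := by
        apply image_eq_zero_of_notMem_tsupport
        intro h
        exact hρ (lt_trans (by norm_num) (hs h).1)
      rw [this]
      ring
  rw [h9, integral_const_mul, Complex.real_smul]
  push_cast
  ring

theorem kern_sphere_bound (n N : ℕ) : ∃ C : ℝ, 0 < C ∧ ∀ (j : ℕ) (t s : ℝ) (x : V (n + 2)),
    0 < s → 0 < ‖x‖ →
    ‖∫ om : Sp (n + 2), kern (n + 2) β j t (x - s • (om : V (n + 2))) ∂(sg (n + 2))‖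
      ≤ C * ((2 : ℝ) ^ j) ^ (n + 2) * ((1 + 2 ^ j * ‖x‖) ^ (-aa n) * (1 + 2 ^ j * s) ^ (-aa n)) *
        ((1 + dst (2 ^ j * t) (2 ^ j * ‖x‖) (2 ^ j * s)) ^ N)⁻¹ := by
  have hχ : ContDiff ℝ ∞ (fun ρ : ℝ => (((ρ ^ (n + 1) : ℝ) : ℂ) * β ρ)) := by
    apply ContDiff.mul _ hβ
    exact Complex.ofRealCLM.contDiff.comp (contDiff_id.pow (n + 1))
  have hχs : tsupport (fun ρ : ℝ => (((ρ ^ (n + 1) : ℝ) : ℂ) * β ρ)) ⊆ Ioo (1 / 2) 2 :=
    (tsupport_mul_subset_right).trans hs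
  obtain ⟨C, hC, h⟩ := osc_J n N hχ hχs
  refine ⟨C, hC, fun j t s x hs0 hx => ?_⟩
  rw [kern_sphere_eq hβ hs j t s hs0 x, norm_mul, norm_mul]
  have h1 := h (2 ^ j * t) (2 ^ j * ‖x‖) (2 ^ j * s) (by positivity) (by positivity)
  have h2 : ‖(((2 * Real.pi) ^ (n + 2) : ℝ) : ℂ)⁻¹‖ ≤ 1 := by
    rw [norm_inv, Complex.norm_real, Real.norm_eq_abs, abs_of_pos (by positivity)]
    apply inv_le_one_of_one_le₀
    apply one_le_pow₀
    nlinarith [Real.pi_gt_three]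
  have h3 : ‖((((2 : ℝ) ^ j) ^ (n + 2) : ℝ) : ℂ)‖ = ((2 : ℝ) ^ j) ^ (n + 2) := by
    rw [Complex.norm_real, Real.norm_eq_abs, abs_of_pos (by positivity)]
  rw [h3]
  calc _ ≤ 1 * ((2 : ℝ) ^ j) ^ (n + 2) * (C * ((1 + 2 ^ j * ‖x‖) ^ (-aa n) * (1 + 2 ^ j * s) ^ (-aa n)) *
        ((1 + dst (2 ^ j * t) (2 ^ j * ‖x‖) (2 ^ j * s)) ^ N)⁻¹) := by
        apply mul_le_mul _ h1 (norm_nonneg _) (by positivity)
        exact mul_le_mul_of_nonneg_right h2 (by positivity)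
    _ = _ := by ring
end

end Pool.Agent.Lib.MPc0f824
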