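import Pool.Agent.Lib.MP_c0f824_an.Red

section
open MeasureTheory Set Metric Measure
open scoped ENNReal RealInnerProductSpace ContDiff

namespace Pool.Agent.Lib.MPc0f824

theorem jensen {μ : Measure ℝ} {k F : ℝ → ℝ≥0∞} (hk : Measurable k) (hF : Measurable F) {p : ℝ}
    (hp : 1 ≤ p) : (∫⁻ s, k s * F s ∂μ) ^ p ≤ (∫⁻ s, k s ∂μ) ^ (p - 1) * ∫⁻ s, k s * F s ^ p ∂μ := by
  rcases eq_or_lt_of_le hp with h | h
  · rw [← h]; simp
  · have hp0 : 0 < p := by linarith
    have hconj : (p / (p - 1)).HolderConjugate p := (Real.HolderConjugate.conjExponent h).symm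
    have h1 := ENNReal.lintegral_mul_le_Lp_mul_Lq μ hconj
      (f := fun s => k s ^ ((p - 1) / p)) (g := fun s => k s ^ (1 / p) * F s)
      (hk.pow_const _).aemeasurable ((hk.pow_const _).mul hF).aemeasurable
    have e1 : ∀ s, ((fun s => k s ^ ((p - 1) / p)) * (fun s => k s ^ (1 / p) * F s)) s = k s * F s := by
      intro s
      simp only [Pi.mul_apply]
      rw [← mul_assoc, ← ENNReal.rpow_add_of_nonneg _ _ (div_nonneg (by linarith) hp0.le) (by positivity)]
      have : (p - 1) / p + 1 / p = 1 := by field_simp; ring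
      rw [this, ENNReal.rpow_one]
    have e2 : ∀ s, (k s ^ ((p - 1) / p)) ^ (p / (p - 1)) = k s := by
      intro s
      rw [← ENNReal.rpow_mul]
      have hne : p - 1 ≠ 0 := by linarith
      have : (p - 1) / p * (p / (p - 1)) = 1 := by field_simp
      rw [this, ENNReal.rpow_one]
    have e3 : ∀ s, (k s ^ (1 / p) * F s) ^ p = k s * F s ^ p := by
      intro s
      rw [ENNReal.mul_rpow_of_nonneg _ _ hp0.le, ← ENNReal.rpow_mul]
      have : 1 / p * p = 1 := by field_simp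
      rw [this, ENNReal.rpow_one]
    simp only [e1, e2, e3] at h1
    have h2 := ENNReal.rpow_le_rpow h1 hp0.le
    rw [ENNReal.mul_rpow_of_nonneg _ _ hp0.le, ← ENNReal.rpow_mul, ← ENNReal.rpow_mul] at h2
    have hne : p - 1 ≠ 0 := by linarith
    have e4 : 1 / (p / (p - 1)) * p = p - 1 := by field_simp
    have e5 : 1 / p * p = 1 := by field_simp
    rw [e4, e5, ENNReal.rpow_one] at h2
    exact h2

theorem jensen2 {μ : Measure ℝ} {k F : ℝ → ℝ≥0∞} (hk : Measurable k) (hF : Measurable F) {p q : ℝ}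
    (hp : 1 ≤ p) (hpq : p ≤ q) {K L : ℝ≥0∞} (hK : ∫⁻ s, k s ∂μ ≤ K) (hL : ∀ s, k s ≤ L) :
    (∫⁻ s, k s * F s ∂μ) ^ q ≤ K ^ (q - q / p) * (L * ∫⁻ s, F s ^ p ∂μ) ^ (q / p - 1) *
      ∫⁻ s, k s * F s ^ p ∂μ := by
  have hp0 : 0 < p := by linarith
  have hq0 : 0 < q := by linarith
  have hqp : 1 ≤ q / p := by rw [one_le_div hp0]; exact hpq
  have h1 := ENNReal.rpow_le_rpow (jensen (μ := μ) hk hF hp) (z := q / p) (by positivity)
  rw [← ENNReal.rpow_mul, ENNReal.mul_rpow_of_nonneg _ _ (by positivity), ← ENNReal.rpow_mul] at h1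
  have e1 : p * (q / p) = q := by field_simp
  have e2 : (p - 1) * (q / p) = q - q / p := by field_simp
  rw [e1, e2] at h1
  refine h1.trans ?_
  have hqqp : 0 ≤ q - q / p := by
    rw [sub_nonneg]; exact div_le_self hq0.le hp
  have h2 : (∫⁻ s, k s * F s ^ p ∂μ) ^ (q / p) =
      (∫⁻ s, k s * F s ^ p ∂μ) ^ (q / p - 1) * (∫⁻ s, k s * F s ^ p ∂μ) := by
    conv_rhs => rw [← ENNReal.rpow_one (∫⁻ s, k s * F s ^ p ∂μ)]
    rw [ENNReal.rpow_one]
    conv_rhs => rw [← ENNReal.rpow_one (∫⁻ s, k s * F s ^ p ∂μ), ENNReal.rpow_one]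
    have : q / p = (q / p - 1) + 1 := by ring
    conv_lhs => rw [this, ENNReal.rpow_add_of_nonneg _ _ (by linarith) zero_le_one, ENNReal.rpow_one]
  rw [h2, ← mul_assoc]
  have hexp : 0 ≤ q / p - 1 := by linarith
  have h3 : ∫⁻ s, k s * F s ^ p ∂μ ≤ L * ∫⁻ s, F s ^ p ∂μ := by
    rw [← lintegral_const_mul _ (hF.pow_const _)]
    refine lintegral_mono fun s => ?_
    exact mul_le_mul' (hL s) le_rfl
  exact mul_le_mul' (mul_le_mul' (ENNReal.rpow_le_rpow hK hqqp) (ENNReal.rpow_le_rpow h3 hexp)) le_rfl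

/-- The pointwise bound behind the sum over the times. -/
theorem weight_bound {lam θ' η' q : ℝ} (hlam : 1 ≤ lam) (hθ : 0 ≤ θ') (hq : 1 ≤ q) {M : ℕ}
    (hM : q * θ' + 2 ≤ M) {t r s : ℝ} (hr : 0 < r) :
    AA lam θ' η' r ^ q * kk lam M t r s ≤
      2 ^ q * (lam ^ (q * θ') * ((1 + lam * |t - s|) ^ (-(q * θ')) + (1 + lam * |t - (-s)|) ^ (-(q * θ')))
        + lam ^ (q * η')) * kk lam 2 t r s := by
  have hl : 0 < lam := by linarith
  have hq0 : 0 < q := by linarith
  set κ : ℝ := q * θ' with hκ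
  have hκ0 : 0 ≤ κ := by positivity
  set D := dst (lam * t) (lam * r) (lam * s) with hD
  have hD0 : 0 ≤ D := dst_nonneg _ _ _
  have h1D : 1 ≤ 1 + D := by linarith
  set X : ℝ := (1 + lam * r) / lam with hX
  have hX0 : 0 < X := by positivity
  -- power of the sum
  have e1 : AA lam θ' η' r ^ q ≤ 2 ^ q * (X ^ (-κ) + lam ^ (q * η')) := by
    have ha : 0 < X ^ (-θ') := Real.rpow_pos_of_pos hX0 _
    have hb : 0 < lam ^ η' := Real.rpow_pos_of_pos hl _
    have e2 : (X ^ (-θ')) ^ q = X ^ (-κ) := by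
      rw [← Real.rpow_mul hX0.le, hκ]; congr 1; ring
    have e3 : (lam ^ η') ^ q = lam ^ (q * η') := by
      rw [← Real.rpow_mul hl.le]; congr 1; ring
    have hx : 0 ≤ X ^ (-κ) := by positivity
    have hy : 0 ≤ lam ^ (q * η') := by positivity
    unfold AA
    rw [← hX]
    rcases le_total (X ^ (-θ')) (lam ^ η') with h | h
    · calc (X ^ (-θ') + lam ^ η') ^ q ≤ (2 * lam ^ η') ^ q :=
            Real.rpow_le_rpow (by positivity) (by linarith) hq0.le
        _ = 2 ^ q * lam ^ (q * η') := by rw [Real.mul_rpow (by norm_num) hb.le, e3]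
        _ ≤ _ := mul_le_mul_of_nonneg_left (by linarith) (by positivity)
    · calc (X ^ (-θ') + lam ^ η') ^ q ≤ (2 * X ^ (-θ')) ^ q :=
            Real.rpow_le_rpow (by positivity) (by linarith) hq0.le
        _ = 2 ^ q * X ^ (-κ) := by rw [Real.mul_rpow (by norm_num) ha.le, e2]
        _ ≤ _ := mul_le_mul_of_nonneg_left (by linarith) (by positivity)
  -- Peetre
  have hmin : (1 + lam * |t - s|) ≤ (1 + lam * r) * (1 + D) ∨ (1 + lam * |t - (-s)|) ≤ (1 + lam * r) * (1 + D) := by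
    have h : dst (lam * t) (lam * r) (lam * s) = |lam * t + lam * r + lam * s| ∨
        dst (lam * t) (lam * r) (lam * s) = |lam * t + lam * r - lam * s| ∨
        dst (lam * t) (lam * r) (lam * s) = |lam * t - lam * r + lam * s| ∨
        dst (lam * t) (lam * r) (lam * s) = |lam * t - lam * r - lam * s| := by
      unfold dst
      rcases min_choice (min |lam * t + lam * r + lam * s| |lam * t + lam * r - lam * s|)
        (min |lam * t - lam * r + lam * s| |lam * t - lam * r - lam * s|) with h | h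
      · rw [h]
        rcases min_choice |lam * t + lam * r + lam * s| |lam * t + lam * r - lam * s| with h' | h' <;> rw [h'] <;> simp
      · rw [h]
        rcases min_choice |lam * t - lam * r + lam * s| |lam * t - lam * r - lam * s| with h' | h' <;> rw [h'] <;> simp
    rw [← hD] at h
    have m1 : lam * |t - s| = |lam * t - lam * s| := by
      rw [← mul_sub, abs_mul, abs_of_pos hl]
    have m2 : lam * |t - (-s)| = |lam * t + lam * s| := by
      rw [sub_neg_eq_add, ← mul_add, abs_mul, abs_of_pos hl]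
    have hlr : 0 < lam * r := by positivity
    have hprod : 1 + lam * r + D ≤ (1 + lam * r) * (1 + D) := by nlinarith
    rcases h with h | h | h | h
    · right
      rw [m2]
      have : |lam * t + lam * s| ≤ |lam * t + lam * r + lam * s| + |lam * r| := by
        have := abs_sub (lam * t + lam * r + lam * s) (lam * r)
        have e : lam * t + lam * r + lam * s - lam * r = lam * t + lam * s := by ring
        rw [e] at this
        exact this
      rw [abs_of_pos hlr] at this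
      linarith
    · left
      rw [m1]
      have : |lam * t - lam * s| ≤ |lam * t + lam * r - lam * s| + |lam * r| := by
        have := abs_sub (lam * t + lam * r - lam * s) (lam * r)
        have e : lam * t + lam * r - lam * s - lam * r = lam * t - lam * s := by ring
        rw [e] at this
        exact this
      rw [abs_of_pos hlr] at this
      linarith
    · right
      rw [m2]
      have : |lam * t + lam * s| ≤ |lam * t - lam * r + lam * s| + |lam * r| := by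
        have := abs_add_le (lam * t - lam * r + lam * s) (lam * r)
        have e : lam * t - lam * r + lam * s + lam * r = lam * t + lam * s := by ring
        rw [e] at this
        exact this
      rw [abs_of_pos hlr] at this
      linarith
    · left
      rw [m1]
      have : |lam * t - lam * s| ≤ |lam * t - lam * r - lam * s| + |lam * r| := by
        have := abs_add_le (lam * t - lam * r - lam * s) (lam * r)
        have e : lam * t - lam * r - lam * s + lam * r = lam * t - lam * s := by ring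
        rw [e] at this
        exact this
      rw [abs_of_pos hlr] at this
      linarith
  have hts : 0 < 1 + lam * |t - s| := by positivity
  have hts' : 0 < 1 + lam * |t - (-s)| := by positivity
  have hP : (1 + lam * r) ^ (-κ) ≤ (1 + D) ^ κ *
      ((1 + lam * |t - s|) ^ (-κ) + (1 + lam * |t - (-s)|) ^ (-κ)) := by
    have gen : ∀ Z : ℝ, 0 < Z → Z ≤ (1 + lam * r) * (1 + D) → (1 + lam * r) ^ (-κ) ≤ (1 + D) ^ κ * Z ^ (-κ) := by
      intro Z hZ hZle
      have h1 : ((1 + lam * r) * (1 + D)) ^ (-κ) ≤ Z ^ (-κ) :=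
        Real.rpow_le_rpow_of_nonpos hZ hZle (by linarith)
      rw [Real.mul_rpow (by positivity) (by positivity)] at h1
      have h2 : (1 + D) ^ κ * (1 + D) ^ (-κ) = 1 := by
        rw [← Real.rpow_add (by positivity)]; simp
      calc (1 + lam * r) ^ (-κ) = (1 + D) ^ κ * ((1 + lam * r) ^ (-κ) * (1 + D) ^ (-κ)) := by
            rw [mul_left_comm, h2, mul_one]
        _ ≤ _ := mul_le_mul_of_nonneg_left h1 (by positivity)
    have n1 : 0 ≤ (1 + D) ^ κ * (1 + lam * |t - s|) ^ (-κ) := by positivity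
    have n2 : 0 ≤ (1 + D) ^ κ * (1 + lam * |t - (-s)|) ^ (-κ) := by positivity
    rcases hmin with h | h
    · have := gen _ hts h
      rw [mul_add]; linarith
    · have := gen _ hts' h
      rw [mul_add]; linarith
  have hXr : X ^ (-κ) = lam ^ κ * (1 + lam * r) ^ (-κ) := by
    rw [hX, Real.div_rpow (by positivity) hl.le, Real.rpow_neg hl.le κ]
    field_simp
  -- the two decay factors
  have hd1 : (1 + D) ^ κ * ((1 + D) ^ M)⁻¹ ≤ ((1 + D) ^ 2)⁻¹ := by
    rw [← Real.rpow_natCast (1 + D) M, ← Real.rpow_natCast (1 + D) 2, ← Real.rpow_neg (by linarith),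
      ← Real.rpow_neg (by linarith), ← Real.rpow_add (by linarith)]
    apply Real.rpow_le_rpow_of_exponent_le h1D
    push_cast
    linarith
  have hd2 : ((1 + D) ^ M)⁻¹ ≤ ((1 + D) ^ 2)⁻¹ := by
    have h2M : 2 ≤ M := by
      have : (2 : ℝ) ≤ M := by linarith
      exact_mod_cast this
    apply inv_anti₀ (by positivity)
    exact pow_le_pow_right₀ h1D h2M
  have hS0 : 0 ≤ (1 + lam * |t - s|) ^ (-κ) + (1 + lam * |t - (-s)|) ^ (-κ) := by positivity
  unfold kk
  rw [← hD]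
  have hDM : 0 < ((1 + D) ^ M)⁻¹ := by positivity
  calc AA lam θ' η' r ^ q * (lam * ((1 + D) ^ M)⁻¹)
      ≤ (2 ^ q * (X ^ (-κ) + lam ^ (q * η'))) * (lam * ((1 + D) ^ M)⁻¹) :=
        mul_le_mul_of_nonneg_right e1 (by positivity)
    _ = 2 ^ q * lam * (lam ^ κ * ((1 + lam * r) ^ (-κ) * ((1 + D) ^ M)⁻¹) + lam ^ (q * η') * ((1 + D) ^ M)⁻¹) := by
        rw [hXr]; ring
    _ ≤ 2 ^ q * lam * (lam ^ κ * (((1 + lam * |t - s|) ^ (-κ) + (1 + lam * |t - (-s)|) ^ (-κ)) * ((1 + D) ^ 2)⁻¹)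
        + lam ^ (q * η') * ((1 + D) ^ 2)⁻¹) := by
        apply mul_le_mul_of_nonneg_left _ (by positivity)
        apply add_le_add
        · apply mul_le_mul_of_nonneg_left _ (by positivity)
          calc (1 + lam * r) ^ (-κ) * ((1 + D) ^ M)⁻¹
              ≤ ((1 + D) ^ κ * ((1 + lam * |t - s|) ^ (-κ) + (1 + lam * |t - (-s)|) ^ (-κ))) * ((1 + D) ^ M)⁻¹ :=
                mul_le_mul_of_nonneg_right hP hDM.le
            _ = ((1 + lam * |t - s|) ^ (-κ) + (1 + lam * |t - (-s)|) ^ (-κ)) * ((1 + D) ^ κ * ((1 + D) ^ M)⁻¹) := by ring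
            _ ≤ _ := mul_le_mul_of_nonneg_left hd1 hS0
        · exact mul_le_mul_of_nonneg_left hd2 (by positivity)
    _ = _ := by ring

end Pool.Agent.Lib.MPc0f824
end

section
open MeasureTheory Set Metric Measure
open scoped ENNReal RealInnerProductSpace ContDiff

namespace Pool.Agent.Lib.MPc0f824

/-- The radial bound for the wave. -/
noncomputable def Psi (n N : ℕ) (C lam t : ℝ) (f₀ : ℝ → ℂ) (r : ℝ) : ℝ≥0∞ :=
  ∫⁻ s in Ioi (0 : ℝ),
      ENNReal.ofReal (C * lam ^ (n + 2) * ((1 + lam * r) ^ (-aa n) * (1 + lam * s) ^ (-aa n)) *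
        ((1 + dst (lam * t) (lam * r) (lam * s)) ^ N)⁻¹ * s ^ (n + 1)) * ‖f₀ s‖ₑ

/-- The weighted profile. -/
noncomputable def FF (n : ℕ) (p : ℝ) (f₀ : ℝ → ℂ) (s : ℝ) : ℝ≥0∞ :=
  ENNReal.ofReal (s ^ (((n : ℝ) + 1) / p)) * ‖f₀ s‖ₑ

theorem FF_meas (n : ℕ) (p : ℝ) {f₀ : ℝ → ℂ} (hf : Measurable f₀) : Measurable (FF n p f₀) := by
  unfold FF
  exact (ENNReal.measurable_ofReal.comp (measurable_id.pow_const _)).mul hf.enorm

theorem Psi_meas (n N : ℕ) (C lam t : ℝ) {f₀ : ℝ → ℂ} (hf : Measurable f₀) :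
    Measurable (Psi n N C lam t f₀) := by
  unfold Psi
  have h : Measurable (fun z : ℝ × ℝ =>
      ENNReal.ofReal (C * lam ^ (n + 2) * ((1 + lam * z.1) ^ (-aa n) * (1 + lam * z.2) ^ (-aa n)) *
        ((1 + dst (lam * t) (lam * z.1) (lam * z.2)) ^ N)⁻¹ * z.2 ^ (n + 1)) * ‖f₀ z.2‖ₑ) := by
    have h1 : Measurable (fun z : ℝ × ℝ => dst (lam * t) (lam * z.1) (lam * z.2)) := by
      have : Continuous (fun z : ℝ × ℝ => dst (lam * t) (lam * z.1) (lam * z.2)) := by
        unfold dst; fun_prop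
      exact this.measurable
    have ha : Measurable (fun z : ℝ × ℝ =>
      ENNReal.ofReal (C * lam ^ (n + 2) * ((1 + lam * z.1) ^ (-aa n) * (1 + lam * z.2) ^ (-aa n)) *
        ((1 + dst (lam * t) (lam * z.1) (lam * z.2)) ^ N)⁻¹ * z.2 ^ (n + 1))) := by
      apply ENNReal.measurable_ofReal.comp
      fun_prop
    exact ha.mul (hf.comp measurable_snd).enorm
  exact h.lintegral_prod_right'

theorem Psi_le (n M : ℕ) {C p q lam t r : ℝ} (hC : 0 < C) (hp : 1 ≤ p) (hpq : p ≤ q) (hlam : 1 ≤ lam)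
    (ht : t ∈ Icc (1 : ℝ) 2) (hr : 0 < r) (f₀ : ℝ → ℂ) :
    ENNReal.ofReal (r ^ (n + 1)) * Psi n (M + (n + 1)) C lam t f₀ r ^ q ≤
      ENNReal.ofReal ((C * 3 ^ ((n : ℝ) + 1)) ^ q * AA lam (max (((n : ℝ) + 1) * (1 / 2 - 1 / q)) 0)
          (max (((n : ℝ) + 1) * (1 / p - 1 / 2)) 0) r ^ q) *
        (∫⁻ s in Ioi (0 : ℝ), ENNReal.ofReal (kk lam M t r s) * FF n p f₀ s) ^ q := by
  have hl : 0 < lam := by linarith
  have hp0 : 0 < p := by linarith
  have hq0 : 0 < q := by linarith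
  set A : ℝ := AA lam (max (((n : ℝ) + 1) * (1 / 2 - 1 / q)) 0)
          (max (((n : ℝ) + 1) * (1 / p - 1 / 2)) 0) r with hA
  have hA0 : 0 < A := AA_pos hl hr.le
  have h3 : (0 : ℝ) < 3 ^ ((n : ℝ) + 1) := by positivity
  have e1 : ENNReal.ofReal (r ^ (n + 1)) = ENNReal.ofReal (r ^ (((n : ℝ) + 1) / q)) ^ q := by
    rw [ENNReal.ofReal_rpow_of_nonneg (by positivity) hq0.le, ← Real.rpow_mul hr.le,
      div_mul_cancel₀ _ hq0.ne', ← Real.rpow_natCast]
    push_cast
    rfl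
  rw [e1, ← ENNReal.mul_rpow_of_nonneg _ _ hq0.le]
  have e2 : ENNReal.ofReal ((C * 3 ^ ((n : ℝ) + 1)) ^ q * A ^ q) = ENNReal.ofReal (C * 3 ^ ((n : ℝ) + 1) * A) ^ q := by
    rw [ENNReal.ofReal_rpow_of_nonneg (by positivity) hq0.le, Real.mul_rpow (by positivity) hA0.le]
  rw [e2, ← ENNReal.mul_rpow_of_nonneg _ _ hq0.le]
  apply ENNReal.rpow_le_rpow _ hq0.le
  unfold Psi
  rw [← lintegral_const_mul' _ _ ENNReal.ofReal_ne_top, ← lintegral_const_mul' _ _ ENNReal.ofReal_ne_top]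
  refine lintegral_mono_ae ?_
  filter_upwards [self_mem_ae_restrict measurableSet_Ioi] with s hs
  have hs0 : (0 : ℝ) < s := hs
  unfold FF
  have hkk := kk_nonneg hl M t r s
  have eR : ENNReal.ofReal (C * 3 ^ ((n : ℝ) + 1) * A) * (ENNReal.ofReal (kk lam M t r s) *
      (ENNReal.ofReal (s ^ (((n : ℝ) + 1) / p)) * ‖f₀ s‖ₑ)) =
      ENNReal.ofReal (C * 3 ^ ((n : ℝ) + 1) * A * kk lam M t r s * s ^ (((n : ℝ) + 1) / p)) * ‖f₀ s‖ₑ := by
    rw [ENNReal.ofReal_mul (p := C * 3 ^ ((n : ℝ) + 1) * A * kk lam M t r s) (by positivity),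
      ENNReal.ofReal_mul (p := C * 3 ^ ((n : ℝ) + 1) * A) (by positivity)]
    ring
  rw [eR, ← mul_assoc, ← ENNReal.ofReal_mul (by positivity)]
  apply mul_le_mul' _ le_rfl
  apply ENNReal.ofReal_le_ofReal
  have key := pointwise n (t := t) hp hpq hlam ht hr hs0
  rw [← hA] at key
  set D := dst (lam * t) (lam * r) (lam * s) with hD
  have hD0 : 0 ≤ D := dst_nonneg _ _ _
  have hsp : 0 < s ^ (((n : ℝ) + 1) / p) := by positivity
  have hcancel : s ^ (-(((n : ℝ) + 1) / p)) * s ^ (((n : ℝ) + 1) / p) = 1 := by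
    rw [← Real.rpow_add hs0]; simp
  have hDN : ((1 + D) ^ (M + (n + 1)))⁻¹ * (1 + D) ^ (n + 1) = ((1 + D) ^ M)⁻¹ := by
    rw [pow_add, mul_inv]
    field_simp
  unfold kk
  rw [← hD]
  have hpos : 0 < ((1 + D) ^ (M + (n + 1)))⁻¹ := by positivity
  calc r ^ (((n : ℝ) + 1) / q) * (C * lam ^ (n + 2) * ((1 + lam * r) ^ (-aa n) * (1 + lam * s) ^ (-aa n)) *
        ((1 + D) ^ (M + (n + 1)))⁻¹ * s ^ (n + 1))
      = C * ((1 + D) ^ (M + (n + 1)))⁻¹ * (lam ^ (n + 2) * ((1 + lam * r) ^ (-aa n) * (1 + lam * s) ^ (-aa n)) * s ^ (n + 1) *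
        (r ^ (((n : ℝ) + 1) / q) * (s ^ (-(((n : ℝ) + 1) / p)) * s ^ (((n : ℝ) + 1) / p)))) := by
        rw [hcancel]; ring
    _ = C * ((1 + D) ^ (M + (n + 1)))⁻¹ * s ^ (((n : ℝ) + 1) / p) *
        (lam ^ (n + 2) * ((1 + lam * r) ^ (-aa n) * (1 + lam * s) ^ (-aa n)) * s ^ (n + 1) *
        (r ^ (((n : ℝ) + 1) / q) * s ^ (-(((n : ℝ) + 1) / p)))) := by ring
    _ ≤ C * ((1 + D) ^ (M + (n + 1)))⁻¹ * s ^ (((n : ℝ) + 1) / p) *
        (3 ^ ((n : ℝ) + 1) * lam * A * (1 + D) ^ (n + 1)) := mul_le_mul_of_nonneg_left key (by positivity)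
    _ = C * 3 ^ ((n : ℝ) + 1) * A * (lam * (((1 + D) ^ (M + (n + 1)))⁻¹ * (1 + D) ^ (n + 1))) * s ^ (((n : ℝ) + 1) / p) := by
        ring
    _ = _ := by rw [hDN]

/-- The weight after integration. -/
noncomputable def Wt (q κ μ lam t s : ℝ) : ℝ :=
  2 ^ q * (lam ^ κ * ((1 + lam * |t - s|) ^ (-κ) + (1 + lam * |t - (-s)|) ^ (-κ)) + lam ^ μ)

theorem swap_le {lam θ' η' q : ℝ} (hlam : 1 ≤ lam) (hθ : 0 ≤ θ') (hq : 1 ≤ q) {M : ℕ}
    (hM : q * θ' + 2 ≤ M) (t : ℝ) {F : ℝ → ℝ≥0∞} (hF : Measurable F) :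
    ∫⁻ r in Ioi (0 : ℝ), ENNReal.ofReal (AA lam θ' η' r ^ q) *
      ∫⁻ s in Ioi (0 : ℝ), ENNReal.ofReal (kk lam M t r s) * F s ≤
    ∫⁻ s in Ioi (0 : ℝ), ENNReal.ofReal (Wt q (q * θ') (q * η') lam t s) * (4 * ENNReal.ofReal GG) * F s := by
  have hl : 0 < lam := by linarith
  have hAm : Measurable (fun r : ℝ => AA lam θ' η' r) := by unfold AA; fun_prop
  have hkm := kk_cont lam t M
  have e1 : ∀ r : ℝ, ENNReal.ofReal (AA lam θ' η' r ^ q) *
      ∫⁻ s in Ioi (0 : ℝ), ENNReal.ofReal (kk lam M t r s) * F s =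
      ∫⁻ s in Ioi (0 : ℝ), ENNReal.ofReal (AA lam θ' η' r ^ q) * (ENNReal.ofReal (kk lam M t r s) * F s) :=
    fun r => (lintegral_const_mul' _ _ ENNReal.ofReal_ne_top).symm
  simp only [e1]
  rw [lintegral_lintegral_swap]
  · refine lintegral_mono fun s => ?_
    have e2 : ∀ r : ℝ, ENNReal.ofReal (AA lam θ' η' r ^ q) * (ENNReal.ofReal (kk lam M t r s) * F s)
        = (ENNReal.ofReal (AA lam θ' η' r ^ q) * ENNReal.ofReal (kk lam M t r s)) * F s := fun r => by
      rw [mul_assoc]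
    simp only [e2]
    rw [lintegral_mul_const]
    · apply mul_le_mul' _ le_rfl
      calc ∫⁻ r in Ioi (0 : ℝ), ENNReal.ofReal (AA lam θ' η' r ^ q) * ENNReal.ofReal (kk lam M t r s)
          ≤ ∫⁻ r in Ioi (0 : ℝ), ENNReal.ofReal (Wt q (q * θ') (q * η') lam t s) * ENNReal.ofReal (kk lam 2 t r s) := by
            refine lintegral_mono_ae ?_
            filter_upwards [self_mem_ae_restrict measurableSet_Ioi] with r hr
            have hr0 : (0 : ℝ) < r := hr
            have hA0 := AA_pos (θ' := θ') (η' := η') hl hr0.le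
            rw [← ENNReal.ofReal_mul (by positivity), ← ENNReal.ofReal_mul (by unfold Wt; positivity)]
            apply ENNReal.ofReal_le_ofReal
            exact weight_bound hlam hθ hq hM hr0
        _ = ENNReal.ofReal (Wt q (q * θ') (q * η') lam t s) * ∫⁻ r in Ioi (0 : ℝ), ENNReal.ofReal (kk lam 2 t r s) :=
            lintegral_const_mul' _ _ ENNReal.ofReal_ne_top
        _ ≤ _ := mul_le_mul' le_rfl (kk_two_lintegral_r hl t s)
    · have h1 : Measurable (fun r : ℝ => ENNReal.ofReal (AA lam θ' η' r ^ q)) :=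
        ENNReal.measurable_ofReal.comp (hAm.pow_const _)
      have h2 : Continuous (fun r : ℝ => kk lam M t r s) := hkm.comp (continuous_id.prodMk continuous_const)
      have h3 : Measurable (fun r : ℝ => ENNReal.ofReal (kk lam M t r s)) :=
        ENNReal.measurable_ofReal.comp h2.measurable
      exact h1.mul h3
  · apply Measurable.aemeasurable
    have h1 : Measurable (fun z : ℝ × ℝ => ENNReal.ofReal (AA lam θ' η' z.1 ^ q)) :=
      ENNReal.measurable_ofReal.comp ((hAm.comp measurable_fst).pow_const _)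
    have h2 : Measurable (fun z : ℝ × ℝ => ENNReal.ofReal (kk lam M t z.1 z.2)) :=
      ENNReal.measurable_ofReal.comp hkm.measurable
    exact h1.mul (h2.mul (hF.comp measurable_snd))

theorem norm_eq_SN (n : ℕ) {p : ℝ} (hp : 1 ≤ p) {f₀ : ℝ → ℂ} (hf : Measurable f₀) :
    ∫⁻ x : V (n + 2), ‖f₀ ‖x‖‖ₑ ^ p = sg (n + 2) univ * ∫⁻ s in Ioi (0 : ℝ), FF n p f₀ s ^ p := by
  have hp0 : 0 < p := by linarith
  rw [polar_lintegral_radial (d := n + 2) (by omega) (g := fun s => ‖f₀ s‖ₑ ^ p) (hf.enorm.pow_const _)]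
  congr 1
  refine setLIntegral_congr_fun measurableSet_Ioi fun s hs => ?_
  have hs0 : (0 : ℝ) < s := hs
  simp only [FF]
  rw [ENNReal.mul_rpow_of_nonneg _ _ hp0.le, ENNReal.ofReal_rpow_of_nonneg (by positivity) hp0.le,
    ← Real.rpow_mul hs0.le, div_mul_cancel₀ _ hp0.ne']
  congr 2
  have hnat : n + 2 - 1 = n + 1 := by omega
  rw [hnat, ← Real.rpow_natCast]
  push_cast
  rfl

end Pool.Agent.Lib.MPc0f824
end

section
open MeasureTheory Set Metric Measure
open scoped ENNReal RealInnerProductSpace ContDiff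

namespace Pool.Agent.Lib.MPc0f824

theorem sg_pos (n : ℕ) : 0 < (sg (n + 2)).real univ := by
  have := nontriv (d := n + 2) (by omega)
  have h : sg (n + 2) ≠ 0 := by unfold sg; exact toSphere_ne_zero _
  rw [measureReal_def]
  apply ENNReal.toReal_pos
  · rwa [Ne, Measure.measure_univ_eq_zero]
  · exact measure_ne_top _ _

/-- The geometric sum. -/
noncomputable def geo (α κ : ℝ) (j : ℕ) : ℝ := ∑ i ∈ Finset.range (j + 1), ((2 : ℝ) ^ (α - κ)) ^ i

theorem geo_nonneg (α κ : ℝ) (j : ℕ) : 0 ≤ geo α κ j :=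
  Finset.sum_nonneg fun i _ => by positivity

theorem main_ineq {n : ℕ} {β : ℝ → ℂ} (hβ : ContDiff ℝ ∞ β) (hs : tsupport β ⊆ Ioo (1 / 2) 2)
    {α : ℝ} (hα : 0 < α) {E : Set ℝ} (hE : E ⊆ Icc 1 2) (hA : BddAssouad α E)
    {p q : ℝ} (hp : 1 ≤ p) (hpq : p ≤ q) {θ' η' : ℝ}
    (hθ : θ' = max (((n : ℝ) + 1) * (1 / 2 - 1 / q)) 0)
    (hη : η' = max (((n : ℝ) + 1) * (1 / p - 1 / 2)) 0) :
    ∃ C : ℝ, 0 < C ∧ ∀ (j : ℕ) (T : Finset ℝ), 1 ≤ j → (∀ t ∈ T, t ∈ E) →
      (∀ t ∈ T, ∀ t' ∈ T, t ≠ t' → 1 / 2 ^ j ≤ |t - t'|) → ∀ f₀ : ℝ → ℂ, Measurable f₀ →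
      ∑ t ∈ T, ∫⁻ x : V (n + 2), ‖wave β j t (fun y : V (n + 2) => f₀ ‖y‖) x‖ₑ ^ q ≤
        ENNReal.ofReal (C * (((2 : ℝ) ^ j) ^ (q / p - 1) *
          (2 * (((2 : ℝ) ^ j) ^ (q * θ') * geo α (q * θ') j) + ((2 : ℝ) ^ j) ^ α * ((2 : ℝ) ^ j) ^ (q * η')))) *
        (∫⁻ x : V (n + 2), ‖f₀ ‖x‖‖ₑ ^ p) ^ (q / p) := by
  have hp0 : 0 < p := by linarith
  have hq0 : 0 < q := by linarith
  have hq1 : 1 ≤ q := by linarith
  have hθ0 : 0 ≤ θ' := by rw [hθ]; exact le_max_right _ _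
  have hη0 : 0 ≤ η' := by rw [hη]; exact le_max_right _ _
  have hqp : 1 ≤ q / p := by rw [one_le_div hp0]; exact hpq
  have hqqp : 0 ≤ q - q / p := by rw [sub_nonneg]; exact div_le_self hq0.le hp
  set κ : ℝ := q * θ' with hκ
  have hκ0 : 0 ≤ κ := by positivity
  set M : ℕ := ⌈κ⌉₊ + 2 with hM
  have hMκ : κ + 2 ≤ M := by
    rw [hM]; push_cast
    linarith [Nat.le_ceil κ]
  have hM2 : 2 ≤ M := by omega
  obtain ⟨C1, hC1, hwave⟩ := wave_le hβ hs n (M + (n + 1))
  obtain ⟨CS, hCS, hsum⟩ := sum_weights hα hE hA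
  set Sr : ℝ := (sg (n + 2)).real univ with hSr
  have hSr0 : 0 < Sr := sg_pos n
  have hS : sg (n + 2) univ = ENNReal.ofReal Sr := by
    rw [hSr, measureReal_def, ENNReal.ofReal_toReal (measure_ne_top _ _)]
  set C2 : ℝ := C1 * 3 ^ ((n : ℝ) + 1) with hC2
  have hC20 : 0 < C2 := by positivity
  have hG0 := GG_nonneg
  refine ⟨Sr * (Sr⁻¹) ^ (q / p) * C2 ^ q * (4 * GG) ^ (q - q / p) * (4 * GG) * 2 ^ q * CS + 1, by positivity, ?_⟩
  intro j T hj hT hsep f₀ hf
  set lam : ℝ := (2 : ℝ) ^ j with hlam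
  have hl1 : 1 ≤ lam := one_le_pow₀ (by norm_num)
  have hl0 : 0 < lam := by linarith
  obtain ⟨hcard, hgeo⟩ := hsum j T hj hT hsep
  set F : ℝ → ℝ≥0∞ := FF n p f₀ with hF
  have hFm : Measurable F := FF_meas n p hf
  set Np : ℝ≥0∞ := ∫⁻ s in Ioi (0 : ℝ), F s ^ p with hNp
  set I : ℝ≥0∞ := ∫⁻ x : V (n + 2), ‖f₀ ‖x‖‖ₑ ^ p with hI
  have hINp : I = ENNReal.ofReal Sr * Np := by
    rw [hI, norm_eq_SN n hp hf, hS]
  set K : ℝ≥0∞ := 4 * ENNReal.ofReal GG with hK
  have hKr : K = ENNReal.ofReal (4 * GG) := by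
    rw [ENNReal.ofReal_mul (by norm_num)]; simp [hK]
  have hE12 : ∀ t ∈ T, t ∈ Icc (1 : ℝ) 2 := fun t ht => hE (hT t ht)
  -- one time
  have hone : ∀ t ∈ T, ∫⁻ x : V (n + 2), ‖wave β j t (fun y : V (n + 2) => f₀ ‖y‖) x‖ₑ ^ q ≤
      ENNReal.ofReal (Sr * C2 ^ q) * (K ^ (q - q / p) * (ENNReal.ofReal lam * Np) ^ (q / p - 1)) *
        ∫⁻ s in Ioi (0 : ℝ), ENNReal.ofReal (Wt q κ (q * η') lam t s) * K * F s ^ p := by
    intro t ht
    have h1 : ∫⁻ x : V (n + 2), ‖wave β j t (fun y : V (n + 2) => f₀ ‖y‖) x‖ₑ ^ q ≤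
        ∫⁻ x : V (n + 2), (fun r => Psi n (M + (n + 1)) C1 lam t f₀ r ^ q) ‖x‖ := by
      refine lintegral_mono_ae ?_
      have hne : ∀ᵐ x : V (n + 2), x ≠ 0 := by
        have : Nontrivial (V (n + 2)) := nontriv (by omega)
        rw [ae_iff]
        simp
      filter_upwards [hne] with x hx
      apply ENNReal.rpow_le_rpow _ hq0.le
      exact hwave j t x f₀ (norm_pos_iff.2 hx)
    rw [polar_lintegral_radial (d := n + 2) (by omega)
      (g := fun r => Psi n (M + (n + 1)) C1 lam t f₀ r ^ q) ((Psi_meas n _ C1 lam t hf).pow_const _)] at h1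
    refine h1.trans ?_
    have h2 : ∫⁻ r in Ioi (0 : ℝ), ENNReal.ofReal (r ^ (n + 2 - 1)) * Psi n (M + (n + 1)) C1 lam t f₀ r ^ q ≤
        ∫⁻ r in Ioi (0 : ℝ), ENNReal.ofReal (C2 ^ q) * (K ^ (q - q / p) * (ENNReal.ofReal lam * Np) ^ (q / p - 1)) *
          (ENNReal.ofReal (AA lam θ' η' r ^ q) * ∫⁻ s in Ioi (0 : ℝ), ENNReal.ofReal (kk lam M t r s) * F s ^ p) := by
      refine lintegral_mono_ae ?_
      filter_upwards [self_mem_ae_restrict measurableSet_Ioi] with r hr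
      have hr0 : (0 : ℝ) < r := hr
      have hnat : n + 2 - 1 = n + 1 := by omega
      rw [hnat]
      have h3 := Psi_le n M hC1 hp hpq hl1 (hE12 t ht) hr0 f₀
      rw [← hθ, ← hη, ← hC2, ENNReal.ofReal_mul (by positivity)] at h3
      have hkm : Measurable (fun s : ℝ => ENNReal.ofReal (kk lam M t r s)) := by
        have h2 : Continuous (fun s : ℝ => kk lam M t r s) :=
          (kk_cont lam t M).comp (continuous_const.prodMk continuous_id)
        exact ENNReal.measurable_ofReal.comp h2.measurable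
      have h4 := jensen2 (μ := volume.restrict (Ioi (0 : ℝ))) hkm hFm hp hpq
        (kk_lintegral_s hl0 hM2 t r) (L := ENNReal.ofReal lam)
        (fun s => ENNReal.ofReal_le_ofReal (kk_le_lam hl0 M t r s))
      calc _ ≤ _ := h3
        _ ≤ ENNReal.ofReal (C2 ^ q) * ENNReal.ofReal (AA lam θ' η' r ^ q) *
            (K ^ (q - q / p) * (ENNReal.ofReal lam * Np) ^ (q / p - 1) *
              ∫⁻ s in Ioi (0 : ℝ), ENNReal.ofReal (kk lam M t r s) * F s ^ p) := mul_le_mul' le_rfl h4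
        _ = _ := by ring
    calc _ ≤ sg (n + 2) univ * ∫⁻ r in Ioi (0 : ℝ), ENNReal.ofReal (C2 ^ q) *
          (K ^ (q - q / p) * (ENNReal.ofReal lam * Np) ^ (q / p - 1)) *
          (ENNReal.ofReal (AA lam θ' η' r ^ q) * ∫⁻ s in Ioi (0 : ℝ), ENNReal.ofReal (kk lam M t r s) * F s ^ p) :=
          mul_le_mul' le_rfl h2
      _ = sg (n + 2) univ * (ENNReal.ofReal (C2 ^ q) * (K ^ (q - q / p) * (ENNReal.ofReal lam * Np) ^ (q / p - 1)) *
          ∫⁻ r in Ioi (0 : ℝ), ENNReal.ofReal (AA lam θ' η' r ^ q) *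
            ∫⁻ s in Ioi (0 : ℝ), ENNReal.ofReal (kk lam M t r s) * F s ^ p) := by
          rw [lintegral_const_mul]
          have hAm : Measurable (fun r : ℝ => AA lam θ' η' r) := by unfold AA; fun_prop
          have h5 : Measurable (fun r : ℝ => ENNReal.ofReal (AA lam θ' η' r ^ q)) :=
            ENNReal.measurable_ofReal.comp (hAm.pow_const _)
          have h6 : Measurable (fun z : ℝ × ℝ => ENNReal.ofReal (kk lam M t z.1 z.2) * F z.2 ^ p) :=
            (ENNReal.measurable_ofReal.comp (kk_cont lam t M).measurable).mul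
              ((hFm.comp measurable_snd).pow_const _)
          exact h5.mul h6.lintegral_prod_right'
      _ ≤ sg (n + 2) univ * (ENNReal.ofReal (C2 ^ q) * (K ^ (q - q / p) * (ENNReal.ofReal lam * Np) ^ (q / p - 1)) *
          ∫⁻ s in Ioi (0 : ℝ), ENNReal.ofReal (Wt q κ (q * η') lam t s) * K * F s ^ p) :=
          mul_le_mul' le_rfl (mul_le_mul' le_rfl (swap_le hl1 hθ0 hq1 hMκ t (hFm.pow_const p)))
      _ = _ := by
          rw [hS, ENNReal.ofReal_mul hSr0.le]
          ring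
  -- sum over the times
  have hWm : ∀ t : ℝ, Measurable (fun s : ℝ => ENNReal.ofReal (Wt q κ (q * η') lam t s) * K * F s ^ p) := by
    intro t
    have h1 : Measurable (fun s : ℝ => Wt q κ (q * η') lam t s) := by unfold Wt; fun_prop
    exact ((ENNReal.measurable_ofReal.comp h1).mul measurable_const).mul (hFm.pow_const _)
  have hWsum : ∀ s : ℝ, ∑ t ∈ T, Wt q κ (q * η') lam t s ≤
      2 ^ q * CS * (2 * (lam ^ κ * geo α κ j) + lam ^ α * lam ^ (q * η')) := by
    intro s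
    have g1 := hgeo κ hκ0 s
    have g2 := hgeo κ hκ0 (-s)
    have hgeoeq : (∑ i ∈ Finset.range (j + 1), ((2 : ℝ) ^ (α - κ)) ^ i) = geo α κ j := rfl
    rw [hgeoeq] at g1 g2
    have e1 : ∑ t ∈ T, Wt q κ (q * η') lam t s = 2 ^ q * (lam ^ κ * ((∑ t ∈ T, (1 + lam * |t - s|) ^ (-κ)) +
        ∑ t ∈ T, (1 + lam * |t - (-s)|) ^ (-κ)) + T.card * lam ^ (q * η')) := by
      unfold Wt
      rw [← Finset.mul_sum, Finset.sum_add_distrib, ← Finset.mul_sum, Finset.sum_add_distrib,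
        Finset.sum_const, nsmul_eq_mul]
    rw [e1]
    have hlq : 0 < lam ^ (q * η') := by positivity
    have hlk : 0 < lam ^ κ := by positivity
    calc 2 ^ q * (lam ^ κ * ((∑ t ∈ T, (1 + lam * |t - s|) ^ (-κ)) +
        ∑ t ∈ T, (1 + lam * |t - (-s)|) ^ (-κ)) + T.card * lam ^ (q * η'))
        ≤ 2 ^ q * (lam ^ κ * (CS * geo α κ j + CS * geo α κ j) + (CS * lam ^ α) * lam ^ (q * η')) := by
          apply mul_le_mul_of_nonneg_left _ (by positivity)
          apply add_le_add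
          · exact mul_le_mul_of_nonneg_left (add_le_add g1 g2) hlk.le
          · exact mul_le_mul_of_nonneg_right hcard hlq.le
      _ = _ := by ring
  set B : ℝ := 2 * (lam ^ κ * geo α κ j) + lam ^ α * lam ^ (q * η') with hB
  have hB0 : 0 ≤ B := by
    have := geo_nonneg α κ j
    positivity
  calc ∑ t ∈ T, ∫⁻ x : V (n + 2), ‖wave β j t (fun y : V (n + 2) => f₀ ‖y‖) x‖ₑ ^ q
      ≤ ∑ t ∈ T, ENNReal.ofReal (Sr * C2 ^ q) * (K ^ (q - q / p) * (ENNReal.ofReal lam * Np) ^ (q / p - 1)) *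
        ∫⁻ s in Ioi (0 : ℝ), ENNReal.ofReal (Wt q κ (q * η') lam t s) * K * F s ^ p := Finset.sum_le_sum hone
    _ = ENNReal.ofReal (Sr * C2 ^ q) * (K ^ (q - q / p) * (ENNReal.ofReal lam * Np) ^ (q / p - 1)) *
        ∫⁻ s in Ioi (0 : ℝ), ∑ t ∈ T, ENNReal.ofReal (Wt q κ (q * η') lam t s) * K * F s ^ p := by
        rw [← Finset.mul_sum, lintegral_finsetSum _ (fun t _ => hWm t)]
    _ ≤ ENNReal.ofReal (Sr * C2 ^ q) * (K ^ (q - q / p) * (ENNReal.ofReal lam * Np) ^ (q / p - 1)) *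
        ∫⁻ s in Ioi (0 : ℝ), (ENNReal.ofReal (2 ^ q * CS * B) * K) * F s ^ p := by
        apply mul_le_mul' le_rfl
        refine lintegral_mono fun s => ?_
        simp only
        rw [← Finset.sum_mul, ← Finset.sum_mul]
        apply mul_le_mul' _ le_rfl
        apply mul_le_mul' _ le_rfl
        rw [← ENNReal.ofReal_sum_of_nonneg (fun t _ => by unfold Wt; positivity)]
        exact ENNReal.ofReal_le_ofReal (hWsum s)
    _ = ENNReal.ofReal (Sr * C2 ^ q) * (K ^ (q - q / p) * (ENNReal.ofReal lam * Np) ^ (q / p - 1)) *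
        ((ENNReal.ofReal (2 ^ q * CS * B) * K) * Np) := by
        rw [lintegral_const_mul _ (hFm.pow_const _)]
    _ = ENNReal.ofReal (Sr * (Sr⁻¹) ^ (q / p) * C2 ^ q * (4 * GG) ^ (q - q / p) * (4 * GG) * 2 ^ q * CS *
          (lam ^ (q / p - 1) * B)) * I ^ (q / p) := by
        have hNpI : Np = ENNReal.ofReal (Sr⁻¹) * I := by
          rw [hINp, ← mul_assoc, ← ENNReal.ofReal_mul (by positivity), inv_mul_cancel₀ hSr0.ne']
          simp
        have hpow : (ENNReal.ofReal lam * Np) ^ (q / p - 1) * Np =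
            ENNReal.ofReal (lam ^ (q / p - 1)) * (ENNReal.ofReal ((Sr⁻¹) ^ (q / p)) * I ^ (q / p)) := by
          rw [ENNReal.mul_rpow_of_nonneg _ _ (by linarith), ENNReal.ofReal_rpow_of_nonneg hl0.le (by linarith)]
          rw [mul_assoc]
          congr 1
          rw [← ENNReal.ofReal_rpow_of_nonneg (by positivity) (by positivity),
            ← ENNReal.mul_rpow_of_nonneg _ _ (by positivity), ← hNpI]
          conv_rhs => rw [show q / p = (q / p - 1) + 1 by ring,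
            ENNReal.rpow_add_of_nonneg _ _ (by linarith) zero_le_one, ENNReal.rpow_one]
        have hsplit : ENNReal.ofReal (Sr * (Sr⁻¹) ^ (q / p) * C2 ^ q * (4 * GG) ^ (q - q / p) * (4 * GG) * 2 ^ q * CS *
          (lam ^ (q / p - 1) * B)) = ENNReal.ofReal (Sr * C2 ^ q) * K ^ (q - q / p) * K *
            ENNReal.ofReal (2 ^ q * CS * B) * (ENNReal.ofReal (lam ^ (q / p - 1)) * ENNReal.ofReal ((Sr⁻¹) ^ (q / p))) := by
          rw [hKr, ENNReal.ofReal_rpow_of_nonneg (by positivity) hqqp, ← ENNReal.ofReal_mul (by positivity),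
            ← ENNReal.ofReal_mul (by positivity), ← ENNReal.ofReal_mul (by positivity),
            ← ENNReal.ofReal_mul (by positivity), ← ENNReal.ofReal_mul (by positivity)]
          congr 1
          ring
        rw [hsplit]
        calc _ = ENNReal.ofReal (Sr * C2 ^ q) * K ^ (q - q / p) * K * ENNReal.ofReal (2 ^ q * CS * B) *
              ((ENNReal.ofReal lam * Np) ^ (q / p - 1) * Np) := by ring
          _ = _ := by rw [hpow]; ring
    _ ≤ _ := by
        apply mul_le_mul' _ le_rfl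
        apply ENNReal.ofReal_le_ofReal
        apply mul_le_mul_of_nonneg_right _ (by positivity)
        linarith

end Pool.Agent.Lib.MPc0f824
end
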