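import Pool.Agent.Lib.MP_c0f824_an.Polar

section
open MeasureTheory Set Metric Measure
open scoped ENNReal RealInnerProductSpace

namespace Pool.Agent.Lib.MPc0f824

variable {d : ℕ}

/-- The extension of `G` from the unit sphere to the unit ball, homogeneous of degree zero. -/
noncomputable def ext0 (G : V d → ℂ) (x : V d) : ℂ :=
  if ‖x‖ < 1 then G (‖x‖⁻¹ • x) else 0

theorem ext0_smul (G : V d → ℂ) {s : ℝ} (hs : 0 < s) (ω : Sp d) :
    ext0 G (s • (ω : V d)) = if s < 1 then G ω else 0 := by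
  have hn : ‖s • (ω : V d)‖ = s := by
    rw [norm_smul, norm_eq_of_mem_sphere ω, mul_one, Real.norm_eq_abs, abs_of_pos hs]
  unfold ext0
  rw [hn, smul_smul, inv_mul_cancel₀ hs.ne', one_smul]

theorem ext0_integrable {G : V d → ℂ} (hG : Continuous G) : Integrable (ext0 G) := by
  obtain ⟨M, hM⟩ := (isCompact_closedBall (0 : V d) 1).exists_bound_of_continuousOn hG.continuousOn
  have hmeas : Measurable (ext0 G) := by
    unfold ext0
    refine Measurable.ite (measurableSet_lt measurable_norm measurable_const) ?_ measurable_const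
    have h1 : Measurable (fun x : V d => ‖x‖⁻¹) := measurable_norm.inv
    exact hG.measurable.comp (h1.smul measurable_id)
  have hind : ext0 G = (ball (0 : V d) 1).indicator (ext0 G) := by
    funext x
    by_cases hx : ‖x‖ < 1
    · rw [indicator_of_mem]
      simpa using hx
    · rw [indicator_of_notMem]
      · unfold ext0; rw [if_neg hx]
      · simpa using hx
  rw [hind, integrable_indicator_iff measurableSet_ball]
  refine Measure.integrableOn_of_bounded (M := M) measure_ball_lt_top.ne hmeas.aestronglyMeasurable ?_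
  refine Filter.Eventually.of_forall fun x => ?_
  have hM0 : 0 ≤ M := (norm_nonneg _).trans (hM 0 (by simp))
  unfold ext0
  split_ifs with h
  · apply hM
    rw [mem_closedBall_zero_iff, norm_smul, norm_inv, norm_norm]
    by_cases hx : ‖x‖ = 0
    · rw [hx]; simp
    · rw [inv_mul_cancel₀ hx]
  · simpa using hM0

theorem ext0_integral (hd : 2 ≤ d) {G : V d → ℂ} (hG : Continuous G) :
    ∫ x, ext0 G x = ((d : ℂ)⁻¹) * ∫ ω : Sp d, G ω ∂(sg d) := by
  rw [polar_integral hd (ext0_integrable hG)]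
  have h1 : ∀ s ∈ Ioi (0 : ℝ), (s ^ (d - 1) • ∫ ω : Sp d, ext0 G (s • (ω : V d)) ∂(sg d))
      = (Ioo (0 : ℝ) 1).indicator (fun s => ((s ^ (d - 1) : ℝ) : ℂ) * ∫ ω : Sp d, G ω ∂(sg d)) s := by
    intro s hs
    by_cases h : s < 1
    · rw [indicator_of_mem (show s ∈ Ioo (0 : ℝ) 1 from ⟨hs, h⟩)]
      rw [Complex.real_smul]
      congr 1
      refine integral_congr_ae (Filter.Eventually.of_forall fun ω => ?_)
      simp only [ext0_smul G hs ω, if_pos h]
    · rw [indicator_of_notMem (fun hh => h hh.2)]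
      have : ∀ ω : Sp d, ext0 G (s • (ω : V d)) = 0 := fun ω => by
        rw [ext0_smul G hs ω, if_neg h]
      simp [this]
  rw [setIntegral_congr_fun measurableSet_Ioi h1, setIntegral_indicator measurableSet_Ioo]
  have h2 : Ioi (0 : ℝ) ∩ Ioo 0 1 = Ioo 0 1 := by
    ext x; simp
  rw [h2, integral_mul_const]
  congr 1
  rw [integral_complex_ofReal]
  rw [← integral_Ioc_eq_integral_Ioo, ← intervalIntegral.integral_of_le zero_le_one, integral_pow]
  have : ((d - 1 : ℕ) : ℝ) + 1 = d := by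
    rw [Nat.cast_sub (by omega)]; simp
  rw [this]
  have hd1 : d - 1 + 1 = d := by omega
  rw [hd1]
  have hd0 : d ≠ 0 := by omega
  simp [hd0]

theorem sphere_inv (hd : 2 ≤ d) (L : V d ≃ₗᵢ[ℝ] V d) {G : V d → ℂ} (hG : Continuous G) :
    ∫ ω : Sp d, G (L ω) ∂(sg d) = ∫ ω : Sp d, G ω ∂(sg d) := by
  have h1 := ext0_integral hd hG
  have h2 := ext0_integral hd (hG.comp L.continuous)
  have h3 : ext0 (G ∘ L) = fun x => ext0 G (L x) := by
    funext x
    unfold ext0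
    rw [L.norm_map]
    simp
  have h4 : ∫ x, ext0 G (L x) = ∫ x, ext0 G x :=
    L.measurePreserving.integral_comp L.toHomeomorph.measurableEmbedding _
  rw [h3, h4, h1] at h2
  have hd0 : ((d : ℂ)⁻¹) ≠ 0 := by
    apply inv_ne_zero
    exact_mod_cast (by omega : d ≠ 0)
  have := mul_left_cancel₀ hd0 h2
  simpa using this.symm

/-- The Fourier transform of the surface measure. -/
noncomputable def Phi (d : ℕ) (z : V d) : ℂ := ∫ ω : Sp d, Complex.exp (Complex.I * (⟪z, (ω : V d)⟫ : ℝ)) ∂(sg d)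

theorem Phi_norm (hd : 2 ≤ d) {z z' : V d} (h : ‖z‖ = ‖z'‖) : Phi d z = Phi d z' := by
  let L : V d ≃ₗᵢ[ℝ] V d := (ℝ ∙ (z - z'))ᗮ.reflection
  have hL : L z = z' := Submodule.reflection_sub h
  have hG : Continuous (fun x : V d => Complex.exp (Complex.I * (⟪z', x⟫ : ℝ))) := by fun_prop
  have h1 := sphere_inv hd L hG
  unfold Phi
  rw [← h1]
  refine integral_congr_ae (Filter.Eventually.of_forall fun ω => ?_)
  simp only
  rw [← hL, L.inner_map_map]

end Pool.Agent.Lib.MPc0f824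
end

section
open MeasureTheory Set Metric Measure
open scoped ENNReal RealInnerProductSpace

namespace Pool.Agent.Lib.MPc0f824

variable {d : ℕ}

/-- Weighted Fourier transform of the surface measure. -/
noncomputable def Q (g : Sp d → ℂ) (z : V d) : ℂ :=
  ∫ ω : Sp d, g ω * Complex.exp (Complex.I * (⟪z, (ω : V d)⟫ : ℝ)) ∂(sg d)

theorem expI_norm (x : ℝ) : ‖Complex.exp (Complex.I * (x : ℝ))‖ = 1 := by
  rw [mul_comm, Complex.norm_exp_ofReal_mul_I]

theorem inner_sp_le (v : V d) (ω : Sp d) : |⟪v, (ω : V d)⟫| ≤ ‖v‖ := by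
  have h := abs_real_inner_le_norm v (ω : V d)
  rwa [norm_eq_of_mem_sphere ω, mul_one] at h

theorem Q_integrable {g : Sp d → ℂ} (hg : Continuous g) (z : V d) :
    Integrable (fun ω : Sp d => g ω * Complex.exp (Complex.I * (⟪z, (ω : V d)⟫ : ℝ))) (sg d) := by
  obtain ⟨M, hM⟩ := (isCompact_univ (X := Sp d)).exists_bound_of_continuousOn hg.continuousOn
  refine Integrable.mono' (integrable_const M) ?_ ?_
  · apply Continuous.aestronglyMeasurable
    fun_prop
  · refine Filter.Eventually.of_forall fun ω => ?_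
    rw [norm_mul, expI_norm, mul_one]
    exact hM ω (mem_univ _)

theorem Q_bound {g : Sp d → ℂ} {M : ℝ} (hM : ∀ ω, ‖g ω‖ ≤ M) (z : V d) :
    ‖Q g z‖ ≤ M * (sg d).real univ := by
  unfold Q
  refine norm_integral_le_of_norm_le_const (Filter.Eventually.of_forall fun ω => ?_)
  rw [norm_mul, expI_norm, mul_one]
  exact hM ω

theorem Q_deriv {g : Sp d → ℂ} (hg : Continuous g) (z v : V d) (h : ℝ) :
    HasDerivAt (fun h : ℝ => Q g (z + h • v))
      (Q (fun ω => g ω * (Complex.I * (⟪v, (ω : V d)⟫ : ℝ))) (z + h • v)) h := by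
  obtain ⟨M, hM⟩ := (isCompact_univ (X := Sp d)).exists_bound_of_continuousOn hg.continuousOn
  have hM' : ∀ ω, ‖g ω‖ ≤ M := fun ω => hM ω (mem_univ _)
  have hgv : Continuous (fun ω : Sp d => g ω * (Complex.I * (⟪v, (ω : V d)⟫ : ℝ))) := by fun_prop
  have key := hasDerivAt_integral_of_dominated_loc_of_deriv_le (μ := sg d) (𝕜 := ℝ)
    (F := fun (h : ℝ) (ω : Sp d) => g ω * Complex.exp (Complex.I * (⟪z + h • v, (ω : V d)⟫ : ℝ)))
    (F' := fun (h : ℝ) (ω : Sp d) => g ω * (Complex.I * (⟪v, (ω : V d)⟫ : ℝ)) *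
      Complex.exp (Complex.I * (⟪z + h • v, (ω : V d)⟫ : ℝ)))
    (x₀ := h) (s := univ) (bound := fun _ => M * ‖v‖) Filter.univ_mem ?_ ?_ ?_ ?_ ?_ ?_
  · exact key.2
  · exact Filter.Eventually.of_forall fun t => (Q_integrable hg (z + t • v)).aestronglyMeasurable
  · exact Q_integrable hg (z + h • v)
  · exact (Q_integrable hgv (z + h • v)).aestronglyMeasurable
  · refine Filter.Eventually.of_forall fun ω t _ => ?_
    rw [norm_mul, expI_norm, mul_one, norm_mul, norm_mul, Complex.norm_I, one_mul,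
      Complex.norm_real, Real.norm_eq_abs]
    exact mul_le_mul (hM' ω) (inner_sp_le v ω) (abs_nonneg _) ((norm_nonneg _).trans (hM' ω))
  · exact integrable_const _
  · refine Filter.Eventually.of_forall fun ω t _ => ?_
    have h1 : HasDerivAt (fun t : ℝ => ((⟪z + t • v, (ω : V d)⟫ : ℝ) : ℂ)) ((⟪v, (ω : V d)⟫ : ℝ) : ℂ) t := by
      apply HasDerivAt.ofReal_comp
      have : (fun t : ℝ => ⟪z + t • v, (ω : V d)⟫) = fun t : ℝ => ⟪z, (ω : V d)⟫ + t * ⟪v, (ω : V d)⟫ := by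
        funext t
        rw [inner_add_left, real_inner_smul_left]
      rw [this]
      simpa using ((hasDerivAt_id t).mul_const ⟪v, (ω : V d)⟫).const_add ⟪z, (ω : V d)⟫
    have h2 := ((h1.const_mul Complex.I).cexp).const_mul (g ω)
    refine h2.congr_deriv ?_
    simp only [mul_assoc, mul_comm, mul_left_comm]

/-- First coordinate vector. -/
noncomputable def e0 (n : ℕ) : V (n + 2) := EuclideanSpace.single 0 1

/-- The Bessel type function of dimension `n + 2`, and its first two derivatives. -/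
noncomputable def J (n : ℕ) (u : ℝ) : ℂ := Q (fun _ : Sp (n + 2) => 1) (u • e0 n)
noncomputable def J1 (n : ℕ) (u : ℝ) : ℂ :=
  Q (fun ω : Sp (n + 2) => (Complex.I * (⟪e0 n, (ω : V (n + 2))⟫ : ℝ))) (u • e0 n)
noncomputable def J2 (n : ℕ) (u : ℝ) : ℂ :=
  Q (fun ω : Sp (n + 2) => (Complex.I * (⟪e0 n, (ω : V (n + 2))⟫ : ℝ)) *
    (Complex.I * (⟪e0 n, (ω : V (n + 2))⟫ : ℝ))) (u • e0 n)

theorem J_deriv (n : ℕ) (u : ℝ) : HasDerivAt (J n) (J1 n u) u := by
  have h := Q_deriv (g := fun _ : Sp (n + 2) => 1) continuous_const 0 (e0 n) u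
  simp only [zero_add, one_mul] at h
  exact h

theorem J1_deriv (n : ℕ) (u : ℝ) : HasDerivAt (J1 n) (J2 n u) u := by
  have h := Q_deriv (g := fun ω : Sp (n + 2) => (Complex.I * (⟪e0 n, (ω : V (n + 2))⟫ : ℝ)))
    (by fun_prop) 0 (e0 n) u
  simp only [zero_add] at h
  exact h

theorem norm_e0 (n : ℕ) : ‖e0 n‖ = 1 := by simp [e0]

theorem J_norm_le (n : ℕ) (u : ℝ) : ‖J n u‖ ≤ (sg (n + 2)).real univ := by
  have := Q_bound (g := fun _ : Sp (n + 2) => 1) (M := 1) (by simp) (u • e0 n)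
  rwa [one_mul] at this

theorem J1_norm_le (n : ℕ) (u : ℝ) : ‖J1 n u‖ ≤ (sg (n + 2)).real univ := by
  have := Q_bound (g := fun ω : Sp (n + 2) => (Complex.I * (⟪e0 n, (ω : V (n + 2))⟫ : ℝ))) (M := 1)
    (by
      intro ω
      rw [norm_mul, Complex.norm_I, one_mul, Complex.norm_real, Real.norm_eq_abs]
      exact (inner_sp_le _ ω).trans (norm_e0 n).le) (u • e0 n)
  rwa [one_mul] at this

theorem Q_one (n : ℕ) (z : V (n + 2)) : Q (fun _ : Sp (n + 2) => 1) z = J n ‖z‖ := by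
  unfold J
  have h := Phi_norm (d := n + 2) (by omega) (z := z) (z' := ‖z‖ • e0 n) (by
    rw [norm_smul, norm_e0, mul_one, norm_norm])
  unfold Phi at h
  unfold Q
  simpa using h

end Pool.Agent.Lib.MPc0f824
end

section
open MeasureTheory Set Metric Measure
open scoped ENNReal RealInnerProductSpace

namespace Pool.Agent.Lib.MPc0f824

variable {n : ℕ}

noncomputable def ei (n : ℕ) (i : Fin (n + 2)) : V (n + 2) := EuclideanSpace.single i 1

theorem norm_line {i : Fin (n + 2)} (hi : i ≠ 0) (u h : ℝ) :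
    ‖u • e0 n + h • ei n i‖ = Real.sqrt (u ^ 2 + h ^ 2) := by
  have h1 : ‖u • e0 n + h • ei n i‖ ^ 2 = u ^ 2 + h ^ 2 := by
    rw [norm_add_sq_real]
    have : ⟪u • e0 n, h • ei n i⟫ = (0 : ℝ) := by
      rw [real_inner_smul_left, real_inner_smul_right]
      unfold e0 ei
      rw [EuclideanSpace.inner_single_left]
      simp [hi.symm]
    rw [this, norm_smul, norm_smul, norm_e0]
    have : ‖ei n i‖ = 1 := by simp [ei]
    rw [this]
    simp
  rw [← h1, Real.sqrt_sq (norm_nonneg _)]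

theorem gi_line {i : Fin (n + 2)} (hi : i ≠ 0) {u : ℝ} (hu : 0 < u) (h : ℝ) :
    Q (fun ω : Sp (n + 2) => (Complex.I * (⟪ei n i, (ω : V (n + 2))⟫ : ℝ))) (u • e0 n + h • ei n i)
      = (h / Real.sqrt (u ^ 2 + h ^ 2)) • J1 n (Real.sqrt (u ^ 2 + h ^ 2)) := by
  have h1 := Q_deriv (g := fun _ : Sp (n + 2) => 1) continuous_const (u • e0 n) (ei n i) h
  simp only [one_mul] at h1
  have h2 : (fun h : ℝ => Q (fun _ : Sp (n + 2) => 1) (u • e0 n + h • ei n i))
      = fun h : ℝ => J n (Real.sqrt (u ^ 2 + h ^ 2)) := by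
    funext h
    rw [Q_one, norm_line hi]
  rw [h2] at h1
  have hpos : 0 < u ^ 2 + h ^ 2 := by positivity
  have h3 : HasDerivAt (fun h : ℝ => Real.sqrt (u ^ 2 + h ^ 2)) (h / Real.sqrt (u ^ 2 + h ^ 2)) h := by
    have h4 : HasDerivAt (fun h : ℝ => u ^ 2 + h ^ 2) (2 * h) h := by
      simpa using (hasDerivAt_pow 2 h).const_add (u ^ 2)
    have h5 := h4.sqrt hpos.ne'
    convert h5 using 1
    field_simp
  have h6 := (J_deriv n (Real.sqrt (u ^ 2 + h ^ 2))).scomp h h3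
  exact h1.unique h6

theorem gi_sq {i : Fin (n + 2)} (hi : i ≠ 0) {u : ℝ} (hu : 0 < u) :
    Q (fun ω : Sp (n + 2) => (Complex.I * (⟪ei n i, (ω : V (n + 2))⟫ : ℝ)) *
      (Complex.I * (⟪ei n i, (ω : V (n + 2))⟫ : ℝ))) (u • e0 n) = (1 / u) • J1 n u := by
  have h1 := Q_deriv (g := fun ω : Sp (n + 2) => (Complex.I * (⟪ei n i, (ω : V (n + 2))⟫ : ℝ)))
    (by fun_prop) (u • e0 n) (ei n i) 0
  have h2 : (fun h : ℝ => Q (fun ω : Sp (n + 2) => (Complex.I * (⟪ei n i, (ω : V (n + 2))⟫ : ℝ)))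
      (u • e0 n + h • ei n i)) = fun h : ℝ => (h / Real.sqrt (u ^ 2 + h ^ 2)) •
        J1 n (Real.sqrt (u ^ 2 + h ^ 2)) := by
    funext h
    exact gi_line hi hu h
  rw [h2] at h1
  have hpos : 0 < u ^ 2 + (0 : ℝ) ^ 2 := by positivity
  have hs0 : Real.sqrt (u ^ 2 + (0 : ℝ) ^ 2) = u := by simp [hu.le]
  have h3 : HasDerivAt (fun h : ℝ => Real.sqrt (u ^ 2 + h ^ 2)) 0 0 := by
    have h4 : HasDerivAt (fun h : ℝ => u ^ 2 + h ^ 2) (2 * 0) 0 := by
      simpa using (hasDerivAt_pow 2 (0 : ℝ)).const_add (u ^ 2)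
    have h5 := h4.sqrt hpos.ne'
    simpa using h5
  have h4 : HasDerivAt (fun h : ℝ => h / Real.sqrt (u ^ 2 + h ^ 2)) (1 / u) 0 := by
    have h5 := (hasDerivAt_id (0 : ℝ)).div h3 (by rw [hs0]; exact hu.ne')
    refine h5.congr_deriv ?_
    simp only [hs0, id]
    field_simp
    ring
  have h5 : HasDerivAt (fun h : ℝ => J1 n (Real.sqrt (u ^ 2 + h ^ 2))) ((0 : ℝ) • J2 n u) 0 := by
    have := J1_deriv n (Real.sqrt (u ^ 2 + (0 : ℝ) ^ 2))
    have h6 := this.scomp (0 : ℝ) h3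
    rw [hs0] at h6
    exact h6
  have h6 := h4.smul h5
  have h7 := h1.unique h6
  simp only [zero_smul, add_zero, zero_div, smul_zero, hs0, zero_add] at h7
  exact h7

theorem J_ode {u : ℝ} (hu : 0 < u) :
    (u : ℂ) * (J n u + J2 n u) + ((n : ℂ) + 1) * J1 n u = 0 := by
  have hsum : ∑ i ∈ (Finset.univ.erase (0 : Fin (n + 2))),
      Q (fun ω : Sp (n + 2) => (Complex.I * (⟪ei n i, (ω : V (n + 2))⟫ : ℝ)) *
      (Complex.I * (⟪ei n i, (ω : V (n + 2))⟫ : ℝ))) (u • e0 n) = - J n u - J2 n u := by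
    unfold Q
    rw [← integral_finsetSum]
    · unfold J J2 Q
      rw [← integral_neg, ← integral_sub]
      · refine integral_congr_ae (Filter.Eventually.of_forall fun ω => ?_)
        simp only
        rw [← Finset.sum_mul]
        have hn : ∑ i : Fin (n + 2), ⟪ei n i, (ω : V (n + 2))⟫ * ⟪ei n i, (ω : V (n + 2))⟫ = (1 : ℝ) := by
          have h1 : ‖(ω : V (n + 2))‖ ^ 2 = 1 := by rw [norm_eq_of_mem_sphere ω]; norm_num
          rw [EuclideanSpace.norm_sq_eq] at h1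
          rw [← h1]
          refine Finset.sum_congr rfl fun i _ => ?_
          unfold ei
          rw [EuclideanSpace.inner_single_left]
          simp [sq]
        have h2 : ∑ i ∈ (Finset.univ.erase (0 : Fin (n + 2))),
            (Complex.I * ((⟪ei n i, (ω : V (n + 2))⟫ : ℝ) : ℂ)) *
            (Complex.I * ((⟪ei n i, (ω : V (n + 2))⟫ : ℝ) : ℂ))
            = -1 + ((⟪e0 n, (ω : V (n + 2))⟫ : ℝ) : ℂ) * ((⟪e0 n, (ω : V (n + 2))⟫ : ℝ) : ℂ) := by
          have h3 := Finset.add_sum_erase Finset.univ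
            (fun i : Fin (n + 2) => ⟪ei n i, (ω : V (n + 2))⟫ * ⟪ei n i, (ω : V (n + 2))⟫)
            (Finset.mem_univ 0)
          rw [hn] at h3
          have h4 : ∑ i ∈ (Finset.univ.erase (0 : Fin (n + 2))),
            (Complex.I * ((⟪ei n i, (ω : V (n + 2))⟫ : ℝ) : ℂ)) *
            (Complex.I * ((⟪ei n i, (ω : V (n + 2))⟫ : ℝ) : ℂ))
            = - ((∑ i ∈ (Finset.univ.erase (0 : Fin (n + 2))),
              ⟪ei n i, (ω : V (n + 2))⟫ * ⟪ei n i, (ω : V (n + 2))⟫ : ℝ) : ℂ) := by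
            rw [Complex.ofReal_sum, ← Finset.sum_neg_distrib]
            refine Finset.sum_congr rfl fun i _ => ?_
            rw [Complex.ofReal_mul, mul_mul_mul_comm, Complex.I_mul_I]
            ring
          rw [h4]
          have h5 : (∑ i ∈ (Finset.univ.erase (0 : Fin (n + 2))),
              ⟪ei n i, (ω : V (n + 2))⟫ * ⟪ei n i, (ω : V (n + 2))⟫ : ℝ)
              = 1 - ⟪e0 n, (ω : V (n + 2))⟫ * ⟪e0 n, (ω : V (n + 2))⟫ := by
            have : ei n 0 = e0 n := rfl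
            rw [this] at h3
            linarith
          rw [h5]
          push_cast
          ring
        rw [h2, mul_mul_mul_comm Complex.I, Complex.I_mul_I]
        ring
      · exact (Q_integrable (g := fun _ : Sp (n + 2) => 1) continuous_const (u • e0 n)).neg
      · exact Q_integrable (by fun_prop) _
    · intro i _
      exact Q_integrable (by fun_prop) _
  rw [Finset.sum_congr rfl (fun i hi => gi_sq (Finset.ne_of_mem_erase hi) hu)] at hsum
  rw [Finset.sum_const, Finset.card_erase_of_mem (Finset.mem_univ _), Finset.card_univ,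
    Fintype.card_fin] at hsum
  have hu' : (u : ℂ) ≠ 0 := by exact_mod_cast hu.ne'
  have h1 : (n + 2 - 1) • ((1 / u) • J1 n u) = ((n : ℂ) + 1) * (1 / (u : ℂ) * J1 n u) := by
    have : n + 2 - 1 = n + 1 := by omega
    rw [this, nsmul_eq_mul, Complex.real_smul]
    push_cast
    ring
  rw [h1] at hsum
  have h2 : J n u + J2 n u = - (((n : ℂ) + 1) * (1 / (u : ℂ) * J1 n u)) := by
    rw [hsum]; ring
  rw [h2]
  field_simp
  ring

end Pool.Agent.Lib.MPc0f824
end

section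
open MeasureTheory Set Metric Measure
open scoped ENNReal RealInnerProductSpace

namespace Pool.Agent.Lib.MPc0f824

variable {n : ℕ}

/-- The decay exponent `(d-1)/2` for `d = n + 2`. -/
noncomputable def aa (n : ℕ) : ℝ := ((n : ℝ) + 1) / 2

theorem aa_pos (n : ℕ) : 0 < aa n := by unfold aa; positivity

noncomputable def w (n : ℕ) (u : ℝ) : ℂ := (u ^ (aa n)) • J n u
noncomputable def w1 (n : ℕ) (u : ℝ) : ℂ := (aa n * u ^ (aa n - 1)) • J n u + (u ^ (aa n)) • J1 n u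

theorem w_deriv {u : ℝ} (hu : 0 < u) : HasDerivAt (w n) (w1 n u) u := by
  have h1 : HasDerivAt (fun u : ℝ => u ^ (aa n)) (aa n * u ^ (aa n - 1)) u :=
    Real.hasDerivAt_rpow_const (Or.inl hu.ne')
  have h2 := h1.smul (J_deriv n u)
  refine h2.congr_deriv ?_
  unfold w1
  rw [add_comm]

theorem w1_deriv {u : ℝ} (hu : 0 < u) :
    HasDerivAt (w1 n) ((-(1 - aa n * (aa n - 1) / u ^ 2)) • w n u) u := by
  have h1 : HasDerivAt (fun u : ℝ => u ^ (aa n)) (aa n * u ^ (aa n - 1)) u :=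
    Real.hasDerivAt_rpow_const (Or.inl hu.ne')
  have h1' : HasDerivAt (fun u : ℝ => aa n * u ^ (aa n - 1)) (aa n * ((aa n - 1) * u ^ (aa n - 1 - 1))) u :=
    (Real.hasDerivAt_rpow_const (Or.inl hu.ne')).const_mul _
  have h2 := (h1'.smul (J_deriv n u)).add (h1.smul (J1_deriv n u))
  refine h2.congr_deriv ?_
  have hode := J_ode (n := n) hu
  have hu' : (u : ℂ) ≠ 0 := by exact_mod_cast hu.ne'
  have hJ2 : J2 n u = - J n u - (((n : ℂ) + 1) / u) * J1 n u := by
    field_simp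
    linear_combination hode
  have e1 : u ^ (aa n - 1) = u ^ (aa n) / u := by rw [Real.rpow_sub_one hu.ne']
  have e2 : u ^ (aa n - 1 - 1) = u ^ (aa n) / u / u := by
    rw [Real.rpow_sub_one hu.ne', Real.rpow_sub_one hu.ne']
  have ha : ((n : ℂ) + 1) = 2 * (aa n : ℂ) := by
    unfold aa; push_cast; ring
  rw [hJ2, e1, e2, ha]
  unfold w
  simp only [Complex.real_smul]
  push_cast
  field_simp
  ring

/-- The energy. -/
noncomputable def En (n : ℕ) (u : ℝ) : ℝ := ‖w n u‖ ^ 2 + ‖w1 n u‖ ^ 2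

theorem En_deriv {u : ℝ} (hu : 0 < u) :
    HasDerivAt (En n) (2 * (aa n * (aa n - 1) / u ^ 2) * ⟪w1 n u, w n u⟫) u := by
  have h1 := (w_deriv (n := n) hu).norm_sq
  have h2 := (w1_deriv (n := n) hu).norm_sq
  refine (h1.add h2).congr_deriv ?_
  rw [real_inner_smul_right, real_inner_comm (w1 n u) (w n u)]
  ring

theorem En_bound : ∃ K : ℝ, 0 ≤ K ∧ ∀ u : ℝ, 1 ≤ u → En n u ≤ K := by
  set c : ℝ := |aa n * (aa n - 1)| with hc
  have hc0 : 0 ≤ c := abs_nonneg _
  have hF : AntitoneOn (fun u : ℝ => En n u * Real.exp (c / u)) (Ici 1) := by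
    have hder : ∀ u : ℝ, 0 < u → HasDerivAt (fun u : ℝ => En n u * Real.exp (c / u))
        ((2 * (aa n * (aa n - 1) / u ^ 2) * ⟪w1 n u, w n u⟫) * Real.exp (c / u)
          + En n u * (Real.exp (c / u) * (-(c / u ^ 2)))) u := by
      intro u hu
      have h1 : HasDerivAt (fun u : ℝ => c / u) (-(c / u ^ 2)) u := by
        have := (hasDerivAt_inv hu.ne').const_mul c
        simp only [← div_eq_mul_inv] at this
        refine this.congr_deriv ?_
        field_simp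
      exact (En_deriv hu).mul h1.exp
    refine antitoneOn_of_deriv_nonpos (convex_Ici 1) ?_ ?_ ?_
    · intro u hu
      have : (0 : ℝ) < u := lt_of_lt_of_le one_pos hu
      exact (hder u this).continuousAt.continuousWithinAt
    · intro u hu
      rw [interior_Ici] at hu
      have : (0 : ℝ) < u := lt_trans one_pos hu
      exact (hder u this).differentiableAt.differentiableWithinAt
    · intro u hu
      rw [interior_Ici] at hu
      have hu0 : (0 : ℝ) < u := lt_trans one_pos hu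
      rw [(hder u hu0).deriv]
      have h1 : 2 * (aa n * (aa n - 1) / u ^ 2) * ⟪w1 n u, w n u⟫ ≤ c / u ^ 2 * En n u := by
        have h2 : |⟪w1 n u, w n u⟫| ≤ ‖w1 n u‖ * ‖w n u‖ := abs_real_inner_le_norm _ _
        have h3 : 2 * |⟪w1 n u, w n u⟫| ≤ En n u := by
          unfold En
          nlinarith [sq_nonneg (‖w1 n u‖ - ‖w n u‖)]
        calc 2 * (aa n * (aa n - 1) / u ^ 2) * ⟪w1 n u, w n u⟫
            ≤ |2 * (aa n * (aa n - 1) / u ^ 2) * ⟪w1 n u, w n u⟫| := le_abs_self _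
          _ = c / u ^ 2 * (2 * |⟪w1 n u, w n u⟫|) := by
              rw [abs_mul, abs_mul, abs_div, ← hc, abs_of_pos (by positivity : (0 : ℝ) < u ^ 2),
                abs_two]
              ring
          _ ≤ c / u ^ 2 * En n u := mul_le_mul_of_nonneg_left h3 (by positivity)
      have hexp := (Real.exp_pos (c / u)).le
      nlinarith [mul_le_mul_of_nonneg_right h1 hexp]
  have hE0 : ∀ u, 0 ≤ En n u := fun u => by unfold En; positivity
  refine ⟨En n 1 * Real.exp (c / 1), by have := hE0 1; positivity, fun u hu => ?_⟩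
  have h1 := hF (show (1 : ℝ) ∈ Ici (1 : ℝ) from mem_Ici.2 le_rfl) (show u ∈ Ici (1 : ℝ) from hu) hu
  simp only at h1
  have h2 : 1 ≤ Real.exp (c / u) := Real.one_le_exp (by positivity)
  calc En n u = En n u * 1 := (mul_one _).symm
    _ ≤ En n u * Real.exp (c / u) := mul_le_mul_of_nonneg_left h2 (hE0 u)
    _ ≤ _ := h1

theorem J_bound (n : ℕ) : ∃ C : ℝ, 0 < C ∧ ∀ u : ℝ, 0 ≤ u →
    ‖J n u‖ + ‖J1 n u‖ ≤ C * (1 + u) ^ (-aa n) := by
  obtain ⟨K, hK0, hK⟩ := En_bound (n := n)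
  set S : ℝ := (sg (n + 2)).real univ with hS
  have hS0 : 0 ≤ S := measureReal_nonneg
  have ha := aa_pos n
  refine ⟨2 ^ (aa n) * (2 * S + (2 + aa n) * Real.sqrt K + 1), by positivity, fun u hu => ?_⟩
  have h1u : (0 : ℝ) < 1 + u := by linarith
  have hp : (0 : ℝ) < (1 + u) ^ (-aa n) := Real.rpow_pos_of_pos h1u _
  rcases le_total u 1 with h | h
  · have h1 : (1 : ℝ) ≤ 2 ^ (aa n) * (1 + u) ^ (-aa n) := by
      rw [Real.rpow_neg h1u.le, ← div_eq_mul_inv, one_le_div (Real.rpow_pos_of_pos h1u _)]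
      exact Real.rpow_le_rpow h1u.le (by linarith) ha.le
    calc ‖J n u‖ + ‖J1 n u‖ ≤ S + S := add_le_add (J_norm_le n u) (J1_norm_le n u)
      _ ≤ (2 * S + (2 + aa n) * Real.sqrt K + 1) * 1 := by
          have := Real.sqrt_nonneg K
          nlinarith [mul_nonneg (by linarith : (0 : ℝ) ≤ 2 + aa n) this]
      _ ≤ (2 * S + (2 + aa n) * Real.sqrt K + 1) * (2 ^ (aa n) * (1 + u) ^ (-aa n)) :=
          mul_le_mul_of_nonneg_left h1 (by positivity)
      _ = _ := by ring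
  · have hu0 : 0 < u := lt_of_lt_of_le one_pos h
    have hE := hK u h
    unfold En at hE
    have hw : ‖w n u‖ ≤ Real.sqrt K := by
      apply Real.le_sqrt_of_sq_le
      nlinarith [sq_nonneg ‖w1 n u‖]
    have hw1 : ‖w1 n u‖ ≤ Real.sqrt K := by
      apply Real.le_sqrt_of_sq_le
      nlinarith [sq_nonneg ‖w n u‖]
    have hup : 0 < u ^ (aa n) := Real.rpow_pos_of_pos hu0 _
    have hJ : ‖J n u‖ = u ^ (-aa n) * ‖w n u‖ := by
      unfold w
      rw [norm_smul, Real.norm_eq_abs, abs_of_pos hup, ← mul_assoc, ← Real.rpow_add hu0]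
      simp
    have hJ1 : J1 n u = (u ^ (-aa n)) • w1 n u - (aa n / u) • J n u := by
      unfold w1
      rw [smul_add, smul_smul, smul_smul, ← Real.rpow_add hu0]
      have : u ^ (-aa n) * (aa n * u ^ (aa n - 1)) = aa n / u := by
        rw [Real.rpow_sub_one hu0.ne', Real.rpow_neg hu0.le]
        field_simp
      rw [this]
      simp
    have hnp : 0 < u ^ (-aa n) := Real.rpow_pos_of_pos hu0 _
    have hJb : ‖J n u‖ ≤ u ^ (-aa n) * Real.sqrt K := by
      rw [hJ]; exact mul_le_mul_of_nonneg_left hw hnp.le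
    have hJ1b : ‖J1 n u‖ ≤ (1 + aa n) * (u ^ (-aa n) * Real.sqrt K) := by
      rw [hJ1]
      refine (norm_sub_le _ _).trans ?_
      rw [norm_smul, norm_smul, Real.norm_eq_abs, Real.norm_eq_abs, abs_of_pos hnp,
        abs_of_pos (by positivity)]
      have h1 : aa n / u ≤ aa n := div_le_self ha.le h
      have h2 := mul_le_mul_of_nonneg_left hw1 hnp.le
      have h3 := mul_le_mul h1 hJb (norm_nonneg _) ha.le
      nlinarith
    have h2 : u ^ (-aa n) ≤ 2 ^ (aa n) * (1 + u) ^ (-aa n) := by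
      rw [Real.rpow_neg h1u.le, Real.rpow_neg hu0.le, ← div_eq_mul_inv,
        inv_le_comm₀ hup (by positivity), inv_div, div_le_iff₀ (by positivity), ← Real.mul_rpow hu0.le (by norm_num)]
      exact Real.rpow_le_rpow h1u.le (by linarith) ha.le
    have hsq := Real.sqrt_nonneg K
    calc ‖J n u‖ + ‖J1 n u‖ ≤ (2 + aa n) * Real.sqrt K * u ^ (-aa n) := by nlinarith
      _ ≤ (2 + aa n) * Real.sqrt K * (2 ^ (aa n) * (1 + u) ^ (-aa n)) :=
          mul_le_mul_of_nonneg_left h2 (by positivity)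
      _ = 2 ^ (aa n) * ((2 + aa n) * Real.sqrt K) * (1 + u) ^ (-aa n) := by ring
      _ ≤ _ := by
          apply mul_le_mul_of_nonneg_right _ hp.le
          apply mul_le_mul_of_nonneg_left _ (by positivity)
          nlinarith

end Pool.Agent.Lib.MPc0f824
end

section
open MeasureTheory Set Metric Measure
open scoped ENNReal RealInnerProductSpace ContDiff

namespace Pool.Agent.Lib.MPc0f824

theorem int_mul {χ f : ℝ → ℂ} (hχ : Continuous χ) (hs : tsupport χ ⊆ Ioo (1 / 2) 2)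
    (hf : ContinuousOn f (Ioo (1 / 2) 2)) : Integrable (fun ρ => χ ρ * f ρ) := by
  have hK : IsCompact (tsupport χ) :=
    isCompact_Icc.of_isClosed_subset (isClosed_tsupport χ) (hs.trans Ioo_subset_Icc_self)
  have h1 : (fun ρ => χ ρ * f ρ) = (tsupport χ).indicator (fun ρ => χ ρ * f ρ) := by
    funext ρ
    by_cases h : ρ ∈ tsupport χ
    · rw [indicator_of_mem h]
    · rw [indicator_of_notMem h, image_eq_zero_of_notMem_tsupport h, zero_mul]
  rw [h1, integrable_indicator_iff (isClosed_tsupport χ).measurableSet]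
  exact (hχ.continuousOn.mul (hf.mono hs)).integrableOn_compact hK

theorem tsupport_div {χ : ℝ → ℂ} : tsupport (fun ρ => χ ρ / (ρ : ℂ)) ⊆ tsupport χ := by
  apply closure_mono
  intro x hx h0
  exact hx (by simp [h0])

theorem contDiff_div {χ : ℝ → ℂ} (hχ : ContDiff ℝ ∞ χ) (hs : tsupport χ ⊆ Ioo (1 / 2) 2) :
    ContDiff ℝ ∞ (fun ρ => χ ρ / (ρ : ℂ)) := by
  rw [contDiff_iff_contDiffAt]
  intro x
  by_cases hx : x ∈ tsupport (fun ρ => χ ρ / (ρ : ℂ))
  swap
  · exact contDiffAt_const.congr_of_eventuallyEq (notMem_tsupport_iff_eventuallyEq.mp hx)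
  have hx' := hs (tsupport_div hx)
  have hx0 : (x : ℂ) ≠ 0 := by
    have : (0 : ℝ) < x := lt_trans (by norm_num) hx'.1
    exact_mod_cast this.ne'
  have h2 : ContDiff ℝ ∞ (fun ρ : ℝ => (ρ : ℂ)) := Complex.ofRealCLM.contDiff
  have h3 : ContDiffAt ℝ ∞ (fun ρ : ℝ => (ρ : ℂ)⁻¹) x := h2.contDiffAt.inv hx0
  have h4 := hχ.contDiffAt.mul h3
  refine h4.congr_of_eventuallyEq (Filter.Eventually.of_forall fun ρ => ?_)
  simp only [div_eq_mul_inv]

theorem osc {ι : Type} [Fintype ι] (c : ι → ι → ℂ) (N : ℕ) : ∀ χ : ℝ → ℂ, ContDiff ℝ ∞ χ →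
    tsupport χ ⊆ Ioo (1 / 2) 2 → ∃ C : ℝ, 0 ≤ C ∧ ∀ (φ : ι → ℝ) (P : ι → ℝ → ℂ) (B μ : ℝ),
      0 < μ → (∀ k, μ ≤ |φ k|) →
      (∀ k, ∀ ρ ∈ Ioo (1 / 2 : ℝ) 2, HasDerivAt (P k)
        (Complex.I * (φ k) * P k ρ + (1 / (ρ : ℂ)) * ∑ l, c k l * P l ρ) ρ) →
      (∀ k, ∀ ρ ∈ Ioo (1 / 2 : ℝ) 2, ‖P k ρ‖ ≤ B) →
      ∀ k, ‖∫ ρ, χ ρ * P k ρ‖ ≤ C * B * (μ ^ N)⁻¹ := by
  induction N with
  | zero =>
    intro χ hχ hs
    refine ⟨∫ ρ, ‖χ ρ‖, integral_nonneg fun _ => norm_nonneg _, ?_⟩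
    intro φ P B μ hμ hφ hP hB k
    have hχi : Integrable χ := by
      have := int_mul (f := fun _ => 1) hχ.continuous hs continuousOn_const
      simpa using this
    rw [pow_zero, inv_one, mul_one, ← integral_mul_const]
    refine norm_integral_le_of_norm_le (hχi.norm.mul_const B) (Filter.Eventually.of_forall fun ρ => ?_)
    by_cases h : ρ ∈ tsupport χ
    · rw [norm_mul]
      exact mul_le_mul_of_nonneg_left (hB k ρ (hs h)) (norm_nonneg _)
    · rw [image_eq_zero_of_notMem_tsupport h]; simp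
  | succ N ih =>
    intro χ hχ hs
    have hχ' : ContDiff ℝ ∞ (deriv χ) := (contDiff_infty_iff_deriv.1 hχ).2
    have hs' : tsupport (deriv χ) ⊆ Ioo (1 / 2) 2 := (tsupport_deriv_subset (𝕜 := ℝ)).trans hs
    obtain ⟨C1, hC1, h1⟩ := ih (deriv χ) hχ' hs'
    obtain ⟨C2, hC2, h2⟩ := ih (fun ρ => χ ρ / (ρ : ℂ)) (contDiff_div hχ hs) (tsupport_div.trans hs)
    refine ⟨C1 + (∑ k, ∑ l, ‖c k l‖) * C2, by positivity, ?_⟩
    intro φ P B μ hμ hφ hP hB k
    have hPc : ∀ l, ContinuousOn (P l) (Ioo (1 / 2) 2) := fun l ρ hρ =>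
      (hP l ρ hρ).continuousAt.continuousWithinAt
    have hinvc : ContinuousOn (fun ρ : ℝ => 1 / (ρ : ℂ)) (Ioo (1 / 2) 2) := by
      intro ρ hρ
      have hx0 : (ρ : ℂ) ≠ 0 := by
        have : (0 : ℝ) < ρ := lt_trans (by norm_num) hρ.1
        exact_mod_cast this.ne'
      exact (continuousAt_const.div Complex.continuous_ofReal.continuousAt hx0).continuousWithinAt
    have hsumc : ContinuousOn (fun ρ : ℝ => ∑ l, c k l * P l ρ) (Ioo (1 / 2) 2) :=
      continuousOn_finsetSum _ fun l _ => continuousOn_const.mul (hPc l)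
    have hB0 : 0 ≤ B := (norm_nonneg _).trans (hB k 1 ⟨by norm_num, by norm_num⟩)
    have hibp := integral_mul_deriv_eq_deriv_mul_of_integrable (u := χ) (v := P k) (u' := deriv χ)
      (v' := fun ρ => Complex.I * (φ k) * P k ρ + (1 / (ρ : ℂ)) * ∑ l, c k l * P l ρ)
      (fun x _ => (hχ.differentiable (by simp)).differentiableAt.hasDerivAt)
      (fun x hx => hP k x (hs hx))
      (int_mul hχ.continuous hs ((continuousOn_const.mul (hPc k)).add (hinvc.mul hsumc)))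
      (int_mul hχ'.continuous hs' (hPc k))
      (int_mul hχ.continuous hs (hPc k))
    have hsplit : ∫ ρ, χ ρ * (Complex.I * (φ k) * P k ρ + (1 / (ρ : ℂ)) * ∑ l, c k l * P l ρ)
        = Complex.I * (φ k) * (∫ ρ, χ ρ * P k ρ) + ∑ l, c k l * ∫ ρ, (χ ρ / (ρ : ℂ)) * P l ρ := by
      have e1 : (fun ρ : ℝ => χ ρ * (Complex.I * (φ k) * P k ρ + (1 / (ρ : ℂ)) * ∑ l, c k l * P l ρ))
          = fun ρ : ℝ => Complex.I * (φ k) * (χ ρ * P k ρ) + ∑ l, c k l * ((χ ρ / (ρ : ℂ)) * P l ρ) := by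
        funext ρ
        rw [mul_add, Finset.mul_sum, Finset.mul_sum]
        congr 1
        · ring
        · refine Finset.sum_congr rfl fun l _ => ?_
          ring
      rw [e1, integral_add, integral_const_mul, integral_finsetSum]
      · simp only [integral_const_mul]
      · intro l _
        exact (int_mul (contDiff_div hχ hs).continuous (tsupport_div.trans hs) (hPc l)).const_mul _
      · exact (int_mul hχ.continuous hs (hPc k)).const_mul _
      · exact integrable_finsetSum _ fun l _ =>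
          (int_mul (contDiff_div hχ hs).continuous (tsupport_div.trans hs) (hPc l)).const_mul _
    rw [hsplit] at hibp
    have hb1 := h1 φ P B μ hμ hφ hP hB k
    have hb2 := h2 φ P B μ hμ hφ hP hB
    have hkey : Complex.I * (φ k) * (∫ ρ, χ ρ * P k ρ)
        = - (∫ ρ, deriv χ ρ * P k ρ) - ∑ l, c k l * ∫ ρ, (χ ρ / (ρ : ℂ)) * P l ρ := by
      linear_combination hibp
    have hn : |φ k| * ‖∫ ρ, χ ρ * P k ρ‖ ≤ (C1 + (∑ k, ∑ l, ‖c k l‖) * C2) * B * (μ ^ N)⁻¹ := by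
      have e2 : |φ k| * ‖∫ ρ, χ ρ * P k ρ‖ = ‖Complex.I * (φ k) * (∫ ρ, χ ρ * P k ρ)‖ := by
        rw [norm_mul, norm_mul, Complex.norm_I, one_mul, Complex.norm_real, Real.norm_eq_abs]
      rw [e2, hkey]
      refine (norm_sub_le _ _).trans ?_
      rw [norm_neg]
      have e3 : ‖∑ l, c k l * ∫ ρ, (χ ρ / (ρ : ℂ)) * P l ρ‖
          ≤ (∑ k, ∑ l, ‖c k l‖) * C2 * B * (μ ^ N)⁻¹ := by
        refine (norm_sum_le _ _).trans ?_
        calc ∑ l, ‖c k l * ∫ ρ, (χ ρ / (ρ : ℂ)) * P l ρ‖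
            ≤ ∑ l, ‖c k l‖ * (C2 * B * (μ ^ N)⁻¹) := by
              refine Finset.sum_le_sum fun l _ => ?_
              rw [norm_mul]
              exact mul_le_mul_of_nonneg_left (hb2 l) (norm_nonneg _)
          _ = (∑ l, ‖c k l‖) * (C2 * B * (μ ^ N)⁻¹) := by rw [Finset.sum_mul]
          _ ≤ (∑ k, ∑ l, ‖c k l‖) * (C2 * B * (μ ^ N)⁻¹) := by
              apply mul_le_mul_of_nonneg_right _ (by positivity)
              exact Finset.single_le_sum (f := fun k => ∑ l, ‖c k l‖)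
                (fun i _ => Finset.sum_nonneg fun l _ => norm_nonneg _) (Finset.mem_univ k)
          _ = _ := by ring
      calc _ ≤ C1 * B * (μ ^ N)⁻¹ + (∑ k, ∑ l, ‖c k l‖) * C2 * B * (μ ^ N)⁻¹ := add_le_add hb1 e3
        _ = _ := by ring
    have h3 : μ * ‖∫ ρ, χ ρ * P k ρ‖ ≤ (C1 + (∑ k, ∑ l, ‖c k l‖) * C2) * B * (μ ^ N)⁻¹ :=
      (mul_le_mul_of_nonneg_right (hφ k) (norm_nonneg _)).trans hn
    rw [pow_succ, mul_inv, ← mul_assoc, ← div_eq_mul_inv _ μ, le_div_iff₀ hμ, mul_comm _ μ]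
    exact h3

end Pool.Agent.Lib.MPc0f824
end

section
open MeasureTheory Set Metric Measure
open scoped ENNReal RealInnerProductSpace ContDiff

namespace Pool.Agent.Lib.MPc0f824

variable {n : ℕ}

/-- The sign of a Boolean. -/
def sn (b : Bool) : ℝ := if b then 1 else -1

theorem sn_sq (b : Bool) : sn b * sn b = 1 := by cases b <;> simp [sn]

theorem sn_not (b : Bool) : sn (!b) = - sn b := by cases b <;> simp [sn]

/-- Half waves. -/
noncomputable def zz (n : ℕ) (b : Bool) (R ρ : ℝ) : ℂ :=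
  J n (R * ρ) - (sn b : ℂ) * Complex.I * J1 n (R * ρ)

theorem zz_deriv (b : Bool) {R ρ : ℝ} (hR : 0 < R) (hρ : 0 < ρ) :
    HasDerivAt (zz n b R) ((sn b : ℂ) * Complex.I * R * zz n b R ρ
      + (aa n / (ρ : ℂ)) * (zz n (!b) R ρ - zz n b R ρ)) ρ := by
  have h0 : HasDerivAt (fun ρ : ℝ => R * ρ) R ρ := by simpa using (hasDerivAt_id ρ).const_mul R
  have h1 := (J_deriv n (R * ρ)).scomp ρ h0
  have h2 := (J1_deriv n (R * ρ)).scomp ρ h0
  have h3 := h1.sub (h2.const_mul ((sn b : ℂ) * Complex.I))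
  refine h3.congr_deriv ?_
  have hode := J_ode (n := n) (u := R * ρ) (by positivity)
  have hR' : (R : ℂ) ≠ 0 := by exact_mod_cast hR.ne'
  have hρ' : (ρ : ℂ) ≠ 0 := by exact_mod_cast hρ.ne'
  have ha : ((n : ℂ) + 1) = 2 * (aa n : ℂ) := by
    unfold aa; push_cast; ring
  rw [ha] at hode
  push_cast at hode
  have hJ2 : J2 n (R * ρ) = - J n (R * ρ) - (2 * (aa n : ℂ) / (R * ρ)) * J1 n (R * ρ) := by
    field_simp
    linear_combination hode
  have hs : (sn b : ℂ) * (sn b : ℂ) = 1 := by exact_mod_cast sn_sq b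
  have hI := Complex.I_mul_I
  unfold zz
  rw [sn_not, hJ2]
  simp only [Complex.real_smul]
  push_cast
  field_simp
  linear_combination ((R : ℂ) * ρ * J1 n (R * ρ) * (sn b : ℂ) * (sn b : ℂ)) * hI - (ρ * R * J1 n (R * ρ)) * hs

theorem zz_norm (b : Bool) (R ρ : ℝ) : ‖zz n b R ρ‖ ≤ ‖J n (R * ρ)‖ + ‖J1 n (R * ρ)‖ := by
  unfold zz
  refine (norm_sub_le _ _).trans ?_
  rw [norm_mul, norm_mul, Complex.norm_I, mul_one, Complex.norm_real]
  have : ‖sn b‖ = 1 := by cases b <;> simp [sn]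
  rw [this, one_mul]

theorem J_zz (R ρ : ℝ) : J n (R * ρ) = (zz n true R ρ + zz n false R ρ) / 2 := by
  unfold zz sn
  push_cast
  simp

/-- The matrix of couplings. -/
noncomputable def cc (n : ℕ) (k l : Bool × Bool) : ℂ :=
  if l = (!k.1, k.2) then (aa n : ℂ) else if l = (k.1, !k.2) then (aa n : ℂ)
    else if l = k then -2 * (aa n : ℂ) else 0

theorem cc_sum (k : Bool × Bool) (P : Bool × Bool → ℂ) :
    ∑ l, cc n k l * P l = (aa n : ℂ) * (P (!k.1, k.2) + P (k.1, !k.2) - 2 * P k) := by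
  obtain ⟨b, b'⟩ := k
  rw [Fintype.sum_prod_type]
  simp only [Fintype.sum_bool]
  cases b <;> cases b' <;> simp [cc] <;> ring

/-- The four products. -/
noncomputable def PP (n : ℕ) (τ R S : ℝ) (k : Bool × Bool) (ρ : ℝ) : ℂ :=
  Complex.exp (Complex.I * (τ * ρ)) * (zz n k.1 R ρ * zz n k.2 S ρ)

theorem PP_deriv (τ : ℝ) {R S : ℝ} (hR : 0 < R) (hS : 0 < S) (k : Bool × Bool) {ρ : ℝ} (hρ : 0 < ρ) :
    HasDerivAt (PP n τ R S k) (Complex.I * ((τ + sn k.1 * R + sn k.2 * S : ℝ)) * PP n τ R S k ρ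
      + (1 / (ρ : ℂ)) * ∑ l, cc n k l * PP n τ R S l ρ) ρ := by
  have h1 : HasDerivAt (fun ρ : ℝ => Complex.exp (Complex.I * (τ * ρ)))
      (Complex.exp (Complex.I * (τ * ρ)) * (Complex.I * τ)) ρ := by
    have h0 : HasDerivAt (fun ρ : ℝ => Complex.I * ((τ : ℂ) * (ρ : ℂ))) (Complex.I * τ) ρ := by
      have := ((Complex.ofRealCLM.hasDerivAt (x := ρ)).const_mul (τ : ℂ)).const_mul Complex.I
      simpa using this
    exact h0.cexp
  have h2 := h1.mul ((zz_deriv (n := n) k.1 hR hρ).mul (zz_deriv (n := n) k.2 hS hρ))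
  refine h2.congr_deriv ?_
  rw [cc_sum]
  unfold PP
  simp only [Pi.mul_apply]
  push_cast
  ring

theorem R_bound (n : ℕ) : ∃ C : ℝ, 0 < C ∧ ∀ R ρ : ℝ, 0 < R → ρ ∈ Ioo (1 / 2 : ℝ) 2 →
    ‖J n (R * ρ)‖ + ‖J1 n (R * ρ)‖ ≤ C * (1 + R) ^ (-aa n) := by
  obtain ⟨C, hC, h⟩ := J_bound n
  have ha := aa_pos n
  refine ⟨C * 2 ^ (aa n), by positivity, fun R ρ hR hρ => ?_⟩
  have hρ0 : 0 < ρ := lt_trans (by norm_num) hρ.1
  refine (h (R * ρ) (by positivity)).trans ?_
  rw [mul_assoc]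
  apply mul_le_mul_of_nonneg_left _ hC.le
  have h1 : (1 + R) / 2 ≤ 1 + R * ρ := by nlinarith [hρ.1]
  have h2 : (1 + R * ρ) ^ (-aa n) ≤ ((1 + R) / 2) ^ (-aa n) :=
    Real.rpow_le_rpow_of_nonpos (by positivity) h1 (by linarith)
  refine h2.trans (le_of_eq ?_)
  rw [Real.div_rpow (by positivity) (by norm_num), Real.rpow_neg (by norm_num : (0 : ℝ) ≤ 2)]
  field_simp

/-- Distance to the four light cones. -/
noncomputable def dst (τ R S : ℝ) : ℝ :=
  min (min |τ + R + S| |τ + R - S|) (min |τ - R + S| |τ - R - S|)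

theorem dst_nonneg (τ R S : ℝ) : 0 ≤ dst τ R S := by
  unfold dst; positivity

theorem dst_le (τ R S : ℝ) (k : Bool × Bool) : dst τ R S ≤ |τ + sn k.1 * R + sn k.2 * S| := by
  obtain ⟨b, b'⟩ := k
  unfold dst
  cases b <;> cases b' <;> simp only [sn]
  · refine (min_le_right _ _).trans ((min_le_right _ _).trans (le_of_eq ?_)); congr 1; simp; ring
  · refine (min_le_right _ _).trans ((min_le_left _ _).trans (le_of_eq ?_)); congr 1; simp; ring
  · refine (min_le_left _ _).trans ((min_le_right _ _).trans (le_of_eq ?_)); congr 1; simp; ring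
  · refine (min_le_left _ _).trans ((min_le_left _ _).trans (le_of_eq ?_)); congr 1; simp

theorem osc_J (n N : ℕ) {χ : ℝ → ℂ} (hχ : ContDiff ℝ ∞ χ) (hs : tsupport χ ⊆ Ioo (1 / 2) 2) :
    ∃ C : ℝ, 0 < C ∧ ∀ τ R S : ℝ, 0 < R → 0 < S →
      ‖∫ ρ, χ ρ * (Complex.exp (Complex.I * (τ * ρ)) * (J n (R * ρ) * J n (S * ρ)))‖
        ≤ C * ((1 + R) ^ (-aa n) * (1 + S) ^ (-aa n)) * ((1 + dst τ R S) ^ N)⁻¹ := by
  obtain ⟨K, hK, hKb⟩ := R_bound n
  obtain ⟨C0, hC0, h0⟩ := osc (cc n) N χ hχ hs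
  obtain ⟨C1, hC1, h1⟩ := osc (cc n) 0 χ hχ hs
  have hχi : Integrable χ := by
    have := int_mul (f := fun _ => 1) hχ.continuous hs continuousOn_const
    simpa using this
  refine ⟨(C0 + ∫ ρ, ‖χ ρ‖) * K * K * 2 ^ N + 1, by positivity, fun τ R S hR hS => ?_⟩
  set B : ℝ := K * K * ((1 + R) ^ (-aa n) * (1 + S) ^ (-aa n)) with hB
  have hRp : 0 < (1 + R) ^ (-aa n) := Real.rpow_pos_of_pos (by linarith) _
  have hSp : 0 < (1 + S) ^ (-aa n) := Real.rpow_pos_of_pos (by linarith) _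
  have hPb : ∀ k : Bool × Bool, ∀ ρ ∈ Ioo (1 / 2 : ℝ) 2, ‖PP n τ R S k ρ‖ ≤ B := by
    intro k ρ hρ
    unfold PP
    have hexp : ‖Complex.exp (Complex.I * (τ * ρ))‖ = 1 := by
      have := expI_norm (τ * ρ)
      push_cast at this
      exact this
    rw [norm_mul, norm_mul, hexp, one_mul, hB]
    have e1 := (zz_norm (n := n) k.1 R ρ).trans (hKb R ρ hR hρ)
    have e2 := (zz_norm (n := n) k.2 S ρ).trans (hKb S ρ hS hρ)
    calc ‖zz n k.1 R ρ‖ * ‖zz n k.2 S ρ‖ ≤ (K * (1 + R) ^ (-aa n)) * (K * (1 + S) ^ (-aa n)) :=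
          mul_le_mul e1 e2 (norm_nonneg _) (by positivity)
      _ = _ := by ring
  have hB0 : 0 ≤ B := by positivity
  have hI0 : 0 ≤ ∫ ρ, ‖χ ρ‖ := integral_nonneg fun _ => norm_nonneg _
  have hD0 := dst_nonneg τ R S
  have hprod : ∀ ρ : ℝ, Complex.exp (Complex.I * (τ * ρ)) * (J n (R * ρ) * J n (S * ρ))
      = (1 / 4) * ∑ k : Bool × Bool, PP n τ R S k ρ := by
    intro ρ
    rw [J_zz R ρ, J_zz S ρ, Fintype.sum_prod_type]
    simp only [Fintype.sum_bool]
    unfold PP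
    ring
  have hPd : ∀ k, ∀ ρ ∈ Ioo (1 / 2 : ℝ) 2, HasDerivAt (PP n τ R S k)
      (Complex.I * ((τ + sn k.1 * R + sn k.2 * S : ℝ)) * PP n τ R S k ρ
      + (1 / (ρ : ℂ)) * ∑ l, cc n k l * PP n τ R S l ρ) ρ := fun k ρ hρ =>
    PP_deriv τ hR hS k (lt_trans (by norm_num) hρ.1)
  have hPi : ∀ k, Integrable (fun ρ => χ ρ * PP n τ R S k ρ) := fun k =>
    int_mul hχ.continuous hs (fun ρ hρ => (hPd k ρ hρ).continuousAt.continuousWithinAt)
  have hPt : ∀ k, ‖∫ ρ, χ ρ * PP n τ R S k ρ‖ ≤ (∫ ρ, ‖χ ρ‖) * B := by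
    intro k
    rw [← integral_mul_const]
    refine norm_integral_le_of_norm_le (hχi.norm.mul_const B) (Filter.Eventually.of_forall fun ρ => ?_)
    by_cases h : ρ ∈ tsupport χ
    · rw [norm_mul]
      exact mul_le_mul_of_nonneg_left (hPb k ρ (hs h)) (norm_nonneg _)
    · rw [image_eq_zero_of_notMem_tsupport h]; simp
  have hkey : ∀ k, ‖∫ ρ, χ ρ * PP n τ R S k ρ‖
      ≤ (C0 + ∫ ρ, ‖χ ρ‖) * B * (2 ^ N * ((1 + dst τ R S) ^ N)⁻¹) := by
    intro k
    rcases le_or_gt (dst τ R S) 1 with h | h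
    · have e1 : 1 ≤ 2 ^ N * ((1 + dst τ R S) ^ N)⁻¹ := by
        rw [← div_eq_mul_inv, one_le_div (by positivity)]
        exact pow_le_pow_left₀ (by linarith) (by linarith) N
      calc _ ≤ (∫ ρ, ‖χ ρ‖) * B := hPt k
        _ ≤ (C0 + ∫ ρ, ‖χ ρ‖) * B * 1 := by nlinarith
        _ ≤ _ := mul_le_mul_of_nonneg_left e1 (by positivity)
    · have e1 : ((dst τ R S) ^ N)⁻¹ ≤ 2 ^ N * ((1 + dst τ R S) ^ N)⁻¹ := by
        have hDp : 0 < dst τ R S := by linarith
        rw [← div_eq_mul_inv, inv_eq_one_div, div_le_div_iff₀ (by positivity) (by positivity), one_mul,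
          ← mul_pow]
        exact pow_le_pow_left₀ (by linarith) (by linarith) N
      have e2 := h0 (fun k => τ + sn k.1 * R + sn k.2 * S) (PP n τ R S) B (dst τ R S)
        (by linarith) (fun k => dst_le τ R S k) hPd hPb k
      calc _ ≤ C0 * B * ((dst τ R S) ^ N)⁻¹ := e2
        _ ≤ C0 * B * (2 ^ N * ((1 + dst τ R S) ^ N)⁻¹) := mul_le_mul_of_nonneg_left e1 (by positivity)
        _ ≤ _ := by
          apply mul_le_mul_of_nonneg_right _ (by positivity)
          nlinarith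
  have hint : ∫ ρ, χ ρ * (Complex.exp (Complex.I * (τ * ρ)) * (J n (R * ρ) * J n (S * ρ)))
      = (1 / 4) * ∑ k : Bool × Bool, ∫ ρ, χ ρ * PP n τ R S k ρ := by
    rw [← integral_finsetSum _ (fun k _ => hPi k), ← integral_const_mul]
    refine integral_congr_ae (Filter.Eventually.of_forall fun ρ => ?_)
    simp only
    rw [hprod ρ, Finset.mul_sum, Finset.mul_sum, Finset.mul_sum]
    refine Finset.sum_congr rfl fun k _ => ?_
    ring
  rw [hint, norm_mul]
  have hs4 : ‖∑ k : Bool × Bool, ∫ ρ, χ ρ * PP n τ R S k ρ‖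
      ≤ 4 * ((C0 + ∫ ρ, ‖χ ρ‖) * B * (2 ^ N * ((1 + dst τ R S) ^ N)⁻¹)) := by
    refine (norm_sum_le _ _).trans ((Finset.sum_le_sum fun k _ => hkey k).trans (le_of_eq ?_))
    rw [Finset.sum_const, Finset.card_univ]
    simp
  have hq : ‖(1 / 4 : ℂ)‖ = 1 / 4 := by simp
  rw [hq]
  have hDp : 0 < ((1 + dst τ R S) ^ N)⁻¹ := by positivity
  calc _ ≤ 1 / 4 * (4 * ((C0 + ∫ ρ, ‖χ ρ‖) * B * (2 ^ N * ((1 + dst τ R S) ^ N)⁻¹))) :=
        mul_le_mul_of_nonneg_left hs4 (by norm_num)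
    _ = ((C0 + ∫ ρ, ‖χ ρ‖) * K * K * 2 ^ N) * ((1 + R) ^ (-aa n) * (1 + S) ^ (-aa n)) *
          ((1 + dst τ R S) ^ N)⁻¹ := by rw [hB]; ring
    _ ≤ _ := by
        apply mul_le_mul_of_nonneg_right _ hDp.le
        apply mul_le_mul_of_nonneg_right _ (by positivity)
        linarith

end Pool.Agent.Lib.MPc0f824
end
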