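import Mathlib

/-! Polar coordinates in Euclidean space for general functions, and rotation invariance. -/

open MeasureTheory Set Metric Measure
open scoped ENNReal RealInnerProductSpace

namespace Pool.Agent.Lib.MPc0f824

/-- Euclidean space of dimension `d`. -/
abbrev V (d : ℕ) := EuclideanSpace ℝ (Fin d)

/-- The unit sphere. -/
abbrev Sp (d : ℕ) := sphere (0 : V d) 1

/-- The surface measure on the unit sphere. -/
noncomputable def sg (d : ℕ) : Measure (Sp d) := (volume : Measure (V d)).toSphere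

instance (d : ℕ) : IsFiniteMeasure (sg d) := by unfold sg; infer_instance

variable {d : ℕ}

theorem nontriv (hd : 2 ≤ d) : Nontrivial (V d) := by
  have : Nonempty (Fin d) := ⟨⟨0, by omega⟩⟩
  infer_instance

theorem meas_smul : Measurable (fun z : Sp d × Ioi (0 : ℝ) => z.2.1 • (z.1 : V d)) := by
  have h1 : Measurable (fun z : Sp d × Ioi (0 : ℝ) => z.2.1) :=
    measurable_subtype_coe.comp measurable_snd
  have h2 : Measurable (fun z : Sp d × Ioi (0 : ℝ) => (z.1 : V d)) :=
    measurable_subtype_coe.comp measurable_fst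
  exact h1.smul h2

theorem polar_mp (hd : 2 ≤ d) : MeasurePreserving (homeomorphUnitSphereProd (V d))
    ((volume : Measure (V d)).comap (↑)) ((sg d).prod (volumeIoiPow (d - 1))) := by
  have := nontriv hd
  have hdim : Module.finrank ℝ (V d) = d := by simp
  have h2 := (volume : Measure (V d)).measurePreserving_homeomorphUnitSphereProd
  rw [hdim] at h2
  exact h2

theorem smul_polar (x : ({(0 : V d)}ᶜ : Set (V d))) :
    ((homeomorphUnitSphereProd (V d) x).2.1 • ((homeomorphUnitSphereProd (V d) x).1 : V d)) = x.1 := by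
  have hx : (0 : ℝ) < ‖x.1‖ := norm_pos_iff.mpr (fun h => x.2 h)
  simp only [homeomorphUnitSphereProd_apply_snd_coe, homeomorphUnitSphereProd_apply_fst_coe]
  rw [smul_smul, mul_inv_cancel₀ hx.ne', one_smul]

theorem polar_lintegral (hd : 2 ≤ d) {g : V d → ℝ≥0∞} (hg : Measurable g) :
    ∫⁻ x, g x = ∫⁻ s in Ioi (0 : ℝ), ENNReal.ofReal (s ^ (d - 1)) *
      ∫⁻ ω : Sp d, g (s • (ω : V d)) ∂(sg d) := by
  have := nontriv hd
  have h1 : ∫⁻ x, g x = ∫⁻ x : ({(0 : V d)}ᶜ : Set (V d)), g x.1 ∂((volume : Measure (V d)).comap (↑)) := by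
    rw [lintegral_subtype_comap (measurableSet_singleton _).compl, restrict_compl_singleton]
  rw [h1]
  have h3 : ∫⁻ x : ({(0 : V d)}ᶜ : Set (V d)), g x.1 ∂((volume : Measure (V d)).comap (↑))
      = ∫⁻ z : Sp d × Ioi (0 : ℝ), g (z.2.1 • (z.1 : V d)) ∂((sg d).prod (volumeIoiPow (d - 1))) := by
    have h := (polar_mp hd).lintegral_comp_emb (Homeomorph.measurableEmbedding _)
      (fun z : Sp d × Ioi (0 : ℝ) => g (z.2.1 • (z.1 : V d)))
    rw [← h]
    refine lintegral_congr fun x => ?_
    rw [smul_polar]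
  rw [h3]
  have hm : Measurable (fun z : Sp d × Ioi (0 : ℝ) => g (z.2.1 • (z.1 : V d))) :=
    hg.comp meas_smul
  rw [lintegral_prod_symm _ hm.aemeasurable]
  unfold volumeIoiPow
  rw [lintegral_withDensity_eq_lintegral_mul]
  · rw [← lintegral_subtype_comap measurableSet_Ioi]
    rfl
  · exact ENNReal.measurable_ofReal.comp ((measurable_subtype_coe).pow_const _)
  · exact hm.lintegral_prod_left'

theorem polar_lintegral_radial (hd : 2 ≤ d) {g : ℝ → ℝ≥0∞} (hg : Measurable g) :
    ∫⁻ x : V d, g ‖x‖ = sg d univ * ∫⁻ s in Ioi (0 : ℝ), ENNReal.ofReal (s ^ (d - 1)) * g s := by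
  rw [polar_lintegral hd (g := fun x : V d => g ‖x‖) (hg.comp measurable_norm)]
  rw [← lintegral_const_mul]
  · refine setLIntegral_congr_fun measurableSet_Ioi fun s hs => ?_
    have h : ∀ ω : Sp d, g ‖s • (ω : V d)‖ = g s := by
      intro ω
      rw [norm_smul, norm_eq_of_mem_sphere ω, mul_one, Real.norm_eq_abs, abs_of_pos hs]
    simp only [h, lintegral_const]
    ring
  · exact (ENNReal.measurable_ofReal.comp (measurable_id.pow_const _)).mul hg

theorem integral_volumeIoiPow {F : Type*} [NormedAddCommGroup F] [NormedSpace ℝ F]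
    (n : ℕ) (h : ℝ → F) :
    ∫ s : Ioi (0 : ℝ), h s.1 ∂(volumeIoiPow n) = ∫ s in Ioi (0 : ℝ), s ^ n • h s := by
  simp only [Measure.volumeIoiPow, ENNReal.ofReal]
  rw [integral_withDensity_eq_integral_smul,
        integral_subtype_comap measurableSet_Ioi fun a ↦ Real.toNNReal (a ^ n) • h a,
        setIntegral_congr_fun measurableSet_Ioi fun x hx ↦ ?_]
  · rw [NNReal.smul_def, Real.coe_toNNReal _ (pow_nonneg hx.out.le _)]
  · exact (measurable_subtype_coe.pow_const _).real_toNNReal

/-- Polar coordinates for an integrable function. -/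
theorem polar_integral (hd : 2 ≤ d) {g : V d → ℂ} (hg : Integrable g) :
    ∫ x, g x = ∫ s in Ioi (0 : ℝ), s ^ (d - 1) • ∫ ω : Sp d, g (s • (ω : V d)) ∂(sg d) := by
  have := nontriv hd
  have h1 : ∫ x, g x = ∫ x : ({(0 : V d)}ᶜ : Set (V d)), g x.1 ∂((volume : Measure (V d)).comap (↑)) := by
    rw [integral_subtype_comap (measurableSet_singleton _).compl (fun x => g x), restrict_compl_singleton]
  have hgi : Integrable (fun x : ({(0 : V d)}ᶜ : Set (V d)) => g x.1) ((volume : Measure (V d)).comap (↑)) := by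
    have := (integrableOn_iff_comap_subtypeVal (f := g) (μ := (volume : Measure (V d)))
      (measurableSet_singleton (0 : V d)).compl).mp hg.integrableOn
    exact this
  have hcomp : (fun x : ({(0 : V d)}ᶜ : Set (V d)) => g x.1)
      = (fun z : Sp d × Ioi (0 : ℝ) => g (z.2.1 • (z.1 : V d))) ∘ (homeomorphUnitSphereProd (V d)) := by
    funext x
    simp only [Function.comp]
    rw [smul_polar]
  rw [h1, hcomp]
  have h3 := (polar_mp hd).integral_comp (Homeomorph.measurableEmbedding _)
      (fun z : Sp d × Ioi (0 : ℝ) => g (z.2.1 • (z.1 : V d)))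
  have h4 : Integrable (fun z : Sp d × Ioi (0 : ℝ) => g (z.2.1 • (z.1 : V d)))
      ((sg d).prod (volumeIoiPow (d - 1))) := by
    rw [← (polar_mp hd).integrable_comp_emb (Homeomorph.measurableEmbedding _), ← hcomp]
    exact hgi
  calc ∫ x, ((fun z : Sp d × Ioi (0 : ℝ) => g (z.2.1 • (z.1 : V d))) ∘
        (homeomorphUnitSphereProd (V d))) x ∂((volume : Measure (V d)).comap (↑))
      = ∫ z : Sp d × Ioi (0 : ℝ), g (z.2.1 • (z.1 : V d)) ∂((sg d).prod (volumeIoiPow (d - 1))) := h3
    _ = ∫ s : Ioi (0 : ℝ), ∫ ω : Sp d, g (s.1 • (ω : V d)) ∂(sg d) ∂(volumeIoiPow (d - 1)) :=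
        integral_prod_symm _ h4
    _ = _ := integral_volumeIoiPow (d - 1) (fun s => ∫ ω : Sp d, g (s • (ω : V d)) ∂(sg d))

end Pool.Agent.Lib.MPc0f824
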