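import Pool.Agent.Lib.MP_c0f824_an.Fin
import Pool.Agent.Lib.MP_c0f824_an.FT.Defs

open MeasureTheory Set Metric Measure
open scoped ENNReal RealInnerProductSpace ContDiff

namespace Pool.Agent.Lib.MPc0f824

/-- `E` has bounded `α`-Assouad characteristic: there is `C` with
`𝒩(E ∩ [a,b], δ) ≤ C ((b-a)/δ)^α` whenever `0 < δ < 1`, `[a,b] ⊆ [1,2]`, `δ ≤ b - a`. -/
def BddChar (α : ℝ) (E : Set ℝ) : Prop :=
  ∃ C : ℝ, ∀ δ a b : ℝ, 0 < δ → δ < 1 → 1 ≤ a → b ≤ 2 → δ ≤ b - a →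
    (Pool.Agent.Lib.MP_c0f824_an.FT.cov (E ∩ Icc a b) δ : ℝ) ≤ C * ((b - a) / δ) ^ α

theorem assouad_of_char {α : ℝ} {E : Set ℝ} (hE : E ⊆ Icc 1 2) (h : BddChar α E) :
    BddAssouad α E := by
  obtain ⟨C, hC⟩ := h
  refine ⟨C, fun δ a b hδ hδ1 ha hb hab => ?_⟩
  have hne : {n : ℕ | ∃ c : Fin n → ℝ, (E ∩ Icc a b) ⊆ ⋃ i, Ioo (c i) (c i + δ)}.Nonempty := by
    obtain ⟨n, hn⟩ := exists_nat_gt (2 / δ)
    refine ⟨n + 1, fun i => 1 + ((i : ℕ) : ℝ) * (δ / 2) - δ / 4, ?_⟩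
    intro x hx
    have hx' := hE hx.1
    have hx1 : 0 ≤ x - 1 := by linarith [hx'.1]
    have hx2 : x - 1 ≤ 1 := by linarith [hx'.2]
    have hfl := Nat.floor_le (a := (x - 1) / (δ / 2)) (by positivity)
    have hfl2 := Nat.lt_floor_add_one (a := (x - 1) / (δ / 2))
    have hlt : ⌊(x - 1) / (δ / 2)⌋₊ < n + 1 := by
      have h1 : (x - 1) / (δ / 2) ≤ 2 / δ := by
        rw [div_le_div_iff₀ (by positivity) hδ]
        nlinarith
      have h2 : (⌊(x - 1) / (δ / 2)⌋₊ : ℝ) < (n : ℝ) + 1 := by linarith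
      exact_mod_cast h2
    refine mem_iUnion.2 ⟨⟨⌊(x - 1) / (δ / 2)⌋₊, hlt⟩, ?_⟩
    have e1 : (⌊(x - 1) / (δ / 2)⌋₊ : ℝ) * (δ / 2) ≤ x - 1 := by
      rwa [le_div_iff₀ (by positivity)] at hfl
    have e2 : x - 1 < ((⌊(x - 1) / (δ / 2)⌋₊ : ℝ) + 1) * (δ / 2) := by
      rwa [div_lt_iff₀ (by positivity)] at hfl2
    constructor
    · show 1 + (⌊(x - 1) / (δ / 2)⌋₊ : ℝ) * (δ / 2) - δ / 4 < x
      linarith
    · show x < 1 + (⌊(x - 1) / (δ / 2)⌋₊ : ℝ) * (δ / 2) - δ / 4 + δ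
      linarith
  obtain ⟨c, hc⟩ := Nat.sInf_mem hne
  refine ⟨Finset.image c Finset.univ, ?_, ?_⟩
  · have h1 : (Finset.image c Finset.univ).card ≤ Pool.Agent.Lib.MP_c0f824_an.FT.cov (E ∩ Icc a b) δ := by
      refine Finset.card_image_le.trans ?_
      rw [Finset.card_univ, Fintype.card_fin]
      exact le_rfl
    exact le_trans (by exact_mod_cast h1) (hC δ a b hδ hδ1 ha hb hab)
  · intro x hx
    obtain ⟨i, hi⟩ := mem_iUnion.1 (hc hx)
    exact mem_iUnion₂.2 ⟨c i, Finset.mem_image_of_mem c (Finset.mem_univ i), hi⟩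

/-- For integrable functions the convolution operator is the Fourier multiplier operator. -/
theorem halfWave_eq_wave {d : ℕ} {β : ℝ → ℝ} (hβ : Pool.Agent.Lib.MP_c0f824_an.FT.IsCutoff β) (j : ℕ)
    (t : ℝ) {f : V d → ℂ} (hf : Integrable f) (x : V d) :
    Pool.Agent.Lib.MP_c0f824_an.FT.halfWave β j t f x = wave (fun r => ((β r : ℝ) : ℂ)) j t f x := by
  have hβc : Continuous (fun r => ((β r : ℝ) : ℂ)) := Complex.continuous_ofReal.comp hβ.smooth.continuous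
  have hsm : ContDiff ℝ ∞ (fun r => ((β r : ℝ) : ℂ)) := Complex.ofRealCLM.contDiff.comp hβ.smooth
  have hsupp : tsupport (fun r => ((β r : ℝ) : ℂ)) ⊆ Ioo (1 / 2) 2 :=
    (tsupport_comp_subset (g := fun r : ℝ => (r : ℂ)) (by simp) β).trans hβ.supp
  have hint : Integrable (fun ξ : V d => ((β (‖ξ‖ / 2 ^ j) : ℝ) : ℂ)) := beta_integrable hsm hsupp d j
  have harg : ∀ ξ : V d, (2 : ℝ) ^ (-(j : ℝ)) * ‖ξ‖ = ‖ξ‖ / 2 ^ j := by
    intro ξ
    rw [Real.rpow_neg (by norm_num), Real.rpow_natCast]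
    ring
  unfold Pool.Agent.Lib.MP_c0f824_an.FT.halfWave Pool.Agent.Lib.MP_c0f824_an.FT.ft wave kern
  simp only [harg]
  set c : ℂ := (((2 * Real.pi) ^ d : ℝ) : ℂ)⁻¹ with hc
  set Φ : V d → V d → ℂ := fun ξ y =>
    Complex.exp (Complex.I * ((⟪x - y, ξ⟫ + t * ‖ξ‖ : ℝ) : ℂ)) * (((β (‖ξ‖ / 2 ^ j) : ℝ) : ℂ) * f y) with hΦ
  have hexp : ∀ ξ y : V d, Complex.exp (Complex.I * ((inner ℝ x ξ : ℝ) : ℂ)) *
      Complex.exp (Complex.I * ((t * ‖ξ‖ : ℝ) : ℂ)) * Complex.exp (-(Complex.I * ((inner ℝ y ξ : ℝ) : ℂ))) =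
      Complex.exp (Complex.I * ((⟪x - y, ξ⟫ + t * ‖ξ‖ : ℝ) : ℂ)) := by
    intro ξ y
    rw [← Complex.exp_add, ← Complex.exp_add]
    congr 1
    rw [inner_sub_left]
    push_cast
    ring
  have hprod : Integrable (Function.uncurry Φ) (volume.prod volume) := by
    have h1 : Integrable (fun z : V d × V d => ((β (‖z.1‖ / 2 ^ j) : ℝ) : ℂ) * f z.2) (volume.prod volume) :=
      hint.mul_prod hf
    refine h1.mono ?_ (Filter.Eventually.of_forall fun z => ?_)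
    · refine AEStronglyMeasurable.mul ?_ h1.aestronglyMeasurable
      apply Continuous.aestronglyMeasurable
      fun_prop
    · simp only [Function.uncurry, hΦ]
      rw [norm_mul, mul_comm Complex.I, Complex.norm_exp_ofReal_mul_I, one_mul]
  have hL : ∫ ξ : V d, Complex.exp (Complex.I * ((inner ℝ x ξ : ℝ) : ℂ)) *
      Complex.exp (Complex.I * ((t * ‖ξ‖ : ℝ) : ℂ)) * ((β (‖ξ‖ / 2 ^ j) : ℝ) : ℂ) *
      ∫ y, Complex.exp (-(Complex.I * ((inner ℝ y ξ : ℝ) : ℂ))) * f y =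
      ∫ ξ, ∫ y, Φ ξ y := by
    refine integral_congr_ae (Filter.Eventually.of_forall fun ξ => ?_)
    simp only
    rw [← integral_const_mul]
    refine integral_congr_ae (Filter.Eventually.of_forall fun y => ?_)
    simp only [hΦ]
    rw [← hexp ξ y]
    ring
  rw [hL, integral_integral_swap hprod, ← integral_const_mul]
  refine integral_congr_ae (Filter.Eventually.of_forall fun y => ?_)
  simp only [hΦ]
  rw [mul_assoc c, ← integral_mul_const]
  congr 1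
  refine integral_congr_ae (Filter.Eventually.of_forall fun ξ => ?_)
  simp only
  ring

/-- The inequality `(∗)` for radial functions: with one constant `C`, for all `j ≥ 1`, all
`2^{-j}`-separated subsets `F` of `E` and all radial functions `f(x) = f₀(‖x‖)`. -/
def RadIneq (d : ℕ) (β : ℝ → ℝ) (E : Set ℝ) (p q s : ℝ) : Prop :=
  ∃ C : ℝ, ∀ j : ℕ, 1 ≤ j → ∀ F : Set ℝ, F ⊆ E →
    Pool.Agent.Lib.MP_c0f824_an.FT.Sep ((2 : ℝ) ^ (-(j : ℝ))) F →
    ∀ f₀ : ℝ → ℂ, Measurable f₀ →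
      (∑' t : F, eLpNorm (wave (fun r => ((β r : ℝ) : ℂ)) j t (fun x : V d => f₀ ‖x‖))
        (ENNReal.ofReal q) volume ^ q) ^ (1 / q) ≤
      ENNReal.ofReal (C * (2 : ℝ) ^ ((j : ℝ) * s)) *
        eLpNorm (fun x : V d => f₀ ‖x‖) (ENNReal.ofReal p) volume

theorem radial_all {d : ℕ} (hd : 2 ≤ d) {α : ℝ} (hα : 0 < α) {β : ℝ → ℝ}
    (hβ : Pool.Agent.Lib.MP_c0f824_an.FT.IsCutoff β) {E : Set ℝ} (hE : E ⊆ Icc 1 2)
    (hA : BddChar α E) {p q s : ℝ} (hp : 1 ≤ p) (hpq : p ≤ q)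
    (h1 : sRad d α p q ≤ s) (h2 : q = qc d α → 1 / p - (1 - α) / q < s) : RadIneq d β E p q s := by
  obtain ⟨n, rfl⟩ : ∃ n, d = n + 2 := ⟨d - 2, by omega⟩
  have hsm : ContDiff ℝ ∞ (fun r => ((β r : ℝ) : ℂ)) := Complex.ofRealCLM.contDiff.comp hβ.smooth
  have hsupp : tsupport (fun r => ((β r : ℝ) : ℂ)) ⊆ Ioo (1 / 2) 2 :=
    (tsupport_comp_subset (g := fun r : ℝ => (r : ℂ)) (by simp) β).trans hβ.supp
  have hp0 : 0 < p := by linarith
  have hq0 : 0 < q := by linarith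
  obtain ⟨C, hC, h⟩ := radial_finite hsm hsupp hα hE (assouad_of_char hE hA) hp hpq h1 h2
  refine ⟨C ^ (1 / q), fun j hj F hF hsep f₀ hf => ?_⟩
  have hlam : (0 : ℝ) < 2 ^ j := by positivity
  have hpow : ∀ g : V (n + 2) → ℂ, ∀ r : ℝ, 0 < r →
      eLpNorm g (ENNReal.ofReal r) volume = (∫⁻ x, ‖g x‖ₑ ^ r) ^ (1 / r) := by
    intro g r hr
    rw [eLpNorm_eq_lintegral_rpow_enorm_toReal (by simp [hr]) ENNReal.ofReal_ne_top,
      ENNReal.toReal_ofReal hr.le]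
  have hpow' : ∀ g : V (n + 2) → ℂ, eLpNorm g (ENNReal.ofReal q) volume ^ q = ∫⁻ x, ‖g x‖ₑ ^ q := by
    intro g
    rw [hpow g q hq0, ← ENNReal.rpow_mul, one_div, inv_mul_cancel₀ hq0.ne', ENNReal.rpow_one]
  have hsum : (∑' t : F, eLpNorm (wave (fun r => ((β r : ℝ) : ℂ)) j t (fun x : V (n + 2) => f₀ ‖x‖))
        (ENNReal.ofReal q) volume ^ q) ≤
      ENNReal.ofReal (C * ((2 : ℝ) ^ j) ^ (q * s)) * (∫⁻ x : V (n + 2), ‖f₀ ‖x‖‖ₑ ^ p) ^ (q / p) := by
    refine ENNReal.summable.tsum_le_of_sum_le fun T => ?_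
    have h3 := h j (T.map (Function.Embedding.subtype _)) hj (by
      intro t ht
      obtain ⟨a, _, rfl⟩ := Finset.mem_map.1 ht
      exact hF a.2) (by
      intro t ht t' ht' hne
      obtain ⟨a, _, rfl⟩ := Finset.mem_map.1 ht
      obtain ⟨b, _, rfl⟩ := Finset.mem_map.1 ht'
      have h4 := hsep _ a.2 _ b.2 hne
      rwa [Real.rpow_neg (by norm_num), Real.rpow_natCast, ← one_div] at h4) f₀ hf
    rw [Finset.sum_map] at h3
    refine le_trans (le_of_eq ?_) h3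
    refine Finset.sum_congr rfl fun t _ => ?_
    rw [hpow']
    rfl
  calc _ ≤ (ENNReal.ofReal (C * ((2 : ℝ) ^ j) ^ (q * s)) *
        (∫⁻ x : V (n + 2), ‖f₀ ‖x‖‖ₑ ^ p) ^ (q / p)) ^ (1 / q) :=
        ENNReal.rpow_le_rpow hsum (by positivity)
    _ = _ := by
        rw [ENNReal.mul_rpow_of_nonneg _ _ (by positivity), ← ENNReal.rpow_mul, hpow _ p hp0,
          ENNReal.ofReal_rpow_of_nonneg (by positivity) (by positivity)]
        have e1 : (C * ((2 : ℝ) ^ j) ^ (q * s)) ^ (1 / q) = C ^ (1 / q) * (2 : ℝ) ^ ((j : ℝ) * s) := by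
          rw [Real.mul_rpow hC.le (by positivity), ← Real.rpow_mul hlam.le,
            ← Real.rpow_natCast 2 j, ← Real.rpow_mul (by norm_num)]
          congr 2
          field_simp
        have e2 : q / p * (1 / q) = 1 / p := by field_simp
        rw [e1, e2]

theorem sRad_le_sc {d : ℕ} {α : ℝ} (hd : 2 ≤ d) {p q : ℝ} (hp : 1 ≤ p) (hpq : p ≤ q) :
    sRad d α p q ≤ Pool.Agent.Lib.MP_c0f824_an.FT.sc d α p q ∧
      (p < q → 1 / p - (1 - α) / q < Pool.Agent.Lib.MP_c0f824_an.FT.sc d α p q) := by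
  have hp0 : 0 < p := by linarith
  have hq0 : 0 < q := by linarith
  have hd1 : (0 : ℝ) < (d : ℝ) - 1 := by
    have : (2 : ℝ) ≤ d := by exact_mod_cast hd
    linarith
  have key : Pool.Agent.Lib.MP_c0f824_an.FT.s2 d α p q - (1 / p - (1 - α) / q) =
      ((d : ℝ) - 1) / 2 * (1 / p - 1 / q) := by
    unfold Pool.Agent.Lib.MP_c0f824_an.FT.s2
    field_simp
    ring
  have hle : 1 / q ≤ 1 / p := one_div_le_one_div_of_le hp0 hpq
  have h2 : Pool.Agent.Lib.MP_c0f824_an.FT.s2 d α p q ≤ Pool.Agent.Lib.MP_c0f824_an.FT.sc d α p q :=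
    (le_max_left _ _).trans (le_max_right _ _)
  refine ⟨?_, fun hlt => ?_⟩
  · refine max_le (le_max_left _ _) (max_le ?_ ?_)
    · exact (le_max_right _ _).trans (le_max_right _ _)
    · have : 0 ≤ ((d : ℝ) - 1) / 2 * (1 / p - 1 / q) := mul_nonneg (by linarith) (by linarith)
      linarith
  · have hlt' : 1 / q < 1 / p := one_div_lt_one_div_of_lt hp0 hlt
    have : 0 < ((d : ℝ) - 1) / 2 * (1 / p - 1 / q) := mul_pos (by linarith) (by linarith)
    linarith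

theorem onL_range {d : ℕ} {α : ℝ} (hd : 2 ≤ d) (hα : 0 < α) {p q : ℝ} (hp : 0 < p)
    (hL : Pool.Agent.Lib.MP_c0f824_an.FT.OnL d α p q)
    (hq : Pool.Agent.Lib.MP_c0f824_an.FT.qc d α < q) : 1 ≤ p ∧ p < q := by
  have hm : (0 : ℝ) < (d : ℝ) - 1 := by
    have : (2 : ℝ) ≤ d := by exact_mod_cast hd
    linarith
  unfold Pool.Agent.Lib.MP_c0f824_an.FT.OnL at hL
  unfold Pool.Agent.Lib.MP_c0f824_an.FT.qc at hq
  set m : ℝ := (d : ℝ) - 1 with hmdef
  have hq0 : 0 < q := lt_trans (by positivity) hq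
  rw [div_lt_iff₀ hm] at hq
  have h1 : (m + 2 * α) * p = m * q * (p - 1) := by
    field_simp at hL
    linarith
  have hmq : 0 < m * q := by positivity
  constructor
  · by_contra hcon
    rw [not_le] at hcon
    have : m * q * (p - 1) < 0 := mul_neg_of_pos_of_neg hmq (by linarith)
    have : 0 < (m + 2 * α) * p := by positivity
    linarith
  · by_contra hcon
    rw [not_lt] at hcon
    have h2 : m * q * p - (m + 2 * α) * p = m * q := by linarith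
    have h3 : (m * q - (m + 2 * α)) * p = m * q := by linarith
    have h4 : m < m * q - (m + 2 * α) := by nlinarith
    have h5 : m * p < m * q := by
      calc m * p < (m * q - (m + 2 * α)) * p := mul_lt_mul_of_pos_right h4 hp
        _ = m * q := h3
    have h6 := lt_of_mul_lt_mul_left h5 hm.le
    linarith

end Pool.Agent.Lib.MPc0f824
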