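import Pool.Agent.Lib.MP_c0f824_an.Wgt

open MeasureTheory Set Metric Measure
open scoped ENNReal RealInnerProductSpace ContDiff

namespace Pool.Agent.Lib.MPc0f824

/-- The frequency localised half wave propagator as a convolution. -/
noncomputable def wave {d : ℕ} (β : ℝ → ℂ) (j : ℕ) (t : ℝ) (f : V d → ℂ) (x : V d) : ℂ :=
  ∫ y, kern d β j t (x - y) * f y

section
variable {n : ℕ} {β : ℝ → ℂ} (hβ : ContDiff ℝ ∞ β) (hs : tsupport β ⊆ Ioo (1 / 2) 2)
include hβ hs

/-- Reduction to one variable. -/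
theorem wave_le (n N : ℕ) : ∃ C : ℝ, 0 < C ∧ ∀ (j : ℕ) (t : ℝ) (x : V (n + 2)) (f₀ : ℝ → ℂ),
    0 < ‖x‖ →
    ‖wave β j t (fun y : V (n + 2) => f₀ ‖y‖) x‖ₑ ≤ ∫⁻ s in Ioi (0 : ℝ),
      ENNReal.ofReal (C * ((2 : ℝ) ^ j) ^ (n + 2) * ((1 + 2 ^ j * ‖x‖) ^ (-aa n) * (1 + 2 ^ j * s) ^ (-aa n)) *
        ((1 + dst (2 ^ j * t) (2 ^ j * ‖x‖) (2 ^ j * s)) ^ N)⁻¹ * s ^ (n + 1)) * ‖f₀ s‖ₑ := by
  obtain ⟨C, hC, h⟩ := kern_sphere_bound hβ hs n N
  refine ⟨C, hC, fun j t x f₀ hx => ?_⟩
  by_cases hi : Integrable (fun y : V (n + 2) => kern (n + 2) β j t (x - y) * f₀ ‖y‖)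
  · unfold wave
    rw [polar_integral (by omega) hi]
    refine (enorm_integral_le_lintegral_enorm _).trans ?_
    refine lintegral_mono_ae ?_
    filter_upwards [self_mem_ae_restrict measurableSet_Ioi] with s hs0
    have hs0' : (0 : ℝ) < s := hs0
    have h1 : ∫ om : Sp (n + 2), kern (n + 2) β j t (x - s • (om : V (n + 2))) * f₀ ‖s • (om : V (n + 2))‖ ∂(sg (n + 2))
        = (∫ om : Sp (n + 2), kern (n + 2) β j t (x - s • (om : V (n + 2))) ∂(sg (n + 2))) * f₀ s := by
      rw [← integral_mul_const]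
      refine integral_congr_ae (Filter.Eventually.of_forall fun om => ?_)
      simp only
      rw [norm_smul, norm_eq_of_mem_sphere om, mul_one, Real.norm_eq_abs, abs_of_pos hs0']
    rw [h1, enorm_smul, enorm_mul, ← mul_assoc]
    gcongr
    have h2 := h j t s x hs0' hx
    have hnat : n + 2 - 1 = n + 1 := by omega
    rw [hnat, ← ofReal_norm, ← ofReal_norm, ← ENNReal.ofReal_mul (norm_nonneg _)]
    apply ENNReal.ofReal_le_ofReal
    rw [Real.norm_eq_abs, abs_of_pos (by positivity), mul_comm]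
    exact mul_le_mul_of_nonneg_right h2 (by positivity)
  · unfold wave
    rw [integral_undef hi]
    simp

end

/-- Integral of the model weight. -/
noncomputable def GG : ℝ := ∫ v : ℝ, ((1 + |v|) ^ 2)⁻¹

theorem g_integrable : Integrable (fun v : ℝ => ((1 + |v|) ^ 2)⁻¹) := by
  have h := integrable_one_add_norm (E := ℝ) (μ := volume) (r := 2) (by simp)
  refine h.congr (Filter.Eventually.of_forall fun v => ?_)
  simp only [Real.norm_eq_abs]
  rw [Real.rpow_neg (by positivity)]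
  norm_cast

theorem GG_nonneg : 0 ≤ GG := integral_nonneg fun v => by positivity

theorem g_lintegral {lam : ℝ} (hl : 0 < lam) (c e : ℝ) (he : e = 1 ∨ e = -1) :
    ∫⁻ r : ℝ, ENNReal.ofReal (lam * ((1 + |lam * (c + e * r)|) ^ 2)⁻¹) = ENNReal.ofReal GG := by
  have he0 : e ≠ 0 := by rcases he with h | h <;> rw [h] <;> norm_num
  have heabs : |e| = 1 := by rcases he with h | h <;> rw [h] <;> norm_num
  have h1 : Integrable (fun r : ℝ => ((1 + |lam * (c + e * r)|) ^ 2)⁻¹) := by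
    have h2 := (g_integrable.comp_mul_left' hl.ne').comp_add_left c
    have h3 := h2.comp_mul_left' he0
    exact h3
  rw [← ofReal_integral_eq_lintegral_ofReal (h1.const_mul lam)
    (Filter.Eventually.of_forall fun r => by positivity)]
  congr 1
  rw [integral_const_mul]
  have h4 := Measure.integral_comp_mul_left (fun r : ℝ => ((1 + |lam * (c + r)|) ^ 2)⁻¹) e
  rw [h4, abs_inv, heabs, inv_one, one_smul]
  have h5 := integral_add_left_eq_self (μ := (volume : Measure ℝ)) (fun r : ℝ => ((1 + |lam * r|) ^ 2)⁻¹) c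
  rw [h5]
  have h6 := Measure.integral_comp_mul_left (fun r : ℝ => ((1 + |r|) ^ 2)⁻¹) lam
  rw [h6, smul_eq_mul, abs_of_pos (by positivity), ← mul_assoc, mul_inv_cancel₀ hl.ne', one_mul]
  rfl

theorem dst_inv_le (t r s lam : ℝ) : ((1 + dst (lam * t) (lam * r) (lam * s)) ^ 2)⁻¹ ≤
    ((1 + |lam * ((t + s) + 1 * r)|) ^ 2)⁻¹ + ((1 + |lam * ((t - s) + 1 * r)|) ^ 2)⁻¹ +
    ((1 + |lam * ((t + s) + (-1) * r)|) ^ 2)⁻¹ + ((1 + |lam * ((t - s) + (-1) * r)|) ^ 2)⁻¹ := by
  have e1 : lam * ((t + s) + 1 * r) = lam * t + lam * r + lam * s := by ring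
  have e2 : lam * ((t - s) + 1 * r) = lam * t + lam * r - lam * s := by ring
  have e3 : lam * ((t + s) + (-1) * r) = lam * t - lam * r + lam * s := by ring
  have e4 : lam * ((t - s) + (-1) * r) = lam * t - lam * r - lam * s := by ring
  rw [e1, e2, e3, e4]
  have p1 : 0 ≤ ((1 + |lam * t + lam * r + lam * s|) ^ 2)⁻¹ := by positivity
  have p2 : 0 ≤ ((1 + |lam * t + lam * r - lam * s|) ^ 2)⁻¹ := by positivity
  have p3 : 0 ≤ ((1 + |lam * t - lam * r + lam * s|) ^ 2)⁻¹ := by positivity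
  have p4 : 0 ≤ ((1 + |lam * t - lam * r - lam * s|) ^ 2)⁻¹ := by positivity
  unfold dst
  rcases min_choice (min |lam * t + lam * r + lam * s| |lam * t + lam * r - lam * s|)
    (min |lam * t - lam * r + lam * s| |lam * t - lam * r - lam * s|) with h | h
  · rw [h]
    rcases min_choice |lam * t + lam * r + lam * s| |lam * t + lam * r - lam * s| with h' | h' <;> rw [h'] <;> linarith
  · rw [h]
    rcases min_choice |lam * t - lam * r + lam * s| |lam * t - lam * r - lam * s| with h' | h' <;> rw [h'] <;> linarith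

theorem dst_swap (τ R S : ℝ) : dst τ R S = dst τ S R := by
  unfold dst
  have e1 : τ + R + S = τ + S + R := by ring
  have e2 : τ + R - S = τ - S + R := by ring
  have e3 : τ - R + S = τ + S - R := by ring
  have e4 : τ - R - S = τ - S - R := by ring
  rw [e1, e2, e3, e4]
  rw [min_assoc, min_assoc]
  congr 1
  rw [← min_assoc, ← min_assoc, min_comm |τ - S + R| |τ + S - R|]

/-- The model kernel. -/
noncomputable def kk (lam : ℝ) (M : ℕ) (t r s : ℝ) : ℝ :=
  lam * ((1 + dst (lam * t) (lam * r) (lam * s)) ^ M)⁻¹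

theorem dst_cont : Continuous (fun z : ℝ × ℝ × ℝ => dst z.1 z.2.1 z.2.2) := by
  unfold dst; fun_prop

theorem kk_cont (lam t : ℝ) (M : ℕ) : Continuous (fun z : ℝ × ℝ => kk lam M t z.1 z.2) := by
  unfold kk
  have h : Continuous (fun z : ℝ × ℝ => dst (lam * t) (lam * z.1) (lam * z.2)) := by
    unfold dst; fun_prop
  refine continuous_const.mul (Continuous.inv₀ ?_ ?_)
  · fun_prop
  · intro z
    have := dst_nonneg (lam * t) (lam * z.1) (lam * z.2)
    positivity

theorem kk_nonneg {lam : ℝ} (hl : 0 < lam) (M : ℕ) (t r s : ℝ) : 0 ≤ kk lam M t r s := by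
  unfold kk
  have := dst_nonneg (lam * t) (lam * r) (lam * s)
  positivity

theorem kk_le_lam {lam : ℝ} (hl : 0 < lam) (M : ℕ) (t r s : ℝ) : kk lam M t r s ≤ lam := by
  unfold kk
  have := dst_nonneg (lam * t) (lam * r) (lam * s)
  have h1 : ((1 + dst (lam * t) (lam * r) (lam * s)) ^ M)⁻¹ ≤ 1 :=
    inv_le_one_of_one_le₀ (one_le_pow₀ (by linarith))
  calc _ ≤ lam * 1 := mul_le_mul_of_nonneg_left h1 hl.le
    _ = lam := mul_one _

theorem kk_two_lintegral_r {lam : ℝ} (hl : 0 < lam) (t s : ℝ) :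
    ∫⁻ r in Ioi (0 : ℝ), ENNReal.ofReal (kk lam 2 t r s) ≤ 4 * ENNReal.ofReal GG := by
  refine (setLIntegral_le_lintegral _ _).trans ?_
  have h0 : ∀ c e : ℝ, Measurable (fun r : ℝ => ENNReal.ofReal (lam * ((1 + |lam * (c + e * r)|) ^ 2)⁻¹)) := by
    intro c e
    apply ENNReal.measurable_ofReal.comp
    have : Continuous (fun r : ℝ => lam * ((1 + |lam * (c + e * r)|) ^ 2)⁻¹) := by
      refine continuous_const.mul (Continuous.inv₀ (by fun_prop) ?_)
      intro r; positivity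
    exact this.measurable
  calc ∫⁻ r, ENNReal.ofReal (kk lam 2 t r s)
      ≤ ∫⁻ r, (ENNReal.ofReal (lam * ((1 + |lam * ((t + s) + 1 * r)|) ^ 2)⁻¹) +
        ENNReal.ofReal (lam * ((1 + |lam * ((t - s) + 1 * r)|) ^ 2)⁻¹) +
        ENNReal.ofReal (lam * ((1 + |lam * ((t + s) + (-1) * r)|) ^ 2)⁻¹) +
        ENNReal.ofReal (lam * ((1 + |lam * ((t - s) + (-1) * r)|) ^ 2)⁻¹)) := by
        refine lintegral_mono fun r => ?_
        rw [← ENNReal.ofReal_add (by positivity) (by positivity),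
          ← ENNReal.ofReal_add (by positivity) (by positivity),
          ← ENNReal.ofReal_add (by positivity) (by positivity)]
        apply ENNReal.ofReal_le_ofReal
        unfold kk
        rw [← mul_add, ← mul_add, ← mul_add]
        exact mul_le_mul_of_nonneg_left (dst_inv_le t r s lam) hl.le
    _ = ENNReal.ofReal GG + ENNReal.ofReal GG + ENNReal.ofReal GG + ENNReal.ofReal GG := by
        rw [lintegral_add_right _ (h0 _ _), lintegral_add_right _ (h0 _ _), lintegral_add_right _ (h0 _ _)]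
        rw [g_lintegral hl _ _ (Or.inl rfl), g_lintegral hl _ _ (Or.inl rfl), g_lintegral hl _ _ (Or.inr rfl),
          g_lintegral hl _ _ (Or.inr rfl)]
    _ = 4 * ENNReal.ofReal GG := by ring

theorem kk_mono {lam : ℝ} (hl : 0 < lam) {M : ℕ} (hM : 2 ≤ M) (t r s : ℝ) : kk lam M t r s ≤ kk lam 2 t r s := by
  unfold kk
  have := dst_nonneg (lam * t) (lam * r) (lam * s)
  apply mul_le_mul_of_nonneg_left _ hl.le
  apply inv_anti₀ (by positivity)
  exact pow_le_pow_right₀ (by linarith) hM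

theorem kk_lintegral_s {lam : ℝ} (hl : 0 < lam) {M : ℕ} (hM : 2 ≤ M) (t r : ℝ) :
    ∫⁻ s in Ioi (0 : ℝ), ENNReal.ofReal (kk lam M t r s) ≤ 4 * ENNReal.ofReal GG := by
  have h := kk_two_lintegral_r hl t r
  refine le_trans (lintegral_mono fun s => ENNReal.ofReal_le_ofReal ?_) h
  refine (kk_mono hl hM t r s).trans (le_of_eq ?_)
  unfold kk
  rw [dst_swap]

end Pool.Agent.Lib.MPc0f824
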