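import Mathlib
import Pool.Agent.Lib.MP_c0f824_an.Kern

section
open Set

namespace Pool.Agent.Lib.MPc0f824

/-- Bounded `α`-Assouad characteristic. -/
def BddAssouad (α : ℝ) (E : Set ℝ) : Prop :=
  ∃ C : ℝ, ∀ δ a b : ℝ, 0 < δ → δ < 1 → 1 ≤ a → b ≤ 2 → δ ≤ b - a →
    ∃ F : Finset ℝ, (F.card : ℝ) ≤ C * ((b - a) / δ) ^ α ∧ E ∩ Icc a b ⊆ ⋃ c ∈ F, Ioo c (c + δ)

theorem card_le {α : ℝ} {E : Set ℝ} {C : ℝ}
    (hC : ∀ δ a b : ℝ, 0 < δ → δ < 1 → 1 ≤ a → b ≤ 2 → δ ≤ b - a →
    ∃ F : Finset ℝ, (F.card : ℝ) ≤ C * ((b - a) / δ) ^ α ∧ E ∩ Icc a b ⊆ ⋃ c ∈ F, Ioo c (c + δ))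
    {δ a b : ℝ} (hδ : 0 < δ) (hδ1 : δ < 1) (ha : 1 ≤ a) (hb : b ≤ 2) (hab : δ ≤ b - a)
    {T : Finset ℝ} (hT : ∀ t ∈ T, t ∈ E ∧ t ∈ Icc a b)
    (hsep : ∀ t ∈ T, ∀ t' ∈ T, t ≠ t' → δ ≤ |t - t'|) :
    (T.card : ℝ) ≤ C * ((b - a) / δ) ^ α := by
  obtain ⟨F, hF, hcov⟩ := hC δ a b hδ hδ1 ha hb hab
  refine le_trans ?_ hF
  norm_cast
  refine Finset.card_le_card_of_forall_subsingleton (fun t c => t ∈ Ioo c (c + δ)) ?_ ?_
  · intro t ht
    have h1 := hcov ⟨(hT t ht).1, (hT t ht).2⟩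
    simp only [mem_iUnion] at h1
    obtain ⟨c, hc, h2⟩ := h1
    exact ⟨c, hc, h2⟩
  · intro c _ t ht t' ht'
    by_contra hne
    have h1 := hsep t ht.1 t' ht'.1 hne
    have h2 := ht.2
    have h3 := ht'.2
    simp only [mem_Ioo] at h2 h3
    have h4 : |t - t'| < δ := by rw [abs_lt]; constructor <;> linarith
    linarith

/-- The weighted count. -/
theorem sum_weights {α : ℝ} (hα : 0 < α) {E : Set ℝ} (hE : E ⊆ Icc 1 2) (hA : BddAssouad α E) :
    ∃ C : ℝ, 0 < C ∧ ∀ (j : ℕ) (T : Finset ℝ), 1 ≤ j → (∀ t ∈ T, t ∈ E) →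
      (∀ t ∈ T, ∀ t' ∈ T, t ≠ t' → 1 / 2 ^ j ≤ |t - t'|) →
      ((T.card : ℝ) ≤ C * ((2 : ℝ) ^ j) ^ α ∧ ∀ κ : ℝ, 0 ≤ κ → ∀ s : ℝ,
        ∑ t ∈ T, (1 + 2 ^ j * |t - s|) ^ (-κ)
          ≤ C * (∑ i ∈ Finset.range (j + 1), ((2 : ℝ) ^ (α - κ)) ^ i)) := by
  obtain ⟨C0, hC0⟩ := hA
  set C : ℝ := max C0 0 + 1 with hCdef
  have hC0C : C0 ≤ C := by rw [hCdef]; linarith [le_max_left C0 0]
  have hC1 : 1 ≤ C := by rw [hCdef]; linarith [le_max_right C0 0]
  refine ⟨C * 4 ^ α, by positivity, fun j T hj hT hsep => ?_⟩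
  have hlam : (0 : ℝ) < 2 ^ j := by positivity
  have hδ : (0 : ℝ) < 1 / 2 ^ j := by positivity
  have hδ1 : (1 : ℝ) / 2 ^ j < 1 := by
    rw [div_lt_one hlam]
    exact one_lt_pow₀ (by norm_num) (by omega)
  have h4 : (1 : ℝ) ≤ 4 ^ α := Real.one_le_rpow (by norm_num) hα.le
  have hcard : (T.card : ℝ) ≤ C * ((2 : ℝ) ^ j) ^ α := by
    have h1 := card_le hC0 (a := 1) (b := 2) hδ hδ1 le_rfl le_rfl (by linarith) (T := T)
      (fun t ht => ⟨hT t ht, hE (hT t ht)⟩) hsep
    have h2 : ((2 : ℝ) - 1) / (1 / 2 ^ j) = 2 ^ j := by field_simp; norm_num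
    rw [h2] at h1
    exact h1.trans (mul_le_mul_of_nonneg_right hC0C (by positivity))
  refine ⟨hcard.trans ?_, fun κ hκ s => ?_⟩
  · have : C * ((2 : ℝ) ^ j) ^ α * 1 ≤ C * ((2 : ℝ) ^ j) ^ α * 4 ^ α :=
      mul_le_mul_of_nonneg_left h4 (by positivity)
    linarith
  -- counting in balls
  have hball : ∀ i : ℕ, ((T.filter (fun t => 1 + 2 ^ j * |t - s| < 2 ^ (i + 1))).card : ℝ)
      ≤ C * 4 ^ α * ((2 : ℝ) ^ α) ^ i := by
    intro i
    set ρ : ℝ := 2 ^ (i + 1) / 2 ^ j with hρ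
    have hρ0 : 0 < ρ := by positivity
    set a : ℝ := max 1 (s - ρ) with ha
    set b : ℝ := min 2 (s + ρ) with hb
    have h2i : (1 : ℝ) ≤ ((2 : ℝ) ^ α) ^ i := one_le_pow₀ (Real.one_le_rpow (by norm_num) hα.le)
    have hmem : ∀ t ∈ T.filter (fun t => 1 + 2 ^ j * |t - s| < 2 ^ (i + 1)), t ∈ E ∧ t ∈ Icc a b := by
      intro t ht
      rw [Finset.mem_filter] at ht
      have h1 := hE (hT t ht.1)
      have h2 : |t - s| < ρ := by
        rw [hρ, lt_div_iff₀ hlam]
        nlinarith [ht.2]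
      rw [abs_lt] at h2
      refine ⟨hT t ht.1, ?_, ?_⟩
      · rw [ha]; exact max_le h1.1 (by linarith)
      · rw [hb]; exact le_min h1.2 (by linarith)
    have hsep' : ∀ t ∈ T.filter (fun t => 1 + 2 ^ j * |t - s| < 2 ^ (i + 1)),
        ∀ t' ∈ T.filter (fun t => 1 + 2 ^ j * |t - s| < 2 ^ (i + 1)), t ≠ t' → 1 / 2 ^ j ≤ |t - t'| :=
      fun t ht t' ht' => hsep t (Finset.mem_filter.1 ht).1 t' (Finset.mem_filter.1 ht').1
    rcases le_or_gt (1 / 2 ^ j) (b - a) with h | h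
    · have h1 := card_le hC0 hδ hδ1 (le_max_left _ _) (min_le_left _ _) h hmem hsep'
      refine h1.trans ?_
      have h2 : (b - a) / (1 / 2 ^ j) ≤ 4 * 2 ^ i := by
        have h3 : b - a ≤ 2 * ρ := by
          have := le_max_right 1 (s - ρ)
          have := min_le_right 2 (s + ρ)
          linarith
        rw [div_div_eq_mul_div, div_one]
        calc (b - a) * 2 ^ j ≤ 2 * ρ * 2 ^ j := mul_le_mul_of_nonneg_right h3 hlam.le
          _ = 4 * 2 ^ i := by rw [hρ]; field_simp; ring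
      have h3 : 0 ≤ (b - a) / (1 / 2 ^ j) := by
        apply div_nonneg _ hδ.le
        linarith
      calc C0 * ((b - a) / (1 / 2 ^ j)) ^ α ≤ C * ((b - a) / (1 / 2 ^ j)) ^ α :=
            mul_le_mul_of_nonneg_right hC0C (by positivity)
        _ ≤ C * (4 * 2 ^ i) ^ α :=
            mul_le_mul_of_nonneg_left (Real.rpow_le_rpow h3 h2 hα.le) (by positivity)
        _ = C * 4 ^ α * ((2 : ℝ) ^ α) ^ i := by
            rw [Real.mul_rpow (by norm_num) (by positivity), ← Real.rpow_natCast ((2 : ℝ) ^ α) i,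
              ← Real.rpow_natCast (2 : ℝ) i, ← Real.rpow_mul (by norm_num), ← Real.rpow_mul (by norm_num),
              mul_comm (i : ℝ) α]
            ring
    · have h1 : (T.filter (fun t => 1 + 2 ^ j * |t - s| < 2 ^ (i + 1))).card ≤ 1 := by
        rw [Finset.card_le_one]
        intro t ht t' ht'
        by_contra hne
        have h2 := hsep' t ht t' ht' hne
        have h3 := (hmem t ht).2
        have h4 := (hmem t' ht').2
        have h5 : |t - t'| ≤ b - a := by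
          rw [abs_le]
          constructor <;> linarith [h3.1, h3.2, h4.1, h4.2]
        linarith
      calc ((T.filter (fun t => 1 + 2 ^ j * |t - s| < 2 ^ (i + 1))).card : ℝ) ≤ 1 := by exact_mod_cast h1
        _ ≤ C * 4 ^ α * ((2 : ℝ) ^ α) ^ i := by
            have : 1 ≤ C * 4 ^ α := by nlinarith
            nlinarith
  -- dyadic decomposition
  have hterm : ∀ t ∈ T, (1 + 2 ^ j * |t - s|) ^ (-κ)
      ≤ (∑ i ∈ Finset.range j, if 1 + 2 ^ j * |t - s| < 2 ^ (i + 1) then ((2 : ℝ) ^ (-κ)) ^ i else 0)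
        + ((2 : ℝ) ^ (-κ)) ^ j := by
    intro t _
    have hpos : (1 : ℝ) ≤ 1 + 2 ^ j * |t - s| := by
      have := mul_nonneg hlam.le (abs_nonneg (t - s)); linarith
    have hp2 : ∀ i : ℕ, (0 : ℝ) ≤ ((2 : ℝ) ^ (-κ)) ^ i := fun i => by positivity
    have hconv : ∀ i : ℕ, ((2 : ℝ) ^ (-κ)) ^ i = ((2 : ℝ) ^ i) ^ (-κ) := by
      intro i
      rw [← Real.rpow_natCast ((2 : ℝ) ^ (-κ)) i, ← Real.rpow_natCast (2 : ℝ) i,
        ← Real.rpow_mul (by norm_num), ← Real.rpow_mul (by norm_num), mul_comm]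
    rcases le_or_gt ((2 : ℝ) ^ j) (1 + 2 ^ j * |t - s|) with h | h
    · have h1 : (1 + 2 ^ j * |t - s|) ^ (-κ) ≤ ((2 : ℝ) ^ (-κ)) ^ j := by
        rw [hconv j]
        exact Real.rpow_le_rpow_of_nonpos (by positivity) h (by linarith)
      have h2 : 0 ≤ ∑ i ∈ Finset.range j, (if 1 + 2 ^ j * |t - s| < 2 ^ (i + 1) then ((2 : ℝ) ^ (-κ)) ^ i else 0) := by
        apply Finset.sum_nonneg
        intro i _
        split_ifs
        · exact hp2 i
        · exact le_rfl
      linarith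
    · -- choose i with 2^i ≤ . < 2^(i+1)
      obtain ⟨i, hi1, hi2⟩ := exists_nat_pow_near hpos (by norm_num : (1 : ℝ) < 2)
      have hij : i < j := by
        by_contra hcon
        have : (2 : ℝ) ^ j ≤ 2 ^ i := pow_le_pow_right₀ (by norm_num) (by omega)
        linarith
      have h1 : (1 + 2 ^ j * |t - s|) ^ (-κ) ≤ ((2 : ℝ) ^ (-κ)) ^ i := by
        rw [hconv i]
        exact Real.rpow_le_rpow_of_nonpos (by positivity) hi1 (by linarith)
      have h2 : ((2 : ℝ) ^ (-κ)) ^ i ≤ ∑ i ∈ Finset.range j, (if 1 + 2 ^ j * |t - s| < 2 ^ (i + 1) then ((2 : ℝ) ^ (-κ)) ^ i else 0) := by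
        have h3 := Finset.single_le_sum (s := Finset.range j)
          (f := fun i => if 1 + 2 ^ j * |t - s| < 2 ^ (i + 1) then ((2 : ℝ) ^ (-κ)) ^ i else 0)
          (fun i _ => by
            split_ifs
            · exact hp2 i
            · exact le_rfl) (Finset.mem_range.2 hij)
        simp only [if_pos hi2] at h3
        exact h3
      linarith [hp2 j]
  calc ∑ t ∈ T, (1 + 2 ^ j * |t - s|) ^ (-κ)
      ≤ ∑ t ∈ T, ((∑ i ∈ Finset.range j, if 1 + 2 ^ j * |t - s| < 2 ^ (i + 1) then ((2 : ℝ) ^ (-κ)) ^ i else 0)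
        + ((2 : ℝ) ^ (-κ)) ^ j) := Finset.sum_le_sum hterm
    _ = (∑ i ∈ Finset.range j, ((T.filter (fun t => 1 + 2 ^ j * |t - s| < 2 ^ (i + 1))).card : ℝ) * ((2 : ℝ) ^ (-κ)) ^ i)
        + (T.card : ℝ) * ((2 : ℝ) ^ (-κ)) ^ j := by
        rw [Finset.sum_add_distrib, Finset.sum_comm]
        congr 1
        · refine Finset.sum_congr rfl fun i _ => ?_
          rw [← Finset.sum_filter, Finset.sum_const, nsmul_eq_mul]
        · rw [Finset.sum_const, nsmul_eq_mul]
    _ ≤ (∑ i ∈ Finset.range j, (C * 4 ^ α * ((2 : ℝ) ^ α) ^ i) * ((2 : ℝ) ^ (-κ)) ^ i)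
        + (C * 4 ^ α * ((2 : ℝ) ^ α) ^ j) * ((2 : ℝ) ^ (-κ)) ^ j := by
        apply add_le_add
        · exact Finset.sum_le_sum fun i _ => mul_le_mul_of_nonneg_right (hball i) (by positivity)
        · apply mul_le_mul_of_nonneg_right _ (by positivity)
          have h5 : ((2 : ℝ) ^ j) ^ α = ((2 : ℝ) ^ α) ^ j := by
            rw [← Real.rpow_natCast ((2 : ℝ) ^ α) j, ← Real.rpow_natCast (2 : ℝ) j,
              ← Real.rpow_mul (by norm_num), ← Real.rpow_mul (by norm_num), mul_comm]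
          rw [← h5]
          have : C * ((2 : ℝ) ^ j) ^ α * 1 ≤ C * ((2 : ℝ) ^ j) ^ α * 4 ^ α :=
            mul_le_mul_of_nonneg_left h4 (by positivity)
          linarith
    _ = C * 4 ^ α * (∑ i ∈ Finset.range (j + 1), ((2 : ℝ) ^ (α - κ)) ^ i) := by
        have h6 : ∀ i : ℕ, (C * 4 ^ α * ((2 : ℝ) ^ α) ^ i) * ((2 : ℝ) ^ (-κ)) ^ i
            = C * 4 ^ α * ((2 : ℝ) ^ (α - κ)) ^ i := by
          intro i
          rw [mul_assoc, ← mul_pow, ← Real.rpow_add (by norm_num), sub_eq_add_neg]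
        rw [Finset.sum_range_succ, mul_add, Finset.mul_sum]
        simp only [h6]

end Pool.Agent.Lib.MPc0f824
end

section
open MeasureTheory Set Metric Measure

namespace Pool.Agent.Lib.MPc0f824

theorem pw {m θ η X Y E lam : ℝ} (hm : 0 ≤ m) (hηθ : η ≤ θ) (hθ1 : θ ≤ m) (hθ2 : -θ ≤ m)
    (hη2 : -η ≤ m) (hX : 0 < X) (hY : 0 < Y) (hE : 1 ≤ E) (hlam : 1 ≤ lam)
    (hYl : 1 / lam ≤ Y) (h1 : 1 ≤ (X + Y) * E) (h2 : X ≤ (2 + Y) * E) (h3 : Y ≤ (2 + X) * E) :
    X ^ (-θ) * Y ^ η ≤ 3 ^ m * (X ^ (-(max θ 0)) + lam ^ (max (-η) 0)) * E ^ m := by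
  have hE0 : 0 < E := by linarith
  have hl0 : 0 < lam := by linarith
  have hEm : 1 ≤ E ^ m := Real.one_le_rpow hE hm
  have h3m : (1 : ℝ) ≤ 3 ^ m := Real.one_le_rpow (by norm_num) hm
  have hXp : 0 < X ^ (-(max θ 0)) := Real.rpow_pos_of_pos hX _
  have hLp : 1 ≤ lam ^ (max (-η) 0) := Real.one_le_rpow hlam (le_max_right _ _)
  rcases lt_or_ge 0 η with hη | hη
  · -- η > 0
    have hθ : 0 < θ := lt_of_lt_of_le hη hηθ
    rw [max_eq_left hθ.le] at *
    have e1 : Y ^ η ≤ (2 + X) ^ η * E ^ m := by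
      calc Y ^ η ≤ ((2 + X) * E) ^ η := Real.rpow_le_rpow hY.le h3 hη.le
        _ = (2 + X) ^ η * E ^ η := Real.mul_rpow (by linarith) hE0.le
        _ ≤ (2 + X) ^ η * E ^ m := by
            apply mul_le_mul_of_nonneg_left _ (by positivity)
            exact Real.rpow_le_rpow_of_exponent_le hE (by linarith)
    have e2 : X ^ (-θ) * (2 + X) ^ η ≤ 3 ^ m * (X ^ (-θ) + lam ^ (max (-η) 0)) := by
      rcases le_total X 1 with hX1 | hX1
      · have e3 : (2 + X) ^ η ≤ 3 ^ m :=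
          (Real.rpow_le_rpow (by linarith) (by linarith : 2 + X ≤ 3) hη.le).trans
            (Real.rpow_le_rpow_of_exponent_le (by norm_num) (by linarith))
        calc X ^ (-θ) * (2 + X) ^ η ≤ X ^ (-θ) * 3 ^ m := mul_le_mul_of_nonneg_left e3 hXp.le
          _ ≤ 3 ^ m * (X ^ (-θ) + lam ^ (max (-η) 0)) := by nlinarith
      · have e3 : (2 + X) ^ η ≤ 3 ^ m * X ^ η := by
          calc (2 + X) ^ η ≤ (3 * X) ^ η := Real.rpow_le_rpow (by linarith) (by linarith) hη.le
            _ = 3 ^ η * X ^ η := Real.mul_rpow (by norm_num) hX.le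
            _ ≤ 3 ^ m * X ^ η := by
              apply mul_le_mul_of_nonneg_right _ (by positivity)
              exact Real.rpow_le_rpow_of_exponent_le (by norm_num) (by linarith)
        have e4 : X ^ (-θ) * X ^ η ≤ 1 := by
          rw [← Real.rpow_add hX]
          exact Real.rpow_le_one_of_one_le_of_nonpos hX1 (by linarith)
        calc X ^ (-θ) * (2 + X) ^ η ≤ X ^ (-θ) * (3 ^ m * X ^ η) := mul_le_mul_of_nonneg_left e3 hXp.le
          _ = 3 ^ m * (X ^ (-θ) * X ^ η) := by ring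
          _ ≤ 3 ^ m * 1 := mul_le_mul_of_nonneg_left e4 (by positivity)
          _ ≤ _ := by
            apply mul_le_mul_of_nonneg_left _ (by positivity)
            linarith
    calc X ^ (-θ) * Y ^ η ≤ X ^ (-θ) * ((2 + X) ^ η * E ^ m) := mul_le_mul_of_nonneg_left e1 hXp.le
      _ = (X ^ (-θ) * (2 + X) ^ η) * E ^ m := by ring
      _ ≤ _ := mul_le_mul_of_nonneg_right e2 (by positivity)
  · have hYη : Y ^ η ≤ lam ^ (-η) := by
      have : (1 / lam) ^ η = lam ^ (-η) := by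
        rw [one_div, Real.inv_rpow hl0.le, Real.rpow_neg hl0.le]
      rw [← this]
      exact Real.rpow_le_rpow_of_nonpos (by positivity) hYl hη
    rw [max_eq_left (by linarith : (0 : ℝ) ≤ -η)] at *
    have hYp : 0 < Y ^ η := Real.rpow_pos_of_pos hY _
    rcases le_or_gt 0 θ with hθ | hθ
    · rw [max_eq_left hθ] at *
      have h2m : (2 : ℝ) ^ m ≤ 3 ^ m := Real.rpow_le_rpow (by norm_num) (by norm_num) hm
      have key : ∀ e : ℝ, 0 ≤ e → e ≤ m → (2 * E) ^ e ≤ 3 ^ m * E ^ m := by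
        intro e he hem
        calc (2 * E) ^ e ≤ (2 * E) ^ m := Real.rpow_le_rpow_of_exponent_le (by linarith) hem
          _ = 2 ^ m * E ^ m := Real.mul_rpow (by norm_num) hE0.le
          _ ≤ _ := mul_le_mul_of_nonneg_right h2m (by positivity)
      have inv : ∀ (Z e : ℝ), 0 < Z → 1 / (2 * E) ≤ Z → e ≤ 0 → Z ^ e ≤ (2 * E) ^ (-e) := by
        intro Z e _ hZ he
        have : (1 / (2 * E)) ^ e = (2 * E) ^ (-e) := by
          rw [one_div, Real.inv_rpow (by positivity), Real.rpow_neg (by positivity)]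
        rw [← this]
        exact Real.rpow_le_rpow_of_nonpos (by positivity) hZ he
      rcases le_or_gt (1 / (2 * E)) Y with hc | hc
      · have e1 := (inv Y η hY hc hη).trans (key (-η) (by linarith) (by linarith))
        calc X ^ (-θ) * Y ^ η ≤ X ^ (-θ) * (3 ^ m * E ^ m) := mul_le_mul_of_nonneg_left e1 hXp.le
          _ = 3 ^ m * (X ^ (-θ) + 0) * E ^ m := by ring
          _ ≤ _ := by
            apply mul_le_mul_of_nonneg_right _ (by positivity)
            apply mul_le_mul_of_nonneg_left _ (by positivity)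
            linarith
      · have hcX : 1 / (2 * E) ≤ X := by
          have e0 : Y * E < 1 / 2 := by
            rw [lt_div_iff₀ (by positivity)] at hc
            linarith
          rw [div_le_iff₀ (by positivity)]
          nlinarith
        have e1 := (inv X (-θ) hX hcX (by linarith)).trans (key (- -θ) (by linarith) (by linarith))
        calc X ^ (-θ) * Y ^ η ≤ (3 ^ m * E ^ m) * lam ^ (-η) :=
              mul_le_mul e1 hYη hYp.le (by positivity)
          _ = 3 ^ m * (0 + lam ^ (-η)) * E ^ m := by ring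
          _ ≤ _ := by
            apply mul_le_mul_of_nonneg_right _ (by positivity)
            apply mul_le_mul_of_nonneg_left _ (by positivity)
            linarith
    · rw [max_eq_right hθ.le] at *
      have e1 : X ^ (-θ) ≤ (2 + Y) ^ (-θ) * E ^ m := by
        calc X ^ (-θ) ≤ ((2 + Y) * E) ^ (-θ) := Real.rpow_le_rpow hX.le h2 (by linarith)
          _ = (2 + Y) ^ (-θ) * E ^ (-θ) := Real.mul_rpow (by linarith) hE0.le
          _ ≤ (2 + Y) ^ (-θ) * E ^ m := by
            apply mul_le_mul_of_nonneg_left _ (by positivity)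
            exact Real.rpow_le_rpow_of_exponent_le hE (by linarith)
      have e2 : (2 + Y) ^ (-θ) * Y ^ η ≤ 3 ^ m * lam ^ (-η) := by
        rcases le_total Y 1 with hY1 | hY1
        · have e3 : (2 + Y) ^ (-θ) ≤ 3 ^ m :=
            (Real.rpow_le_rpow (by linarith) (by linarith : 2 + Y ≤ 3) (by linarith)).trans
              (Real.rpow_le_rpow_of_exponent_le (by norm_num) (by linarith))
          exact mul_le_mul e3 hYη hYp.le (by positivity)
        · have e3 : (2 + Y) ^ (-θ) ≤ 3 ^ m * Y ^ (-θ) := by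
            calc (2 + Y) ^ (-θ) ≤ (3 * Y) ^ (-θ) := Real.rpow_le_rpow (by linarith) (by linarith) (by linarith)
              _ = 3 ^ (-θ) * Y ^ (-θ) := Real.mul_rpow (by norm_num) hY.le
              _ ≤ 3 ^ m * Y ^ (-θ) := by
                apply mul_le_mul_of_nonneg_right _ (by positivity)
                exact Real.rpow_le_rpow_of_exponent_le (by norm_num) (by linarith)
          have e4 : Y ^ (-θ) * Y ^ η ≤ 1 := by
            rw [← Real.rpow_add hY]
            exact Real.rpow_le_one_of_one_le_of_nonpos hY1 (by linarith)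
          calc (2 + Y) ^ (-θ) * Y ^ η ≤ (3 ^ m * Y ^ (-θ)) * Y ^ η := mul_le_mul_of_nonneg_right e3 hYp.le
            _ = 3 ^ m * (Y ^ (-θ) * Y ^ η) := by ring
            _ ≤ 3 ^ m * 1 := mul_le_mul_of_nonneg_left e4 (by positivity)
            _ ≤ 3 ^ m * lam ^ (-η) := mul_le_mul_of_nonneg_left hLp (by positivity)
      calc X ^ (-θ) * Y ^ η ≤ ((2 + Y) ^ (-θ) * E ^ m) * Y ^ η := mul_le_mul_of_nonneg_right e1 hYp.le
        _ = ((2 + Y) ^ (-θ) * Y ^ η) * E ^ m := by ring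
        _ ≤ (3 ^ m * lam ^ (-η)) * E ^ m := mul_le_mul_of_nonneg_right e2 (by positivity)
        _ = 3 ^ m * (0 + lam ^ (-η)) * E ^ m := by ring
        _ ≤ _ := by
            apply mul_le_mul_of_nonneg_right _ (by positivity)
            apply mul_le_mul_of_nonneg_left _ (by positivity)
            linarith

theorem dst_le_sum (τ R S : ℝ) (hR : 0 ≤ R) (hS : 0 ≤ S) (hτ : 0 ≤ τ) :
    τ ≤ R + S + dst τ R S ∧ R ≤ τ + S + dst τ R S ∧ S ≤ τ + R + dst τ R S := by
  have h : dst τ R S = |τ + R + S| ∨ dst τ R S = |τ + R - S| ∨ dst τ R S = |τ - R + S| ∨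
      dst τ R S = |τ - R - S| := by
    unfold dst
    rcases min_choice (min |τ + R + S| |τ + R - S|) (min |τ - R + S| |τ - R - S|) with h | h
    · rw [h]
      rcases min_choice |τ + R + S| |τ + R - S| with h' | h' <;> rw [h'] <;> simp
    · rw [h]
      rcases min_choice |τ - R + S| |τ - R - S| with h' | h' <;> rw [h'] <;> simp
  rcases h with h | h | h | h <;> rw [h]
  · have := le_abs_self (τ + R + S); refine ⟨by linarith, by linarith, by linarith⟩
  · have h1 := le_abs_self (τ + R - S); have h2 := neg_abs_le (τ + R - S)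
    refine ⟨by linarith, by linarith, by linarith⟩
  · have h1 := le_abs_self (τ - R + S); have h2 := neg_abs_le (τ - R + S)
    refine ⟨by linarith, by linarith, by linarith⟩
  · have h1 := le_abs_self (τ - R - S); have h2 := neg_abs_le (τ - R - S)
    refine ⟨by linarith, by linarith, by linarith⟩

/-- The weight in the radial variable. -/
noncomputable def AA (lam θ' η' r : ℝ) : ℝ := ((1 + lam * r) / lam) ^ (-θ') + lam ^ η'

theorem AA_pos {lam θ' η' r : ℝ} (hl : 0 < lam) (hr : 0 ≤ r) : 0 < AA lam θ' η' r := by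
  unfold AA
  have : 0 < (1 + lam * r) / lam := by positivity
  positivity

/-- Pointwise comparison of the kernel with the model kernel. -/
theorem pointwise (n : ℕ) {p q lam t r s : ℝ} (hp : 1 ≤ p) (hpq : p ≤ q) (hlam : 1 ≤ lam)
    (ht : t ∈ Icc (1 : ℝ) 2) (hr : 0 < r) (hs : 0 < s) :
    lam ^ (n + 2) * ((1 + lam * r) ^ (-aa n) * (1 + lam * s) ^ (-aa n)) * s ^ (n + 1) *
      (r ^ (((n : ℝ) + 1) / q) * s ^ (-(((n : ℝ) + 1) / p)))
      ≤ 3 ^ ((n : ℝ) + 1) * lam * AA lam (max (((n : ℝ) + 1) * (1 / 2 - 1 / q)) 0)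
          (max (((n : ℝ) + 1) * (1 / p - 1 / 2)) 0) r *
        (1 + dst (lam * t) (lam * r) (lam * s)) ^ (n + 1) := by
  set m : ℝ := (n : ℝ) + 1 with hm
  have hm0 : 0 < m := by positivity
  have hl0 : 0 < lam := by linarith
  have hp0 : 0 < p := by linarith
  have hq0 : 0 < q := by linarith
  set D := dst (lam * t) (lam * r) (lam * s) with hD
  have hD0 : 0 ≤ D := dst_nonneg _ _ _
  obtain ⟨d1, d2, d3⟩ := dst_le_sum (lam * t) (lam * r) (lam * s) (by positivity) (by positivity)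
    (by have := ht.1; positivity)
  rw [← hD] at d1 d2 d3
  have hR : 0 < 1 + lam * r := by positivity
  have hS : 0 < 1 + lam * s := by positivity
  set X : ℝ := (1 + lam * r) / lam with hX
  set Y : ℝ := (1 + lam * s) / lam with hY
  have hX0 : 0 < X := by positivity
  have hY0 : 0 < Y := by positivity
  have hXe : 1 + lam * r = lam * X := by rw [hX]; field_simp
  have hYe : 1 + lam * s = lam * Y := by rw [hY]; field_simp
  have ht1 := ht.1
  have ht2 := ht.2
  have hlt1 : lam ≤ lam * t := by nlinarith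
  have hlt2 : lam * t ≤ 2 * lam := by nlinarith
  have hip : 0 < 1 / p := by positivity
  have hiq : 0 < 1 / q := by positivity
  have hip1 : 1 / p ≤ 1 := by rw [div_le_one hp0]; exact hp
  have hiqp : 1 / q ≤ 1 / p := one_div_le_one_div_of_le hp0 hpq
  have hiq1 : 1 / q ≤ 1 := hiqp.trans hip1
  have key := pw (m := m) (θ := m * (1 / 2 - 1 / q)) (η := m * (1 / 2 - 1 / p)) (X := X) (Y := Y)
    (E := 1 + D) (lam := lam) hm0.le (by nlinarith) (by nlinarith) (by nlinarith) (by nlinarith) hX0 hY0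
    (by linarith) hlam
    (by rw [hY]; apply div_le_div_of_nonneg_right _ hl0.le; nlinarith [mul_pos hl0 hs])
    (by
      rw [hX, hY, ← add_div, div_mul_eq_mul_div, one_le_div hl0]
      nlinarith [mul_pos hl0 hr, mul_pos hl0 hs])
    (by
      rw [hX, div_le_iff₀ hl0]
      have : (2 + Y) * (1 + D) * lam = (2 * lam + (1 + lam * s)) * (1 + D) := by rw [hYe]; ring
      rw [this]
      nlinarith [mul_pos hl0 hs, mul_nonneg hl0.le hD0, mul_nonneg (mul_pos hl0 hs).le hD0])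
    (by
      rw [hY, div_le_iff₀ hl0]
      have : (2 + X) * (1 + D) * lam = (2 * lam + (1 + lam * r)) * (1 + D) := by rw [hXe]; ring
      rw [this]
      nlinarith [mul_pos hl0 hr, mul_nonneg hl0.le hD0, mul_nonneg (mul_pos hl0 hr).le hD0])
  -- left side
  have hr1 : r ^ (m / q) ≤ (1 + lam * r) ^ (m / q) * lam ^ (-(m / q)) := by
    have : r = (lam * r) / lam := by field_simp
    calc r ^ (m / q) = ((lam * r) / lam) ^ (m / q) := by rw [← this]
      _ = (lam * r) ^ (m / q) * lam ^ (-(m / q)) := by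
          rw [Real.div_rpow (by positivity) hl0.le, Real.rpow_neg hl0.le, div_eq_mul_inv]
      _ ≤ _ := by
          apply mul_le_mul_of_nonneg_right _ (by positivity)
          exact Real.rpow_le_rpow (by positivity) (by linarith) (by positivity)
  have hs1 : s ^ (n + 1) * s ^ (-(m / p)) ≤ (1 + lam * s) ^ (m - m / p) * lam ^ (-(m - m / p)) := by
    have h0 : s ^ (n + 1) = s ^ m := by
      rw [hm, ← Real.rpow_natCast]; push_cast; rfl
    rw [h0, ← Real.rpow_add hs, ← sub_eq_add_neg]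
    have : s = (lam * s) / lam := by field_simp
    have hmp : 0 ≤ m - m / p := by
      rw [sub_nonneg, div_le_iff₀ hp0]; nlinarith
    calc s ^ (m - m / p) = ((lam * s) / lam) ^ (m - m / p) := by rw [← this]
      _ = (lam * s) ^ (m - m / p) * lam ^ (-(m - m / p)) := by
          rw [Real.div_rpow (by positivity) hl0.le, Real.rpow_neg hl0.le, div_eq_mul_inv]
      _ ≤ _ := by
          apply mul_le_mul_of_nonneg_right _ (by positivity)
          exact Real.rpow_le_rpow (by positivity) (by linarith) hmp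
  have ha : aa n = m / 2 := rfl
  have hleft : lam ^ (n + 2) * ((1 + lam * r) ^ (-aa n) * (1 + lam * s) ^ (-aa n)) * s ^ (n + 1) *
      (r ^ (m / q) * s ^ (-(m / p)))
      ≤ lam * (X ^ (-(m * (1 / 2 - 1 / q))) * Y ^ (m * (1 / 2 - 1 / p))) := by
    calc lam ^ (n + 2) * ((1 + lam * r) ^ (-aa n) * (1 + lam * s) ^ (-aa n)) * s ^ (n + 1) *
      (r ^ (m / q) * s ^ (-(m / p)))
        = lam ^ (n + 2) * ((1 + lam * r) ^ (-aa n) * (1 + lam * s) ^ (-aa n)) *
          (r ^ (m / q) * (s ^ (n + 1) * s ^ (-(m / p)))) := by ring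
      _ ≤ lam ^ (n + 2) * ((1 + lam * r) ^ (-aa n) * (1 + lam * s) ^ (-aa n)) *
          (((1 + lam * r) ^ (m / q) * lam ^ (-(m / q))) *
          ((1 + lam * s) ^ (m - m / p) * lam ^ (-(m - m / p)))) := by
          apply mul_le_mul_of_nonneg_left _ (by positivity)
          exact mul_le_mul hr1 hs1 (by positivity) (by positivity)
      _ = (lam ^ (n + 2) * (lam ^ (-(m / q)) * lam ^ (-(m - m / p)))) *
          (((1 + lam * r) ^ (-aa n) * (1 + lam * r) ^ (m / q)) *
          ((1 + lam * s) ^ (-aa n) * (1 + lam * s) ^ (m - m / p))) := by ring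
      _ = _ := by
          rw [← Real.rpow_add hR, ← Real.rpow_add hS, hXe, hYe, Real.mul_rpow hl0.le hX0.le,
            Real.mul_rpow hl0.le hY0.le]
          have h0 : lam ^ (n + 2) = lam ^ (m + 1) := by
            rw [hm, ← Real.rpow_natCast]; congr 1; push_cast; ring
          rw [h0, ha]
          have e1 : -(m / 2) + m / q = -(m * (1 / 2 - 1 / q)) := by ring
          have e2 : -(m / 2) + (m - m / p) = m * (1 / 2 - 1 / p) := by ring
          rw [e1, e2]
          have e3 : lam ^ (m + 1) * (lam ^ (-(m / q)) * lam ^ (-(m - m / p))) *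
            (lam ^ (-(m * (1 / 2 - 1 / q))) * lam ^ (m * (1 / 2 - 1 / p))) = lam := by
            rw [← Real.rpow_add hl0, ← Real.rpow_add hl0, ← Real.rpow_add hl0, ← Real.rpow_add hl0]
            have : m + 1 + (-(m / q) + -(m - m / p)) + (-(m * (1 / 2 - 1 / q)) + m * (1 / 2 - 1 / p)) = 1 := by
              ring
            rw [this, Real.rpow_one]
          calc _ = (lam ^ (m + 1) * (lam ^ (-(m / q)) * lam ^ (-(m - m / p))) *
            (lam ^ (-(m * (1 / 2 - 1 / q))) * lam ^ (m * (1 / 2 - 1 / p)))) *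
            (X ^ (-(m * (1 / 2 - 1 / q))) * Y ^ (m * (1 / 2 - 1 / p))) := by ring
            _ = _ := by rw [e3]
  refine hleft.trans ?_
  have hEm : (1 + D) ^ m = (1 + D) ^ (n + 1) := by
    rw [hm, ← Real.rpow_natCast]; push_cast; rfl
  have hneg : -(m * (1 / 2 - 1 / p)) = m * (1 / p - 1 / 2) := by ring
  rw [hEm, hneg] at key
  unfold AA
  rw [← hX]
  calc lam * (X ^ (-(m * (1 / 2 - 1 / q))) * Y ^ (m * (1 / 2 - 1 / p)))
      ≤ lam * (3 ^ m * (X ^ (-(max (m * (1 / 2 - 1 / q)) 0)) + lam ^ (max (m * (1 / p - 1 / 2)) 0)) *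
        (1 + D) ^ (n + 1)) := mul_le_mul_of_nonneg_left key hl0.le
    _ = _ := by ring

end Pool.Agent.Lib.MPc0f824
end
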